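import Mathlib

/-!
# Structured stack programs and their compilation to Mathlib's multi-stack Turing machines

`Cmd K σ` is a small structured language over finitely many stacks of natural numbers (indexed
by `K`) and a finite internal state `σ`.  `Exec c v S v' S' t` says that `c` started in state `v`
with stacks `S` stops in state `v'` with stacks `S'` after exactly `t` steps.  Programs are
compiled to `Turing.TM2` statements with the same running time.
-/

namespace Pool.Agent.Lib.PolyTime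

open Turing Function

/-- Structured stack programs. -/
inductive Cmd (K σ : Type) : Type
  | push (k : K) (f : σ → ℕ) : Cmd K σ
  | pop (k : K) (f : Option ℕ → σ → σ) : Cmd K σ
  | load (f : σ → σ) : Cmd K σ
  | seq (c d : Cmd K σ) : Cmd K σ
  | ite (p : σ → Bool) (c d : Cmd K σ) : Cmd K σ
  | loop (p : σ → Bool) (c : Cmd K σ) : Cmd K σ

variable {K σ : Type} [DecidableEq K]

/-- Big-step semantics of structured programs, with exact running time. -/
inductive Exec : Cmd K σ → σ → (K → List ℕ) → σ → (K → List ℕ) → ℕ → Prop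
  | push (k : K) (f : σ → ℕ) (v : σ) (S : K → List ℕ) :
      Exec (.push k f) v S v (update S k (f v :: S k)) 1
  | pop (k : K) (f : Option ℕ → σ → σ) (v : σ) (S : K → List ℕ) :
      Exec (.pop k f) v S (f (S k).head? v) (update S k (S k).tail) 1
  | load (f : σ → σ) (v : σ) (S : K → List ℕ) : Exec (.load f) v S (f v) S 1
  | seq {c d : Cmd K σ} {v v₁ v₂ : σ} {S S₁ S₂ : K → List ℕ} {t₁ t₂ : ℕ}
      (h₁ : Exec c v S v₁ S₁ t₁) (h₂ : Exec d v₁ S₁ v₂ S₂ t₂) :
      Exec (.seq c d) v S v₂ S₂ (t₁ + t₂)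
  | iteTrue {p : σ → Bool} {c d : Cmd K σ} {v v₁ : σ} {S S₁ : K → List ℕ} {t : ℕ}
      (hp : p v = true) (h : Exec c v S v₁ S₁ t) : Exec (.ite p c d) v S v₁ S₁ (t + 1)
  | iteFalse {p : σ → Bool} {c d : Cmd K σ} {v v₁ : σ} {S S₁ : K → List ℕ} {t : ℕ}
      (hp : p v = false) (h : Exec d v S v₁ S₁ t) : Exec (.ite p c d) v S v₁ S₁ (t + 1)
  | loopFalse {p : σ → Bool} {c : Cmd K σ} {v : σ} {S : K → List ℕ}
      (hp : p v = false) : Exec (.loop p c) v S v S 1
  | loopTrue {p : σ → Bool} {c : Cmd K σ} {v v₁ v₂ : σ} {S S₁ S₂ : K → List ℕ} {t₁ t₂ : ℕ}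
      (hp : p v = true) (h₁ : Exec c v S v₁ S₁ t₁) (h₂ : Exec (.loop p c) v₁ S₁ v₂ S₂ t₂) :
      Exec (.loop p c) v S v₂ S₂ (t₁ + t₂ + 1)

/-- `c` runs from `(v, S)` to `(v', S')` in at most `T` steps. -/
def Runs (c : Cmd K σ) (v : σ) (S : K → List ℕ) (v' : σ) (S' : K → List ℕ) (T : ℕ) : Prop :=
  ∃ t, t ≤ T ∧ Exec c v S v' S' t

section Runs

variable {c d : Cmd K σ} {p : σ → Bool} {v v₁ v₂ : σ} {S S₁ S₂ : K → List ℕ} {T T₁ T₂ : ℕ}

theorem Runs.mono (h : Runs c v S v₁ S₁ T₁) (hT : T₁ ≤ T₂) : Runs c v S v₁ S₁ T₂ := by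
  obtain ⟨t, ht, h⟩ := h
  exact ⟨t, ht.trans hT, h⟩

theorem Runs.of_eq (h : Runs c v S v₁ S₁ T) (hv : v₁ = v₂) (hS : S₁ = S₂) :
    Runs c v S v₂ S₂ T := by
  subst hv hS
  exact h

theorem Runs.push (k : K) (f : σ → ℕ) (v : σ) (S : K → List ℕ) :
    Runs (.push k f) v S v (update S k (f v :: S k)) 1 := ⟨1, le_rfl, Exec.push k f v S⟩

theorem Runs.pop (k : K) (f : Option ℕ → σ → σ) (v : σ) (S : K → List ℕ) :
    Runs (.pop k f) v S (f (S k).head? v) (update S k (S k).tail) 1 :=
  ⟨1, le_rfl, Exec.pop k f v S⟩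

theorem Runs.load (f : σ → σ) (v : σ) (S : K → List ℕ) : Runs (.load f) v S (f v) S 1 :=
  ⟨1, le_rfl, Exec.load f v S⟩

theorem Runs.seq (h₁ : Runs c v S v₁ S₁ T₁) (h₂ : Runs d v₁ S₁ v₂ S₂ T₂) :
    Runs (.seq c d) v S v₂ S₂ (T₁ + T₂) := by
  obtain ⟨t₁, ht₁, h₁⟩ := h₁
  obtain ⟨t₂, ht₂, h₂⟩ := h₂
  exact ⟨t₁ + t₂, by omega, Exec.seq h₁ h₂⟩

theorem Runs.iteTrue (hp : p v = true) (h : Runs c v S v₁ S₁ T) :
    Runs (.ite p c d) v S v₁ S₁ (T + 1) := by
  obtain ⟨t, ht, h⟩ := h
  exact ⟨t + 1, by omega, Exec.iteTrue hp h⟩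

theorem Runs.iteFalse (hp : p v = false) (h : Runs d v S v₁ S₁ T) :
    Runs (.ite p c d) v S v₁ S₁ (T + 1) := by
  obtain ⟨t, ht, h⟩ := h
  exact ⟨t + 1, by omega, Exec.iteFalse hp h⟩

theorem Runs.loopFalse (hp : p v = false) : Runs (.loop p c) v S v S 1 :=
  ⟨1, le_rfl, Exec.loopFalse hp⟩

theorem Runs.loopTrue (hp : p v = true) (h₁ : Runs c v S v₁ S₁ T₁)
    (h₂ : Runs (.loop p c) v₁ S₁ v₂ S₂ T₂) : Runs (.loop p c) v S v₂ S₂ (T₁ + T₂ + 1) := by
  obtain ⟨t₁, ht₁, h₁⟩ := h₁
  obtain ⟨t₂, ht₂, h₂⟩ := h₂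
  exact ⟨t₁ + t₂ + 1, by omega, Exec.loopTrue hp h₁ h₂⟩

end Runs

/-! ### Compilation -/

/-- The type of program points of a program. -/
def Cmd.Lab : Cmd K σ → Type
  | .push _ _ => Unit
  | .pop _ _ => Unit
  | .load _ => Unit
  | .seq c d => c.Lab ⊕ d.Lab
  | .ite _ c d => Option (c.Lab ⊕ d.Lab)
  | .loop _ c => Option c.Lab

/-- The program points form a finite type. -/
@[instance_reducible]
noncomputable def Cmd.labFintype : (c : Cmd K σ) → Fintype c.Lab
  | .push _ _ => (inferInstance : Fintype Unit)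
  | .pop _ _ => (inferInstance : Fintype Unit)
  | .load _ => (inferInstance : Fintype Unit)
  | .seq c d => by
      have := c.labFintype
      have := d.labFintype
      exact (inferInstance : Fintype (c.Lab ⊕ d.Lab))
  | .ite _ c d => by
      have := c.labFintype
      have := d.labFintype
      exact (inferInstance : Fintype (Option (c.Lab ⊕ d.Lab)))
  | .loop _ c => by
      have := c.labFintype
      exact (inferInstance : Fintype (Option c.Lab))

/-- The entry point of a program. -/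
def Cmd.entry : (c : Cmd K σ) → c.Lab
  | .push _ _ => ()
  | .pop _ _ => ()
  | .load _ => ()
  | .seq c _ => Sum.inl c.entry
  | .ite _ _ _ => none
  | .loop _ _ => none

/-- Compilation of structured programs over stacks with alphabets `Γ k`, each of which is a copy
of a subset of `ℕ` via `enc`/`dec`. -/
def Cmd.comp {Γ : K → Type} (enc : ∀ k, Γ k → ℕ) (dec : ∀ k, ℕ → Γ k) :
    (c : Cmd K σ) → {Λ : Type} → (c.Lab → Λ) → Λ → c.Lab → TM2.Stmt Γ Λ σ
  | .push k f, _, _, next, _ =>
      TM2.Stmt.push k (fun v => dec k (f v)) (TM2.Stmt.goto (fun _ => next))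
  | .pop k f, _, _, next, _ =>
      TM2.Stmt.pop k (fun v o => f (o.map (enc k)) v) (TM2.Stmt.goto (fun _ => next))
  | .load f, _, _, next, _ => TM2.Stmt.load f (TM2.Stmt.goto (fun _ => next))
  | .seq c d, _, emb, next, l =>
      match l with
      | Sum.inl l => c.comp enc dec (fun l => emb (Sum.inl l)) (emb (Sum.inr d.entry)) l
      | Sum.inr l => d.comp enc dec (fun l => emb (Sum.inr l)) next l
  | .ite p c d, _, emb, next, l =>
      match l with
      | none => TM2.Stmt.branch p (TM2.Stmt.goto (fun _ => emb (some (Sum.inl c.entry))))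
          (TM2.Stmt.goto (fun _ => emb (some (Sum.inr d.entry))))
      | some (Sum.inl l) => c.comp enc dec (fun l => emb (some (Sum.inl l))) next l
      | some (Sum.inr l) => d.comp enc dec (fun l => emb (some (Sum.inr l))) next l
  | .loop p c, _, emb, next, l =>
      match l with
      | none => TM2.Stmt.branch p (TM2.Stmt.goto (fun _ => emb (some c.entry)))
          (TM2.Stmt.goto (fun _ => next))
      | some l => c.comp enc dec (fun l => emb (some l)) (emb none) l

/-- Iterating the step function of a TM2 machine. -/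
inductive Steps {Γ : K → Type} {Λ : Type} (M : Λ → TM2.Stmt Γ Λ σ) :
    TM2.Cfg Γ Λ σ → TM2.Cfg Γ Λ σ → ℕ → Prop
  | refl (a : TM2.Cfg Γ Λ σ) : Steps M a a 0
  | step {a b c : TM2.Cfg Γ Λ σ} {n : ℕ} (h : TM2.step M a = some b) (h' : Steps M b c n) :
      Steps M a c (n + 1)

theorem Steps.trans {Γ : K → Type} {Λ : Type} {M : Λ → TM2.Stmt Γ Λ σ}
    {a b c : TM2.Cfg Γ Λ σ} {n m : ℕ} (h : Steps M a b n) (h' : Steps M b c m) :
    Steps M a c (n + m) := by
  induction h with
  | refl a => rwa [Nat.zero_add]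
  | step h _ ih =>
    rw [Nat.add_right_comm]
    exact Steps.step h (ih h')

theorem Steps.iterate {Γ : K → Type} {Λ : Type} {M : Λ → TM2.Stmt Γ Λ σ}
    {a b : TM2.Cfg Γ Λ σ} {n : ℕ} (h : Steps M a b n) :
    (flip bind (TM2.step M))^[n] (some a) = some b := by
  induction h with
  | refl a => rfl
  | @step a b c n h _ ih =>
    rw [Function.iterate_succ_apply]
    have : flip bind (TM2.step M) (some a) = TM2.step M a := rfl
    rw [this, h]
    exact ih

/-- The stacks of the machine represent the stacks of the program. -/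
def Repr {Γ : K → Type} (enc : ∀ k, Γ k → ℕ) (s : ∀ k, List (Γ k)) (S : K → List ℕ) : Prop :=
  ∀ k, (s k).map (enc k) = S k

/-- All symbols pushed on stack `k` during the execution are in the image of the alphabet. -/
def Cmd.Pushes (c : Cmd K σ) (P : K → ℕ → Prop) : Prop :=
  match c with
  | .push k f => ∀ v, P k (f v)
  | .pop _ _ => True
  | .load _ => True
  | .seq c d => c.Pushes P ∧ d.Pushes P
  | .ite _ c d => c.Pushes P ∧ d.Pushes P
  | .loop _ c => c.Pushes P

theorem Exec.steps {Γ : K → Type} (enc : ∀ k, Γ k → ℕ) (dec : ∀ k, ℕ → Γ k)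
    {Λ : Type} (M : Λ → TM2.Stmt Γ Λ σ)
    {c : Cmd K σ} {v v' : σ} {S S' : K → List ℕ} {t : ℕ} (h : Exec c v S v' S' t) :
    ∀ (emb : c.Lab → Λ) (next : Λ) (_ : ∀ l, M (emb l) = c.comp enc dec emb next l)
      (_ : c.Pushes (fun k n => enc k (dec k n) = n))
      (s : ∀ k, List (Γ k)) (_ : Repr enc s S),
      ∃ s', Repr enc s' S' ∧ Steps M ⟨some (emb c.entry), v, s⟩ ⟨some next, v', s'⟩ t := by
  induction h with
  | push k f v S =>
    intro emb next hM hP s hs
    refine ⟨update s k (dec k (f v) :: s k), ?_, ?_⟩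
    · intro k'
      by_cases hk : k' = k
      · subst hk
        simp only [update_self, List.map_cons]
        rw [hP v, hs k']
      · rw [update_of_ne hk, update_of_ne hk]
        exact hs k'
    · refine Steps.step ?_ (Steps.refl _)
      have := hM ()
      simp only [TM2.step]
      rw [show emb (Cmd.entry (.push k f)) = emb () from rfl, this]
      simp [Cmd.comp, TM2.stepAux]
  | pop k f v S =>
    intro emb next hM hP s hs
    refine ⟨update s k (s k).tail, ?_, ?_⟩
    · intro k'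
      by_cases hk : k' = k
      · subst hk
        simp only [update_self]
        rw [List.map_tail, hs k']
      · rw [update_of_ne hk, update_of_ne hk]
        exact hs k'
    · refine Steps.step ?_ (Steps.refl _)
      have := hM ()
      simp only [TM2.step]
      rw [show emb (Cmd.entry (.pop k f)) = emb () from rfl, this]
      have h2 : (s k).head?.map (enc k) = (S k).head? := by
        rw [← hs k, List.head?_map]
      simp [Cmd.comp, TM2.stepAux, h2]
  | load f v S =>
    intro emb next hM hP s hs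
    refine ⟨s, hs, ?_⟩
    refine Steps.step ?_ (Steps.refl _)
    have := hM ()
    simp only [TM2.step]
    rw [show emb (Cmd.entry (.load f)) = emb () from rfl, this]
    simp [Cmd.comp, TM2.stepAux]
  | @seq c d v v₁ v₂ S S₁ S₂ t₁ t₂ h₁ h₂ ih₁ ih₂ =>
    intro emb next hM hP s hs
    obtain ⟨s₁, hs₁, hst₁⟩ := ih₁ (fun l => emb (Sum.inl l)) (emb (Sum.inr d.entry))
      (fun l => hM (Sum.inl l)) hP.1 s hs
    obtain ⟨s₂, hs₂, hst₂⟩ := ih₂ (fun l => emb (Sum.inr l)) next
      (fun l => hM (Sum.inr l)) hP.2 s₁ hs₁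
    exact ⟨s₂, hs₂, hst₁.trans hst₂⟩
  | @iteTrue p c d v v₁ S S₁ t hp h ih =>
    intro emb next hM hP s hs
    obtain ⟨s₁, hs₁, hst₁⟩ := ih (fun l => emb (some (Sum.inl l))) next
      (fun l => hM (some (Sum.inl l))) hP.1 s hs
    refine ⟨s₁, hs₁, Steps.step ?_ hst₁⟩
    have := hM none
    simp only [TM2.step]
    rw [show emb (Cmd.entry (.ite p c d)) = emb none from rfl, this]
    simp [Cmd.comp, TM2.stepAux, hp]
  | @iteFalse p c d v v₁ S S₁ t hp h ih =>
    intro emb next hM hP s hs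
    obtain ⟨s₁, hs₁, hst₁⟩ := ih (fun l => emb (some (Sum.inr l))) next
      (fun l => hM (some (Sum.inr l))) hP.2 s hs
    refine ⟨s₁, hs₁, Steps.step ?_ hst₁⟩
    have := hM none
    simp only [TM2.step]
    rw [show emb (Cmd.entry (.ite p c d)) = emb none from rfl, this]
    simp [Cmd.comp, TM2.stepAux, hp]
  | @loopFalse p c v S hp =>
    intro emb next hM hP s hs
    refine ⟨s, hs, Steps.step ?_ (Steps.refl _)⟩
    have := hM none
    simp only [TM2.step]
    rw [show emb (Cmd.entry (.loop p c)) = emb none from rfl, this]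
    simp [Cmd.comp, TM2.stepAux, hp]
  | @loopTrue p c v v₁ v₂ S S₁ S₂ t₁ t₂ hp h₁ h₂ ih₁ ih₂ =>
    intro emb next hM hP s hs
    obtain ⟨s₁, hs₁, hst₁⟩ := ih₁ (fun l => emb (some l)) (emb none)
      (fun l => hM (some l)) hP s hs
    obtain ⟨s₂, hs₂, hst₂⟩ := ih₂ emb next hM hP s₁ hs₁
    refine ⟨s₂, hs₂, Steps.step ?_ (hst₁.trans hst₂)⟩
    have := hM none
    simp only [TM2.step]
    rw [show emb (Cmd.entry (.loop p c)) = emb none from rfl, this]
    simp [Cmd.comp, TM2.stepAux, hp]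

end Pool.Agent.Lib.PolyTime
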