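import Mathlib
import Pool.Agent.Lib.PolyTime.Cmd

/-!
# Polynomial-time list functions, via structured stack programs

`IsPoly X ea F` says that some structured program, given the list `ea a` (for `a` with `X a`) on
its input stack, adds `F a` to its output stack, in time polynomial in the length of `ea a`.
-/

namespace Pool.Agent.Lib.PolyTime

open Function Encodable

/-- A lens: a component `τ` of the state `σ`. -/
structure Lens (σ τ : Type) where
  get : σ → τ
  put : τ → σ → σ
  get_put : ∀ t s, get (put t s) = t
  put_get : ∀ s, put (get s) s = s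
  put_put : ∀ t t' s, put t (put t' s) = put t s

namespace Lens

variable {σ τ τ₁ τ₂ : Type}

attribute [simp] get_put put_get put_put

theorem put_eq (L : Lens σ τ) {s : σ} {t : τ} (h : L.get s = t) : L.put t s = s := by
  subst h
  exact L.put_get s

/-- First component of a lens onto a product. -/
def fst (L : Lens σ (τ₁ × τ₂)) : Lens σ τ₁ where
  get s := (L.get s).1
  put t s := L.put (t, (L.get s).2) s
  get_put := by simp
  put_get := by simp
  put_put := by simp

/-- Second component of a lens onto a product. -/
def snd (L : Lens σ (τ₁ × τ₂)) : Lens σ τ₂ where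
  get s := (L.get s).2
  put t s := L.put ((L.get s).1, t) s
  get_put := by simp
  put_get := by simp
  put_put := by simp

@[simp] theorem fst_get_snd_put (L : Lens σ (τ₁ × τ₂)) (t : τ₂) (s : σ) :
    L.fst.get (L.snd.put t s) = L.fst.get s := by simp [fst, snd]

@[simp] theorem snd_get_fst_put (L : Lens σ (τ₁ × τ₂)) (t : τ₁) (s : σ) :
    L.snd.get (L.fst.put t s) = L.snd.get s := by simp [fst, snd]

theorem fst_put_snd_put (L : Lens σ (τ₁ × τ₂)) (t₁ : τ₁) (t₂ : τ₂) (s : σ) :
    L.fst.put t₁ (L.snd.put t₂ s) = L.snd.put t₂ (L.fst.put t₁ s) := by simp [fst, snd]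

theorem fst_get_of (L : Lens σ (τ₁ × τ₂)) {s : σ} {t : τ₁ × τ₂} (h : L.get s = t) :
    L.fst.get s = t.1 := by simp [fst, h]

theorem snd_get_of (L : Lens σ (τ₁ × τ₂)) {s : σ} {t : τ₁ × τ₂} (h : L.get s = t) :
    L.snd.get s = t.2 := by simp [snd, h]

end Lens

section Loops

variable {K σ : Type} [DecidableEq K]

/-- Pop a symbol into a register. -/
def popTo {A : Type} [Encodable A] (R : Lens σ (Option A)) (k : K) : Cmd K σ :=
  .pop k (fun o v => R.put (o.bind decode) v)

theorem runs_popTo_cons {A : Type} [Encodable A] (R : Lens σ (Option A)) {k : K} {v : σ}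
    {S : K → List ℕ} {a : A} {l : List ℕ} (h : S k = encode a :: l) :
    Runs (popTo R k) v S (R.put (some a) v) (update S k l) 1 := by
  have := Runs.pop k (fun o v => R.put (o.bind decode) v) v S
  rw [h] at this
  simp only [List.head?_cons, Option.bind_some, encodek, List.tail_cons] at this
  exact this

theorem runs_popTo_nil {A : Type} [Encodable A] (R : Lens σ (Option A)) {k : K} {v : σ}
    {S : K → List ℕ} (h : S k = []) :
    Runs (popTo R k) v S (R.put none v) S 1 := by
  have := Runs.pop k (fun o v => R.put (o.bind decode) v) v S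
  rw [h] at this
  simp only [List.head?_nil, Option.bind_none, List.tail_nil] at this
  rwa [← h, update_eq_self] at this

/-- Run `body` for every symbol of stack `k`, popping the symbols into the register `R`. -/
def each {A : Type} [Encodable A] (R : Lens σ (Option A)) (k : K) (body : Cmd K σ) : Cmd K σ :=
  .seq (popTo R k) (.loop (fun v => (R.get v).isSome) (.seq body (popTo R k)))

theorem runs_each {A : Type} [Encodable A] (R : Lens σ (Option A)) (k : K) (body : Cmd K σ)
    (Tb : ℕ) (P : List A → σ → (K → List ℕ) → Prop)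
    (hk : ∀ l v S, P l v S → S k = l.map encode)
    (hbody : ∀ a l v S, P (a :: l) v S → ∃ v' S',
      Runs body (R.put (some a) v) (update S k (l.map encode)) v' S' Tb ∧ P l v' S')
    (l : List A) (v : σ) (S : K → List ℕ) (h : P l v S) :
    ∃ v' S', Runs (each R k body) v S (R.put none v') S' ((Tb + 2) * l.length + 2) ∧
      P [] v' S' := by
  have key : ∀ (l : List A) (v : σ) (S : K → List ℕ), P l v S →
      ∃ v₁ S₁ v' S', Runs (popTo R k) v S v₁ S₁ 1 ∧
        Runs (.loop (fun v => (R.get v).isSome) (.seq body (popTo R k))) v₁ S₁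
          (R.put none v') S' ((Tb + 2) * l.length + 1) ∧ P [] v' S' := by
    intro l
    induction l with
    | nil =>
      intro v S hP
      refine ⟨R.put none v, S, v, S, runs_popTo_nil R (by simpa using hk _ _ _ hP), ?_, hP⟩
      exact (Runs.loopFalse (by simp)).mono (by omega)
    | cons a l ih =>
      intro v S hP
      obtain ⟨v', S', hrun, hP'⟩ := hbody a l v S hP
      obtain ⟨v₁, S₁, v₂, S₂, h1, h2, h3⟩ := ih v' S' hP'
      refine ⟨R.put (some a) v, update S k (l.map encode), v₂, S₂, ?_, ?_, h3⟩
      · exact runs_popTo_cons R (by simpa using hk _ _ _ hP)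
      · refine (Runs.loopTrue (by simp) (hrun.seq h1) h2).mono ?_
        simp only [List.length_cons]
        ring_nf
        omega
  obtain ⟨v₁, S₁, v', S', h1, h2, h3⟩ := key l v S h
  exact ⟨v', S', (h1.seq h2).mono (by omega), h3⟩

/-- The code pushed by `mv`. -/
def regCode {A : Type} [Encodable A] : Option A → ℕ
  | none => 0
  | some a => encode a

/-- Move all symbols from `k₁` to `k₂`, reversing their order. -/
def mv2 {A : Type} [Encodable A] (R : Lens σ (Option A)) (k₁ k₂ : K) : Cmd K σ :=
  each R k₁ (.push k₂ (fun v => regCode (R.get v)))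

theorem runs_mv2 {A : Type} [Encodable A] (R : Lens σ (Option A)) {k₁ k₂ : K} (hk : k₁ ≠ k₂)
    {v : σ} {S : K → List ℕ} {l : List A} (hv : R.get v = none) (h : S k₁ = l.map encode) :
    Runs (mv2 R k₁ k₂) v S v (update (update S k₁ []) k₂ (l.reverse.map encode ++ S k₂))
      (3 * l.length + 2) := by
  obtain ⟨v', S', h1, h2⟩ := runs_each R k₁ (.push k₂ (fun v => regCode (R.get v))) 1
    (fun r w T => ∃ d, l = d ++ r ∧ R.put none w = v ∧
      T = update (update S k₁ (r.map encode)) k₂ (d.reverse.map encode ++ S k₂))
    (by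
      rintro r w T ⟨d, -, -, rfl⟩
      rw [update_of_ne hk, update_self])
    (by
      rintro a r w T ⟨d, hd, hw, rfl⟩
      refine ⟨_, _, Runs.push _ _ _ _, d ++ [a], by simp [hd], by simp [hw], ?_⟩
      funext k
      by_cases e2 : k = k₂
      · subst e2
        simp [regCode, update_of_ne hk.symm]
      · by_cases e1 : k = k₁
        · subst e1
          simp [update_of_ne hk]
        · simp [update_of_ne e1, update_of_ne e2])
    l v S ⟨[], by simp, R.put_eq hv, by
      simp only [List.reverse_nil, List.map_nil, List.nil_append]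
      rw [← h, update_eq_self, update_eq_self]⟩
  obtain ⟨d, hd, hw, rfl⟩ := h2
  rw [hw] at h1
  rw [List.append_nil] at hd
  subst hd
  exact h1

/-- Move all symbols from `k₁` to `k₂`, reversing their order, and push `g a` to `k₃` for each of
them. -/
def mv3 {A B : Type} [Encodable A] [Encodable B] (R : Lens σ (Option A)) (g : A → B)
    (k₁ k₂ k₃ : K) : Cmd K σ :=
  each R k₁ (.seq (.push k₂ (fun v => regCode (R.get v)))
    (.push k₃ (fun v => regCode ((R.get v).map g))))

theorem runs_mv3 {A B : Type} [Encodable A] [Encodable B] (R : Lens σ (Option A)) (g : A → B)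
    {k₁ k₂ k₃ : K} (hk : k₁ ≠ k₂) (hk' : k₁ ≠ k₃) (hk'' : k₂ ≠ k₃)
    {v : σ} {S : K → List ℕ} {l : List A} (hv : R.get v = none) (h : S k₁ = l.map encode) :
    Runs (mv3 R g k₁ k₂ k₃) v S v
      (update (update (update S k₁ []) k₂ (l.reverse.map encode ++ S k₂)) k₃
        ((l.reverse.map g).map encode ++ S k₃)) (4 * l.length + 2) := by
  obtain ⟨v', S', h1, h2⟩ := runs_each R k₁ (.seq (.push k₂ (fun v => regCode (R.get v)))
    (.push k₃ (fun v => regCode ((R.get v).map g)))) 2
    (fun r w T => ∃ d, l = d ++ r ∧ R.put none w = v ∧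
      T = update (update (update S k₁ (r.map encode)) k₂ (d.reverse.map encode ++ S k₂)) k₃
        ((d.reverse.map g).map encode ++ S k₃))
    (by
      rintro r w T ⟨d, -, -, rfl⟩
      rw [update_of_ne hk', update_of_ne hk, update_self])
    (by
      rintro a r w T ⟨d, hd, hw, rfl⟩
      refine ⟨_, _, (Runs.push _ _ _ _).seq (Runs.push _ _ _ _), d ++ [a], by simp [hd],
        by simp [hw], ?_⟩
      funext k
      by_cases e3 : k = k₃
      · subst e3
        simp [regCode, update_of_ne hk''.symm, update_of_ne hk'.symm]
      · by_cases e2 : k = k₂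
        · subst e2
          simp [regCode, update_of_ne hk'', update_of_ne hk.symm]
        · by_cases e1 : k = k₁
          · subst e1
            simp [update_of_ne hk, update_of_ne hk']
          · simp [update_of_ne e1, update_of_ne e2, update_of_ne e3])
    l v S ⟨[], by simp, R.put_eq hv, by
      simp only [List.reverse_nil, List.map_nil, List.nil_append]
      rw [← h, update_eq_self, update_eq_self, update_eq_self]⟩
  obtain ⟨d, hd, hw, rfl⟩ := h2
  rw [hw] at h1
  rw [List.append_nil] at hd
  subst hd
  exact h1

/-- Empty the stack `k`. -/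
def clear {A : Type} [Encodable A] (R : Lens σ (Option A)) (k : K) : Cmd K σ :=
  each R k (.load id)

theorem runs_clear {A : Type} [Encodable A] (R : Lens σ (Option A)) {k : K}
    {v : σ} {S : K → List ℕ} {l : List A} (hv : R.get v = none) (h : S k = l.map encode) :
    Runs (clear R k) v S v (update S k []) (3 * l.length + 2) := by
  obtain ⟨v', S', h1, h2⟩ := runs_each R k (.load id) 1
    (fun r w T => R.put none w = v ∧ T = update S k (r.map encode))
    (by
      rintro r w T ⟨-, rfl⟩
      rw [update_self])
    (by
      rintro a r w T ⟨hw, rfl⟩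
      exact ⟨_, _, Runs.load _ _ _, by simp [hw], by simp⟩)
    l v S ⟨R.put_eq hv, by rw [← h, update_eq_self]⟩
  obtain ⟨hw, rfl⟩ := h2
  rw [hw] at h1
  exact h1

/-- Move all symbols from `k₁` to `k₂`, running a finite automaton. -/
def scan {A Q : Type} [Encodable A] (L : Lens σ (Option A × Q)) (δ : Q → A → Q) (k₁ k₂ : K) :
    Cmd K σ :=
  each L.fst k₁ (.seq (.push k₂ (fun v => regCode (L.fst.get v)))
    (.load (fun v => L.snd.put (match L.fst.get v with
      | some a => δ (L.snd.get v) a
      | none => L.snd.get v) v)))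

theorem runs_scan {A Q : Type} [Encodable A] (L : Lens σ (Option A × Q)) (δ : Q → A → Q)
    {k₁ k₂ : K} (hk : k₁ ≠ k₂)
    {v : σ} {S : K → List ℕ} {l : List A} (hv : L.fst.get v = none) (h : S k₁ = l.map encode) :
    Runs (scan L δ k₁ k₂) v S (L.snd.put (l.foldl δ (L.snd.get v)) v)
      (update (update S k₁ []) k₂ (l.reverse.map encode ++ S k₂)) (4 * l.length + 2) := by
  obtain ⟨v', S', h1, h2⟩ := runs_each L.fst k₁ (.seq (.push k₂ (fun v => regCode (L.fst.get v)))
    (.load (fun v => L.snd.put (match L.fst.get v with
      | some a => δ (L.snd.get v) a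
      | none => L.snd.get v) v))) 2
    (fun r w T => ∃ d, l = d ++ r ∧ L.fst.put none w = L.snd.put (d.foldl δ (L.snd.get v)) v ∧
      T = update (update S k₁ (r.map encode)) k₂ (d.reverse.map encode ++ S k₂))
    (by
      rintro r w T ⟨d, -, -, rfl⟩
      rw [update_of_ne hk, update_self])
    (by
      rintro a r w T ⟨d, hd, hw, rfl⟩
      have hq : L.snd.get w = d.foldl δ (L.snd.get v) := by
        have := congrArg L.snd.get hw
        simpa using this
      refine ⟨_, _, (Runs.push _ _ _ _).seq (Runs.load _ _ _), d ++ [a], by simp [hd], ?_, ?_⟩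
      · rw [L.fst_put_snd_put]
        simp only [Lens.get_put, Lens.snd_get_fst_put, Lens.put_put, hw, hq]
        simp
      · funext k
        by_cases e2 : k = k₂
        · subst e2
          simp [regCode, update_of_ne hk.symm]
        · by_cases e1 : k = k₁
          · subst e1
            simp [update_of_ne hk]
          · simp [update_of_ne e1, update_of_ne e2])
    l v S ⟨[], by simp, by simp [L.fst.put_eq hv], by
      simp only [List.reverse_nil, List.map_nil, List.nil_append]
      rw [← h, update_eq_self, update_eq_self]⟩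
  obtain ⟨d, hd, hw, rfl⟩ := h2
  rw [hw] at h1
  rw [List.append_nil] at hd
  subst hd
  exact h1

end Loops

end Pool.Agent.Lib.PolyTime
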