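import Mathlib
import Pool.Agent.Lib.PolyTime.IsPoly

/-!
# Closure properties of polynomial-time list functions
-/

namespace Pool.Agent.Lib.PolyTime

open Function Encodable

/-- All pushes of a program go to stacks satisfying `P`. -/
def Cmd.Only {K σ : Type} (P : K → Prop) : Cmd K σ → Prop
  | .push k _ => P k
  | .pop _ _ => True
  | .load _ => True
  | .seq c d => c.Only P ∧ d.Only P
  | .ite _ c d => c.Only P ∧ d.Only P
  | .loop _ c => c.Only P

theorem Cmd.Only.mono {K σ : Type} {P Q : K → Prop} (hPQ : ∀ k, P k → Q k) {c : Cmd K σ}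
    (h : c.Only P) : c.Only Q := by
  induction c with
  | push k f => exact hPQ _ h
  | pop k f => trivial
  | load f => trivial
  | seq c d ihc ihd => exact ⟨ihc h.1, ihd h.2⟩
  | ite p c d ihc ihd => exact ⟨ihc h.1, ihd h.2⟩
  | loop p c ih => exact ih h

theorem Cmd.Only.pushes {K σ : Type} {P : K → Prop} {R : K → ℕ → Prop}
    (hPR : ∀ k, P k → ∀ n, R k n) {c : Cmd K σ} (h : c.Only P) : c.Pushes R := by
  induction c with
  | push k f => exact fun v => hPR _ h _
  | pop k f => trivial
  | load f => trivial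
  | seq c d ihc ihd => exact ⟨ihc h.1, ihd h.2⟩
  | ite p c d ihc ihd => exact ⟨ihc h.1, ihd h.2⟩
  | loop p c ih => exact ih h

theorem eval_mono (p : Polynomial ℕ) {m n : ℕ} (h : m ≤ n) : p.eval m ≤ p.eval n := by
  rw [Polynomial.eval_eq_sum_range, Polynomial.eval_eq_sum_range]
  exact Finset.sum_le_sum (fun i _ => Nat.mul_le_mul_left _ (Nat.pow_le_pow_left h i))

/-- The function `F`, on the inputs `a` with `X a` given as the list `ea a`, is computed by a
structured stack program in polynomial time. -/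
def IsPoly {α A B : Type} [Encodable A] [Encodable B] (X : α → Prop) (ea : α → List A)
    (F : α → List B) : Prop :=
  ∃ (ι τ : Type) (_ : Fintype ι) (_ : Fintype τ) (τ₀ : τ) (p : Polynomial ℕ),
    (∀ a, X a → (F a).length ≤ p.eval (ea a).length) ∧
    ∀ (K σ : Type) [DecidableEq K] (inp out : K) (loc : ι → K) (L : Lens σ τ),
      inp ≠ out → Injective loc → (∀ i, loc i ≠ inp) → (∀ i, loc i ≠ out) →
      ∃ c : Cmd K σ, c.Only (fun k => k = inp ∨ k = out ∨ ∃ i, k = loc i) ∧
        ∀ a, X a → ∀ v S, L.get v = τ₀ → S inp = (ea a).map encode → (∀ i, S (loc i) = []) →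
        Runs c v S v (update S out ((F a).map encode ++ S out)) (p.eval (ea a).length)

section

variable {α A B : Type} [Encodable A] [Encodable B] {X Y : α → Prop} {ea : α → List A}
  {F G : α → List B}

theorem IsPoly.mono (h : IsPoly X ea F) (hXY : ∀ a, Y a → X a) : IsPoly Y ea F := by
  obtain ⟨ι, τ, hι, hτ, τ₀, p, hlen, h⟩ := h
  refine ⟨ι, τ, hι, hτ, τ₀, p, fun a ha => hlen a (hXY a ha), ?_⟩
  intro K σ _ inp out loc L h1 h2 h3 h4
  obtain ⟨c, hc, hrun⟩ := h K σ inp out loc L h1 h2 h3 h4
  exact ⟨c, hc, fun a ha => hrun a (hXY a ha)⟩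

theorem IsPoly.congr (h : IsPoly X ea F) (hFG : ∀ a, X a → F a = G a) : IsPoly X ea G := by
  obtain ⟨ι, τ, hι, hτ, τ₀, p, hlen, h⟩ := h
  refine ⟨ι, τ, hι, hτ, τ₀, p, fun a ha => by rw [← hFG a ha]; exact hlen a ha, ?_⟩
  intro K σ _ inp out loc L h1 h2 h3 h4
  obtain ⟨c, hc, hrun⟩ := h K σ inp out loc L h1 h2 h3 h4
  exact ⟨c, hc, fun a ha => by rw [← hFG a ha]; exact hrun a ha⟩

theorem IsPoly.congr_in {ea' : α → List A} (h : IsPoly X ea F) (he : ∀ a, X a → ea a = ea' a) :
    IsPoly X ea' F := by
  obtain ⟨ι, τ, hι, hτ, τ₀, p, hlen, h⟩ := h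
  refine ⟨ι, τ, hι, hτ, τ₀, p, fun a ha => by rw [← he a ha]; exact hlen a ha, ?_⟩
  intro K σ _ inp out loc L h1 h2 h3 h4
  obtain ⟨c, hc, hrun⟩ := h K σ inp out loc L h1 h2 h3 h4
  exact ⟨c, hc, fun a ha => by rw [← he a ha]; exact hrun a ha⟩

/-- Change of the index type. -/
theorem IsPoly.precomp {β : Type} {Z : β → Prop} (h : IsPoly X ea F) (φ : β → α)
    (hφ : ∀ b, Z b → X (φ b)) : IsPoly Z (fun b => ea (φ b)) (fun b => F (φ b)) := by
  obtain ⟨ι, τ, hι, hτ, τ₀, p, hlen, h⟩ := h
  refine ⟨ι, τ, hι, hτ, τ₀, p, fun b hb => hlen _ (hφ b hb), ?_⟩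
  intro K σ _ inp out loc L h1 h2 h3 h4
  obtain ⟨c, hc, hrun⟩ := h K σ inp out loc L h1 h2 h3 h4
  exact ⟨c, hc, fun b hb => hrun _ (hφ b hb)⟩

/-- The program pushing a fixed list. -/
def pushList {K σ : Type} (out : K) : List B → Cmd K σ
  | [] => .load id
  | b :: l => .seq (pushList out l) (.push out (fun _ => encode b))

theorem runs_pushList {K σ : Type} [DecidableEq K] (out : K) (l : List B) (v : σ)
    (S : K → List ℕ) :
    Runs (pushList out l) v S v (update S out (l.map encode ++ S out)) (l.length + 1) := by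
  induction l with
  | nil =>
    refine (Runs.load id v S).of_eq rfl ?_
    simp
  | cons b l ih =>
    refine (ih.seq (Runs.push out (fun _ => encode b) v _)).of_eq rfl ?_
    simp

theorem only_pushList {K σ : Type} (out : K) (l : List B) (P : K → Prop) (h : P out) :
    (pushList out l : Cmd K σ).Only P := by
  induction l with
  | nil => trivial
  | cons b l ih => exact ⟨ih, h⟩

variable (X ea) in
/-- Constant functions. -/
theorem IsPoly.const (l : List B) : IsPoly X ea (fun _ => l) := by
  refine ⟨Empty, Unit, inferInstance, inferInstance, (), Polynomial.C (l.length + 1), ?_, ?_⟩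
  · intro a _
    simp
  · intro K σ _ inp out loc L h1 h2 h3 h4
    refine ⟨pushList out l, only_pushList _ _ _ (Or.inr (Or.inl rfl)), ?_⟩
    intro a _ v S _ _ _
    rw [Polynomial.eval_C]
    exact runs_pushList out l v S

/-- Concatenation of the outputs. -/
theorem IsPoly.append (hF : IsPoly X ea F) (hG : IsPoly X ea G) :
    IsPoly X ea (fun a => F a ++ G a) := by
  obtain ⟨ι, τ, hι, hτ, τ₀, p, hlen, h⟩ := hF
  obtain ⟨ι', τ', hι', hτ', τ₀', p', hlen', h'⟩ := hG
  refine ⟨ι ⊕ ι', τ × τ', inferInstance, inferInstance, (τ₀, τ₀'), p + p', ?_, ?_⟩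
  · intro a ha
    rw [List.length_append, Polynomial.eval_add]
    exact Nat.add_le_add (hlen a ha) (hlen' a ha)
  · intro K σ _ inp out loc L h1 h2 h3 h4
    obtain ⟨c, hc, hrun⟩ := h K σ inp out (fun i => loc (Sum.inl i)) L.fst h1
      (h2.comp Sum.inl_injective) (fun i => h3 _) (fun i => h4 _)
    obtain ⟨d, hd, hrun'⟩ := h' K σ inp out (fun i => loc (Sum.inr i)) L.snd h1
      (h2.comp Sum.inr_injective) (fun i => h3 _) (fun i => h4 _)
    refine ⟨.seq d c, ⟨hd.mono ?_, hc.mono ?_⟩, ?_⟩
    · rintro k (h | h | ⟨i, h⟩)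
      · exact Or.inl h
      · exact Or.inr (Or.inl h)
      · exact Or.inr (Or.inr ⟨_, h⟩)
    · rintro k (h | h | ⟨i, h⟩)
      · exact Or.inl h
      · exact Or.inr (Or.inl h)
      · exact Or.inr (Or.inr ⟨_, h⟩)
    · intro a ha v S hv hinp hloc
      have r1 := hrun' a ha v S (L.snd_get_of hv) hinp (fun i => hloc _)
      have r2 := hrun a ha v (update S out ((G a).map encode ++ S out)) (L.fst_get_of hv)
        (by rw [update_of_ne h1]; exact hinp)
        (fun i => by rw [update_of_ne (h4 _)]; exact hloc _)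
      refine ((r1.seq r2).of_eq rfl ?_).mono ?_
      · simp
      · rw [Polynomial.eval_add]
        omega

/-- Conditional on a regular condition. -/
theorem IsPoly.ite {Q : Type} [Fintype Q] [Fintype A] (δ : Q → A → Q) (q₀ : Q) (acc : Q → Bool)
    (P : α → Prop) [DecidablePred P]
    (hP : ∀ a, X a → (acc ((ea a).foldl δ q₀) = true ↔ P a))
    (hF : IsPoly (fun a => X a ∧ P a) ea F) (hG : IsPoly (fun a => X a ∧ ¬ P a) ea G) :
    IsPoly X ea (fun a => if P a then F a else G a) := by
  obtain ⟨ι, τ, hι, hτ, τ₀, p, hlen, h⟩ := hF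
  obtain ⟨ι', τ', hι', hτ', τ₀', p', hlen', h'⟩ := hG
  refine ⟨(ι ⊕ ι') ⊕ Unit, (Option A × Q) × (τ × τ'), inferInstance, inferInstance,
    ((none, q₀), (τ₀, τ₀')), p + p' + (7 * Polynomial.X + 7), ?_, ?_⟩
  · intro a ha
    simp only [Polynomial.eval_add]
    split_ifs with hPa
    · have := hlen a ⟨ha, hPa⟩
      omega
    · have := hlen' a ⟨ha, hPa⟩
      omega
  · intro K σ _ inp out loc L h1 h2 h3 h4
    obtain ⟨c, hc, hrun⟩ := h K σ inp out (fun i => loc (Sum.inl (Sum.inl i))) L.snd.fst h1
      (h2.comp (Sum.inl_injective.comp Sum.inl_injective)) (fun i => h3 _) (fun i => h4 _)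
    obtain ⟨d, hd, hrun'⟩ := h' K σ inp out (fun i => loc (Sum.inl (Sum.inr i))) L.snd.snd h1
      (h2.comp (Sum.inl_injective.comp Sum.inr_injective)) (fun i => h3 _) (fun i => h4 _)
    set tmp : K := loc (Sum.inr ()) with htmp
    have htmpinp : tmp ≠ inp := h3 _
    have htmpout : tmp ≠ out := h4 _
    refine ⟨.seq (scan L.fst δ inp tmp) (.seq (mv2 L.fst.fst tmp inp)
      (.ite (fun v => acc (L.fst.snd.get v))
        (.seq (.load (fun v => L.fst.snd.put q₀ v)) c)
        (.seq (.load (fun v => L.fst.snd.put q₀ v)) d))), ?_, ?_⟩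
    · refine ⟨?_, ?_, ⟨trivial, hc.mono ?_⟩, ⟨trivial, hd.mono ?_⟩⟩
      · exact ⟨trivial, ⟨Or.inr (Or.inr ⟨_, htmp⟩), trivial⟩, trivial⟩
      · exact ⟨trivial, Or.inl rfl, trivial⟩
      · rintro k (h | h | ⟨i, h⟩)
        · exact Or.inl h
        · exact Or.inr (Or.inl h)
        · exact Or.inr (Or.inr ⟨_, h⟩)
      · rintro k (h | h | ⟨i, h⟩)
        · exact Or.inl h
        · exact Or.inr (Or.inl h)
        · exact Or.inr (Or.inr ⟨_, h⟩)
    · intro a ha v S hv hinp hloc
      have hv1 : L.fst.get v = (none, q₀) := L.fst_get_of hv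
      have hv2 : L.snd.get v = (τ₀, τ₀') := L.snd_get_of hv
      have r1 := runs_scan L.fst δ (k₁ := inp) (k₂ := tmp) htmpinp.symm (v := v) (S := S)
        (l := ea a) (L.fst.fst_get_of hv1) hinp
      rw [L.fst.snd_get_of hv1] at r1
      dsimp only at r1
      set q := (ea a).foldl δ q₀ with hq
      set v1 := L.fst.snd.put q v with hv1def
      have r2 := runs_mv2 L.fst.fst (k₁ := tmp) (k₂ := inp) htmpinp (v := v1)
        (S := update (update S inp []) tmp ((ea a).reverse.map encode ++ S tmp))
        (l := (ea a).reverse) (by simp [hv1def, L.fst.fst_get_of hv1])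
        (by rw [update_self, htmp, hloc, List.append_nil])
      have hS : update (update (update (update S inp []) tmp
          ((ea a).reverse.map encode ++ S tmp)) tmp []) inp
          ((ea a).reverse.reverse.map encode ++ (update (update S inp []) tmp
          ((ea a).reverse.map encode ++ S tmp)) inp) = S := by
        funext k
        by_cases e1 : k = inp
        · subst e1
          simp [update_of_ne htmpinp.symm, hinp]
        · by_cases e2 : k = tmp
          · subst e2
            rw [update_of_ne e1, update_self, htmp, hloc]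
          · simp [update_of_ne e1, update_of_ne e2]
      rw [hS] at r2
      have hacc : acc (L.fst.snd.get v1) = acc q := by simp [hv1def]
      have hreset : L.fst.snd.put q₀ v1 = v := by
        rw [hv1def, Lens.put_put]
        exact L.fst.snd.put_eq (L.fst.snd_get_of hv1)
      have hloadrun := Runs.load (fun v => L.fst.snd.put q₀ v) v1 S
      rw [hreset] at hloadrun
      by_cases hPa : P a
      · have hq' : acc q = true := (hP a ha).2 hPa
        have r3 := hrun a ⟨ha, hPa⟩ v S (L.snd.fst_get_of hv2) hinp (fun i => hloc _)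
        have r4 := Runs.iteTrue (d := .seq (.load (fun v => L.fst.snd.put q₀ v)) d)
          (p := fun v => acc (L.fst.snd.get v)) (hacc.trans hq') (hloadrun.seq r3)
        refine ((r1.seq (r2.seq r4)).of_eq rfl (by simp [hPa])).mono ?_
        simp only [Polynomial.eval_add, Polynomial.eval_mul, Polynomial.eval_X,
          Polynomial.eval_ofNat, List.length_reverse]
        omega
      · have hq' : acc q = false := by
          rw [Bool.eq_false_iff]
          exact fun h => hPa ((hP a ha).1 h)
        have r3 := hrun' a ⟨ha, hPa⟩ v S (L.snd.snd_get_of hv2) hinp (fun i => hloc _)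
        have r4 := Runs.iteFalse (c := .seq (.load (fun v => L.fst.snd.put q₀ v)) c)
          (p := fun v => acc (L.fst.snd.get v)) (hacc.trans hq') (hloadrun.seq r3)
        refine ((r1.seq (r2.seq r4)).of_eq rfl (by simp [hPa])).mono ?_
        simp only [Polynomial.eval_add, Polynomial.eval_mul, Polynomial.eval_X,
          Polynomial.eval_ofNat, List.length_reverse]
        omega

/-- Composition. -/
theorem IsPoly.comp {β M : Type} [Encodable M] [Fintype M] {Z : β → Prop} {eb : β → List M}
    {H : β → List B} (hH : IsPoly Z eb H) {φ : α → β}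
    (hφ : IsPoly X ea (fun a => eb (φ a))) (hX : ∀ a, X a → Z (φ a)) :
    IsPoly X ea (fun a => H (φ a)) := by
  obtain ⟨ι, τ, hι, hτ, τ₀, p, hlen, h⟩ := hφ
  obtain ⟨ι', τ', hι', hτ', τ₀', p', hlen', h'⟩ := hH
  refine ⟨(ι ⊕ ι') ⊕ Unit, Option M × (τ × τ'), inferInstance, inferInstance,
    (none, (τ₀, τ₀')), p + p'.comp p + (3 * p + 2), ?_, ?_⟩
  · intro a ha
    simp only [Polynomial.eval_add, Polynomial.eval_comp]
    have h1 := hlen' (φ a) (hX a ha)
    have h2 := eval_mono p' (hlen a ha)
    dsimp only at h2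
    omega
  · intro K σ _ inp out loc L h1 h2 h3 h4
    set mid : K := loc (Sum.inr ()) with hmid
    have hmidinp : mid ≠ inp := h3 _
    have hmidout : mid ≠ out := h4 _
    obtain ⟨c, hc, hrun⟩ := h K σ inp mid (fun i => loc (Sum.inl (Sum.inl i))) L.snd.fst
      hmidinp.symm
      (h2.comp (Sum.inl_injective.comp Sum.inl_injective)) (fun i => h3 _)
      (fun i => h2.ne (by simp))
    obtain ⟨d, hd, hrun'⟩ := h' K σ mid out (fun i => loc (Sum.inl (Sum.inr i))) L.snd.snd
      hmidout (h2.comp (Sum.inl_injective.comp Sum.inr_injective)) (fun i => h2.ne (by simp))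
      (fun i => h4 _)
    refine ⟨.seq c (.seq d (clear L.fst mid)), ⟨hc.mono ?_, hd.mono ?_, ?_⟩, ?_⟩
    · rintro k (h | h | ⟨i, h⟩)
      · exact Or.inl h
      · exact Or.inr (Or.inr ⟨_, h.trans hmid⟩)
      · exact Or.inr (Or.inr ⟨_, h⟩)
    · rintro k (h | h | ⟨i, h⟩)
      · exact Or.inr (Or.inr ⟨_, h.trans hmid⟩)
      · exact Or.inr (Or.inl h)
      · exact Or.inr (Or.inr ⟨_, h⟩)
    · exact ⟨trivial, trivial, trivial⟩
    · intro a ha v S hv hinp hloc
      have hv1 : L.fst.get v = none := L.fst_get_of hv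
      have hv2 : L.snd.get v = (τ₀, τ₀') := L.snd_get_of hv
      have r1 := hrun a ha v S (L.snd.fst_get_of hv2) hinp (fun i => hloc _)
      rw [show S mid = [] from hloc _, List.append_nil] at r1
      set S1 := update S mid ((eb (φ a)).map encode) with hS1
      have r2 := hrun' (φ a) (hX a ha) v S1 (L.snd.snd_get_of hv2) (by simp [hS1])
        (fun i => by rw [hS1, update_of_ne (h2.ne (by simp))]; exact hloc _)
      have r3 := runs_clear L.fst (k := mid) (v := v)
        (S := update S1 out ((H (φ a)).map encode ++ S1 out)) (l := eb (φ a)) hv1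
        (by rw [update_of_ne hmidout, hS1, update_self])
      refine ((r1.seq (r2.seq r3)).of_eq rfl ?_).mono ?_
      · funext k
        by_cases e1 : k = mid
        · subst e1
          rw [update_self, update_of_ne hmidout, hmid, hloc]
        · by_cases e2 : k = out
          · subst e2
            simp [hS1, update_of_ne e1]
          · simp [hS1, update_of_ne e1, update_of_ne e2]
      · have e1 := hlen a ha
        have e2 := eval_mono p' e1
        dsimp only at e1 e2
        simp only [Polynomial.eval_add, Polynomial.eval_comp, Polynomial.eval_mul,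
          Polynomial.eval_ofNat]
        omega

end

end Pool.Agent.Lib.PolyTime
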