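import Mathlib
import Pool.Agent.Lib.PolyTime.Closure

/-!
# Loops over the positions of the input
-/

namespace Pool.Agent.Lib.PolyTime

open Function Encodable

/-- The list `x` with position `i` marked. -/
def mark {A A' : Type} (m : A → Bool → A') (x : List A) (i : ℕ) : List A' :=
  x.mapIdx (fun j a => m a (decide (j = i)))

@[simp] theorem length_mark {A A' : Type} (m : A → Bool → A') (x : List A) (i : ℕ) :
    (mark m x i).length = x.length := by simp [mark]

theorem mark_append {A A' : Type} (m : A → Bool → A') (p : List A) (a : A) (r : List A) :
    mark m (p ++ a :: r) p.length =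
      p.map (fun b => m b false) ++ m a true :: r.map (fun b => m b false) := by
  rw [mark, List.mapIdx_append, List.mapIdx_cons]
  congr 1
  · apply List.ext_getElem
    · simp
    · intro i h1 h2
      simp only [List.length_mapIdx] at h1
      simp [Nat.ne_of_lt h1]
  · congr 1
    · simp
    · apply List.ext_getElem
      · simp
      · intro i h1 h2
        simp

variable {α A B : Type} [Encodable A] [Encodable B] {X Y : α → Prop} {ea : α → List A}

/-- A loop over the positions of the input list. -/
theorem IsPoly.forMark [Fintype A] {A' : Type} [Encodable A'] [Fintype A'] (m : A → Bool → A')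
    {G : α → ℕ → List B}
    (hG : IsPoly (fun p : α × ℕ => X p.1 ∧ p.2 < (ea p.1).length)
      (fun p => mark m (ea p.1) p.2) (fun p => G p.1 p.2)) :
    IsPoly X ea (fun a => (List.range (ea a).length).flatMap (G a)) := by
  obtain ⟨ι, τ, hι, hτ, τ₀, p, hlen, h⟩ := hG
  refine ⟨ι ⊕ Fin 4, (Option A × Option A) × (Option A' × τ), inferInstance, inferInstance,
    ((none, none), (none, τ₀)), Polynomial.X * (p + (20 * Polynomial.X + 20)) +
      (20 * Polynomial.X + 20), ?_, ?_⟩
  · intro a ha
    have hbound : ∀ i < (ea a).length, (G a i).length ≤ p.eval (ea a).length := by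
      intro i hi
      have := hlen (a, i) ⟨ha, hi⟩
      simpa using this
    rw [List.length_flatMap]
    have : ((List.range (ea a).length).map (fun i => (G a i).length)).sum ≤
        (ea a).length * p.eval (ea a).length := by
      have h1 := List.sum_le_card_nsmul
        ((List.range (ea a).length).map (fun i => (G a i).length)) (p.eval (ea a).length) (by
          intro y hy
          rw [List.mem_map] at hy
          obtain ⟨i, hi, rfl⟩ := hy
          exact hbound i (List.mem_range.1 hi))
      simpa using h1
    simp only [Polynomial.eval_add, Polynomial.eval_mul, Polynomial.eval_X,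
      Polynomial.eval_ofNat]
    rw [Nat.mul_add]
    omega
  · intro K σ _ inp out loc L h1 h2 h3 h4
    -- the stacks
    set Ls : K := loc (Sum.inr 0) with hLs
    set Rs : K := loc (Sum.inr 1) with hRs
    set Ts : K := loc (Sum.inr 2) with hTs
    set Gs : K := loc (Sum.inr 3) with hGs
    have nIO : inp ≠ out := h1
    have nLI : Ls ≠ inp := h3 _
    have nRI : Rs ≠ inp := h3 _
    have nTI : Ts ≠ inp := h3 _
    have nGI : Gs ≠ inp := h3 _
    have nLO : Ls ≠ out := h4 _
    have nRO : Rs ≠ out := h4 _
    have nTO : Ts ≠ out := h4 _
    have nGO : Gs ≠ out := h4 _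
    have nLR : Ls ≠ Rs := h2.ne (by simp)
    have nLT : Ls ≠ Ts := h2.ne (by simp)
    have nLG : Ls ≠ Gs := h2.ne (by simp)
    have nRT : Rs ≠ Ts := h2.ne (by simp)
    have nRG : Rs ≠ Gs := h2.ne (by simp)
    have nTG : Ts ≠ Gs := h2.ne (by simp)
    obtain ⟨c, hc, hrun⟩ := h K σ Gs out (fun i => loc (Sum.inl i)) L.snd.snd nGO
      (h2.comp Sum.inl_injective) (fun i => h2.ne (by simp)) (fun i => h4 _)
    -- registers
    let cur : Lens σ (Option A) := L.fst.fst
    let reg : Lens σ (Option A) := L.fst.snd
    let reg' : Lens σ (Option A') := L.snd.fst
    let body : Cmd K σ :=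
      .seq (mv2 reg Rs Ts)
      (.seq (mv3 reg (fun b => m b false) Ts Rs Gs)
      (.seq (.push Gs (fun v => regCode ((cur.get v).map (fun b => m b true))))
      (.seq (mv3 reg (fun b => m b false) Ls Ts Gs)
      (.seq (mv2 reg Ts Ls)
      (.seq c
      (.seq (clear reg' Gs)
      (.push Rs (fun v => regCode (cur.get v)))))))))
    refine ⟨.seq (mv2 reg inp Ls) (.seq (each cur Ls body) (.seq (mv2 reg Rs Ts)
      (mv2 reg Ts inp))), ?_, ?_⟩
    · have oL : Ls = inp ∨ Ls = out ∨ ∃ i, Ls = loc i := Or.inr (Or.inr ⟨_, hLs⟩)
      have oR : Rs = inp ∨ Rs = out ∨ ∃ i, Rs = loc i := Or.inr (Or.inr ⟨_, hRs⟩)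
      have oT : Ts = inp ∨ Ts = out ∨ ∃ i, Ts = loc i := Or.inr (Or.inr ⟨_, hTs⟩)
      have oG : Gs = inp ∨ Gs = out ∨ ∃ i, Gs = loc i := Or.inr (Or.inr ⟨_, hGs⟩)
      have oI : inp = inp ∨ inp = out ∨ ∃ i, inp = loc i := Or.inl rfl
      refine ⟨⟨trivial, oL, trivial⟩, ⟨trivial, ⟨⟨trivial, oT, trivial⟩,
        ⟨trivial, ⟨oR, oG⟩, trivial⟩, oG, ⟨trivial, ⟨oT, oG⟩, trivial⟩, ⟨trivial, oL, trivial⟩,
        hc.mono ?_, ⟨trivial, trivial, trivial⟩, oR⟩, trivial⟩, ⟨trivial, oT, trivial⟩,
        ⟨trivial, oI, trivial⟩⟩
      rintro k (h | h | ⟨i, h⟩)
      · exact h ▸ oG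
      · exact Or.inr (Or.inl h)
      · exact Or.inr (Or.inr ⟨_, h⟩)
    · intro a ha v S hv hinp hloc
      -- state of the stacks
      let st : List ℕ → List ℕ → List ℕ → List ℕ → List ℕ → List ℕ → K → List ℕ :=
        fun xi xl xr xt xg xo k => if k = inp then xi else if k = Ls then xl else
          if k = Rs then xr else if k = Ts then xt else if k = Gs then xg else
          if k = out then xo else S k
      have gI : ∀ xi xl xr xt xg xo, st xi xl xr xt xg xo inp = xi := by
        intros; simp [st]
      have gL : ∀ xi xl xr xt xg xo, st xi xl xr xt xg xo Ls = xl := by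
        intros; simp [st, nLI]
      have gR : ∀ xi xl xr xt xg xo, st xi xl xr xt xg xo Rs = xr := by
        intros; simp [st, nRI, nLR.symm]
      have gT : ∀ xi xl xr xt xg xo, st xi xl xr xt xg xo Ts = xt := by
        intros; simp [st, nTI, nLT.symm, nRT.symm]
      have gG : ∀ xi xl xr xt xg xo, st xi xl xr xt xg xo Gs = xg := by
        intros; simp [st, nGI, nLG.symm, nRG.symm, nTG.symm]
      have gO : ∀ xi xl xr xt xg xo, st xi xl xr xt xg xo out = xo := by
        intros; simp [st, nIO.symm, nLO.symm, nRO.symm, nTO.symm, nGO.symm]
      have gloc : ∀ xi xl xr xt xg xo i, st xi xl xr xt xg xo (loc (Sum.inl i)) = [] := by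
        intro xi xl xr xt xg xo i
        have e1 : loc (Sum.inl i) ≠ inp := h3 _
        have e2 : loc (Sum.inl i) ≠ Ls := h2.ne (by simp)
        have e3 : loc (Sum.inl i) ≠ Rs := h2.ne (by simp)
        have e4 : loc (Sum.inl i) ≠ Ts := h2.ne (by simp)
        have e5 : loc (Sum.inl i) ≠ Gs := h2.ne (by simp)
        have e6 : loc (Sum.inl i) ≠ out := h4 _
        simp only [st, e1, e2, e3, e4, e5, e6, if_false]
        exact hloc _
      have uI : ∀ xi xl xr xt xg xo y, update (st xi xl xr xt xg xo) inp y =
          st y xl xr xt xg xo := by
        intros; funext k; by_cases e : k = inp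
        · subst e; simp [st]
        · simp [st, e]
      have uL : ∀ xi xl xr xt xg xo y, update (st xi xl xr xt xg xo) Ls y =
          st xi y xr xt xg xo := by
        intros; funext k; by_cases e : k = Ls
        · subst e; simp [gL]
        · simp [st, e]
      have uR : ∀ xi xl xr xt xg xo y, update (st xi xl xr xt xg xo) Rs y =
          st xi xl y xt xg xo := by
        intros; funext k; by_cases e : k = Rs
        · subst e; simp [gR]
        · simp [st, e]
      have uT : ∀ xi xl xr xt xg xo y, update (st xi xl xr xt xg xo) Ts y =
          st xi xl xr y xg xo := by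
        intros; funext k; by_cases e : k = Ts
        · subst e; simp [gT]
        · simp [st, e]
      have uG : ∀ xi xl xr xt xg xo y, update (st xi xl xr xt xg xo) Gs y =
          st xi xl xr xt y xo := by
        intros; funext k; by_cases e : k = Gs
        · subst e; simp [gG]
        · simp [st, e]
      have uO : ∀ xi xl xr xt xg xo y, update (st xi xl xr xt xg xo) out y =
          st xi xl xr xt xg y := by
        intros; funext k; by_cases e : k = out
        · subst e; simp [gO]
        · simp [st, e]
      have hS0 : S = st ((ea a).map encode) [] [] [] [] (S out) := by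
        funext k
        by_cases e1 : k = inp
        · subst e1; rw [gI]; exact hinp
        by_cases e2 : k = Ls
        · subst e2; rw [gL]; exact hloc _
        by_cases e3 : k = Rs
        · subst e3; rw [gR]; exact hloc _
        by_cases e4 : k = Ts
        · subst e4; rw [gT]; exact hloc _
        by_cases e5 : k = Gs
        · subst e5; rw [gG]; exact hloc _
        by_cases e6 : k = out
        · subst e6; rw [gO]
        · simp [st, e1, e2, e3, e4, e5, e6]
      -- registers
      have hcur0 : cur.get v = none := by
        simp only [cur]
        rw [L.fst.fst_get_of (L.fst_get_of hv)]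
      have hreg0 : reg.get v = none := by
        simp only [reg]
        rw [L.fst.snd_get_of (L.fst_get_of hv)]
      have hregcur : ∀ w y, reg.get (cur.put y w) = reg.get w := by
        intro w y
        exact L.fst.snd_get_fst_put y w
      have hreg'cur : ∀ w y, reg'.get (cur.put y w) = reg'.get w := by
        intro w y
        simp [reg', cur, Lens.fst, Lens.snd]
      have hgcur : ∀ w y, L.snd.snd.get (cur.put y w) = L.snd.snd.get w := by
        intro w y
        simp [cur, Lens.fst, Lens.snd]
      have hreg'0 : reg'.get v = none := by
        simp only [reg']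
        rw [L.snd.fst_get_of (L.snd_get_of hv)]
      have hg0 : L.snd.snd.get v = τ₀ := by
        rw [L.snd.snd_get_of (L.snd_get_of hv)]
      -- initial move
      have r1 := runs_mv2 reg (k₁ := inp) (k₂ := Ls) nLI.symm (v := v) (S := S) hreg0 hinp
      have e1 : update (update S inp []) Ls ((ea a).reverse.map encode ++ S Ls) =
          st [] ((ea a).reverse.map encode) [] [] [] (S out) := by
        rw [show S Ls = [] from hloc _, List.append_nil]
        conv_lhs => rw [hS0]
        rw [uI, uL]
      rw [e1] at r1
      -- the main loop
      set n := (ea a).length with hn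
      let O : ℕ → ℕ → List ℕ := fun i k => ((List.range' i k).flatMap (G a)).map encode
      obtain ⟨v', S', hloop, hP⟩ := runs_each cur Ls body (p.eval n + (16 * n + 16))
        (fun l w T => ∃ r, ea a = l.reverse ++ r ∧ cur.put none w = v ∧
          T = st [] (l.map encode) (r.map encode) [] [] (O l.length r.length ++ S out))
        (by
          rintro l w T ⟨r, -, -, rfl⟩
          rw [gL])
        (by
          rintro b l w T ⟨r, hr, hw, rfl⟩
          rw [List.reverse_cons, List.append_assoc, List.singleton_append] at hr
          have hregw : reg.get w = none := by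
            rw [← hregcur w none, hw]
            exact hreg0
          have hreg'w : reg'.get w = none := by
            rw [← hreg'cur w none, hw]
            exact hreg'0
          have hgw : L.snd.snd.get w = τ₀ := by
            rw [← hgcur w none, hw]
            exact hg0
          set w1 := cur.put (some b) w with hw1
          have hreg1 : reg.get w1 = none := by rw [hw1, hregcur]; exact hregw
          have hreg'1 : reg'.get w1 = none := by rw [hw1, hreg'cur]; exact hreg'w
          have hg1 : L.snd.snd.get w1 = τ₀ := by rw [hw1, hgcur]; exact hgw
          have hcur1 : cur.get w1 = some b := by rw [hw1]; exact cur.get_put _ _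
          have hlen1 : l.length + 1 + r.length = n := by
            rw [hn, hr]
            simp
            omega
          rw [uL]
          set o := O (b :: l).length r.length ++ S out with ho
          have s1 := runs_mv2 reg (k₁ := Rs) (k₂ := Ts) nRT (v := w1)
            (S := st [] (l.map encode) (r.map encode) [] [] o) (l := r) hreg1 (gR _ _ _ _ _ _)
          rw [uR, uT, gT, List.append_nil] at s1
          have s2 := runs_mv3 reg (fun b => m b false) (k₁ := Ts) (k₂ := Rs) (k₃ := Gs)
            nRT.symm nTG nRG (v := w1)
            (S := st [] (l.map encode) [] (r.reverse.map encode) [] o) (l := r.reverse) hreg1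
            (gT _ _ _ _ _ _)
          rw [uT, uR, uG, gR, gG, List.append_nil, List.append_nil, List.reverse_reverse] at s2
          have s3 := Runs.push Gs (fun v => regCode ((cur.get v).map (fun b => m b true))) w1
            (st [] (l.map encode) (r.map encode) [] ((r.map (fun b => m b false)).map encode) o)
          rw [uG, gG, hcur1] at s3
          have s4 := runs_mv3 reg (fun b => m b false) (k₁ := Ls) (k₂ := Ts) (k₃ := Gs)
            nLT nLG nTG (v := w1)
            (S := st [] (l.map encode) (r.map encode) [] (regCode ((some b).map
              (fun b => m b true)) :: (r.map (fun b => m b false)).map encode) o) (l := l) hreg1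
            (gL _ _ _ _ _ _)
          rw [uL, uT, uG, gT, gG, List.append_nil] at s4
          have s5 := runs_mv2 reg (k₁ := Ts) (k₂ := Ls) nLT.symm (v := w1)
            (S := st [] [] (r.map encode) (l.reverse.map encode)
              ((l.reverse.map (fun b => m b false)).map encode ++ regCode ((some b).map
              (fun b => m b true)) :: (r.map (fun b => m b false)).map encode) o)
            (l := l.reverse) hreg1 (gT _ _ _ _ _ _)
          rw [uT, uL, gL, List.append_nil, List.reverse_reverse] at s5
          have hmark : (l.reverse.map (fun b => m b false)).map encode ++ regCode ((some b).map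
              (fun b => m b true)) :: (r.map (fun b => m b false)).map encode =
              (mark m (ea a) l.length).map encode := by
            rw [hr, show l.length = l.reverse.length by simp, mark_append]
            simp [regCode]
          rw [hmark] at s4 s5
          have hlt : l.length < (ea a).length := by omega
          have s6 := hrun (a, l.length) ⟨ha, hlt⟩ w1
            (st [] (l.map encode) (r.map encode) [] ((mark m (ea a) l.length).map encode) o)
            hg1 (gG _ _ _ _ _ _) (fun i => gloc _ _ _ _ _ _ _)
          rw [uO, gO] at s6
          have s7 := runs_clear reg' (k := Gs) (v := w1) (S := st [] (l.map encode)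
            (r.map encode) [] ((mark m (ea a) l.length).map encode)
            ((G (a, l.length).1 (a, l.length).2).map encode ++ o))
            (l := mark m (ea a) l.length) hreg'1 (gG _ _ _ _ _ _)
          rw [uG] at s7
          have s8 := Runs.push Rs (fun v => regCode (cur.get v)) w1 (st [] (l.map encode)
            (r.map encode) [] [] ((G (a, l.length).1 (a, l.length).2).map encode ++ o))
          rw [uR, gR, hcur1] at s8
          refine ⟨w1, _, (s1.seq (s2.seq (s3.seq (s4.seq (s5.seq (s6.seq (s7.seq s8))))))).mono ?_,
            b :: r, hr, ?_, ?_⟩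
          · simp only [length_mark, List.length_reverse, ← hn]
            omega
          · rw [hw1, cur.put_put]
            exact hw
          · have hO : (G a l.length).map encode ++ o =
                O l.length (b :: r).length ++ S out := by
              rw [ho, ← List.append_assoc]
              congr 1
              simp only [O, List.length_cons]
              rw [List.range'_succ, List.flatMap_cons, List.map_append]
            rw [← hO]
            rfl)
        (ea a).reverse v (st [] ((ea a).reverse.map encode) [] [] [] (S out))
        ⟨[], by simp, cur.put_eq hcur0, by simp [O]⟩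
      obtain ⟨r, hr, hv', rfl⟩ := hP
      rw [hv'] at hloop
      simp only [List.reverse_nil, List.nil_append] at hr
      subst hr
      have r3 := runs_mv2 reg (k₁ := Rs) (k₂ := Ts) nRT (v := v)
        (S := st [] (([] : List A).map encode) ((ea a).map encode) [] []
          (O ([] : List A).length (ea a).length ++ S out)) (l := ea a) hreg0 (gR _ _ _ _ _ _)
      rw [uR, uT, gT, List.append_nil] at r3
      have r4 := runs_mv2 reg (k₁ := Ts) (k₂ := inp) nTI (v := v)
        (S := st [] (([] : List A).map encode) [] ((ea a).reverse.map encode) []
          (O ([] : List A).length (ea a).length ++ S out)) (l := (ea a).reverse) hreg0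
          (gT _ _ _ _ _ _)
      rw [uT, uI, gI, List.append_nil, List.reverse_reverse] at r4
      refine ((r1.seq (hloop.seq (r3.seq r4))).of_eq rfl ?_).mono ?_
      · conv_rhs => rw [hS0, uO]
        rw [gO]
        simp only [O, List.length_nil, List.map_nil, ← List.range_eq_range', ← hn]
      · simp only [List.length_reverse, ← hn, Polynomial.eval_add, Polynomial.eval_mul,
          Polynomial.eval_X, Polynomial.eval_ofNat]
        ring_nf
        omega

end Pool.Agent.Lib.PolyTime
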