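import Mathlib
import Pool.Agent.Lib.PolyTime.ForMark

/-!
# A small language of nested loops over the positions of a list
-/

namespace Pool.Agent.Lib.PolyTime

open Function Encodable

section Basic

variable {α A B : Type} [Encodable A] [Encodable B] {X Y : α → Prop} {ea : α → List A}

/-- Case distinction on the final state of a finite automaton. -/
theorem IsPoly.cases {Q : Type} [Fintype Q] [Fintype A] (δ : Q → A → Q) (q₀ : Q)
    (st : α → Q) (hst : ∀ a, X a → (ea a).foldl δ q₀ = st a)
    {F : Q → α → List B} (hF : ∀ q, IsPoly (fun a => X a ∧ st a = q) ea (F q)) :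
    IsPoly X ea (fun a => F (st a) a) := by
  classical
  have key : ∀ l : List Q, IsPoly (fun a => X a ∧ st a ∈ l) ea (fun a => F (st a) a) := by
    intro l
    induction l with
    | nil =>
      refine (IsPoly.const (fun a => X a ∧ st a ∈ ([] : List Q)) ea []).congr ?_
      intro a ha
      exact absurd ha.2 (by simp)
    | cons q l ih =>
      have h := IsPoly.ite (X := fun a => X a ∧ st a ∈ q :: l) (ea := ea) δ q₀
        (fun q' => decide (q' = q)) (fun a => st a = q)
        (fun a ha => by rw [hst a ha.1]; simp)
        ((hF q).mono (fun a ha => ⟨ha.1.1, ha.2⟩))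
        (ih.mono (fun a ha => ⟨ha.1.1, (List.mem_cons.1 ha.1.2).resolve_left ha.2⟩))
      refine h.congr ?_
      intro a ha
      split_ifs with heq
      · rw [heq]
      · rfl
  exact (key Finset.univ.toList).mono (fun a ha => ⟨ha, by simp⟩)

/-- Output depending on the final state of a finite automaton. -/
theorem IsPoly.out {Q : Type} [Fintype Q] [Fintype A] (δ : Q → A → Q) (q₀ : Q)
    (g : Q → List B) : IsPoly X ea (fun a => g ((ea a).foldl δ q₀)) :=
  IsPoly.cases δ q₀ (fun a => (ea a).foldl δ q₀) (fun _ _ => rfl) (F := fun q _ => g q)
    (fun q => IsPoly.const _ _ (g q))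

/-- Finite concatenations. -/
theorem IsPoly.listFlatMap {ι : Type} (l : List ι) {F : ι → α → List B}
    (hF : ∀ i, IsPoly X ea (F i)) : IsPoly X ea (fun a => l.flatMap (fun i => F i a)) := by
  induction l with
  | nil => exact IsPoly.const X ea []
  | cons i l ih => exact (hF i).append ih

theorem foldl_mark_sym {A : Type} (x : List A) (i : ℕ) :
    (mark (fun a b => (a, b)) x i).foldl
      (fun (q : Option A) (s : A × Bool) => if s.2 then some s.1 else q) none = x[i]? := by
  induction x using List.reverseRecOn with
  | nil => simp [mark]
  | append_singleton x a ih =>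
    have h1 : mark (fun a b => (a, b)) (x ++ [a]) i =
        mark (fun a b => (a, b)) x i ++ [(a, decide (x.length = i))] := by
      simp [mark, List.mapIdx_append]
    rw [h1, List.foldl_append, ih]
    by_cases hi : x.length = i
    · subst hi
      simp
    · by_cases hlt : i < x.length
      · simp [hi, List.getElem?_append_left hlt]
      · have h2 : x.length < i := by omega
        have h3 : (x ++ [a])[i]? = none := by
          rw [List.getElem?_eq_none_iff]
          simp
          omega
        have h4 : x[i]? = none := by
          rw [List.getElem?_eq_none_iff]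
          omega
        rw [h3, h4]
        simp [hi]

theorem range_flatMap_getElem {A B : Type} (x : List A) (g : A → List B) :
    (List.range x.length).flatMap (fun i => (x[i]?).elim [] g) = x.flatMap g := by
  induction x using List.reverseRecOn with
  | nil => simp
  | append_singleton x a ih =>
    rw [List.length_append, List.length_singleton, List.range_succ, List.flatMap_append,
      List.flatMap_append]
    congr 1
    · rw [← ih]
      rw [List.flatMap_def, List.flatMap_def]
      congr 1
      apply List.map_congr_left
      intro i hi
      rw [List.mem_range] at hi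
      rw [List.getElem?_append_left hi]
    · simp

/-- Letter-wise substitutions. -/
theorem IsPoly.flatMap [Fintype A] (g : A → List B) :
    IsPoly X ea (fun a => (ea a).flatMap g) := by
  have h := IsPoly.forMark (X := X) (ea := ea) (fun (a : A) (b : Bool) => (a, b))
    (G := fun a i => ((ea a)[i]?).elim [] g) (by
      refine (IsPoly.out (fun (q : Option A) (s : A × Bool) => if s.2 then some s.1 else q) none
        (fun q => q.elim [] g)).congr ?_
      rintro ⟨a, i⟩ -
      dsimp only
      rw [foldl_mark_sym])
  exact h.congr (fun a _ => range_flatMap_getElem _ _)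

/-- Recoding the letters of the input. -/
theorem IsPoly.mapIn {A' : Type} [Encodable A'] [Fintype A] [Fintype A'] (g : A → A')
    {F : α → List B} (hF : IsPoly X (fun a => (ea a).map g) F) : IsPoly X ea F := by
  have h : IsPoly X ea (fun a => (ea a).map g) := by
    refine (IsPoly.flatMap (X := X) (ea := ea) (fun a => [g a])).congr ?_
    intro a _
    rw [List.flatMap_def]
    induction ea a with
    | nil => rfl
    | cons b l ih => simpa using ih
  exact IsPoly.comp (φ := fun a => a) hF h (fun _ h => h)

/-- Polynomially many copies of a fixed list. -/
theorem IsPoly.rep {α A B : Type} [Encodable A] [Encodable B] [Fintype A] (X : α → Prop)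
    (ea : α → List A) (q : Polynomial ℕ) (l : List B) :
    IsPoly X ea (fun a => (List.replicate (q.eval (ea a).length) l).flatten) := by
  induction q using Polynomial.induction_on' with
  | add p q hp hq =>
    refine (hp.append hq).congr ?_
    intro a _
    rw [← List.flatten_append, List.replicate_append_replicate, Polynomial.eval_add]
  | monomial n c =>
    induction n generalizing α A with
    | zero =>
      refine (IsPoly.const X ea (List.replicate c l).flatten).congr ?_
      intro a _
      simp
    | succ n ih =>
      have h := IsPoly.forMark (X := X) (ea := ea) (fun (a : A) (b : Bool) => (a, b))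
        (G := fun a _ => (List.replicate ((Polynomial.monomial n c).eval (ea a).length) l).flatten)
        (by
          refine (ih (fun p : α × ℕ => X p.1 ∧ p.2 < (ea p.1).length)
            (fun p => mark (fun a b => (a, b)) (ea p.1) p.2)).congr ?_
          rintro ⟨a, i⟩ -
          simp)
      refine h.congr ?_
      intro a _
      have e : ∀ (m k : ℕ), (List.range m).flatMap (fun _ => (List.replicate k l).flatten) =
          (List.replicate (m * k) l).flatten := by
        intro m k
        induction m with
        | zero => simp
        | succ m ihm =>
          rw [List.range_succ, List.flatMap_append, ihm, Nat.succ_mul,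
            ← List.replicate_append_replicate, List.flatten_append]
          simp
      rw [e]
      congr 2
      simp [Polynomial.eval_monomial, pow_succ]
      ring

end Basic

/-! ### Nested loops -/

/-- The list `x` with the positions `idx m` marked. -/
def marks {A : Type} {k : ℕ} (x : List A) (idx : Fin k → ℕ) : List (A × (Fin k → Bool)) :=
  x.mapIdx (fun j a => (a, fun m => decide (j = idx m)))

@[simp] theorem length_marks {A : Type} {k : ℕ} (x : List A) (idx : Fin k → ℕ) :
    (marks x idx).length = x.length := by simp [marks]

theorem marks_snoc_list {A : Type} {k : ℕ} (x : List A) (a : A) (idx : Fin k → ℕ) :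
    marks (x ++ [a]) idx = marks x idx ++ [(a, fun m => decide (x.length = idx m))] := by
  simp [marks, List.mapIdx_append]

/-- The function `G`, of a list and `k` positions in it, is computable in polynomial time from
the marked list. -/
def LoopPoly {A B : Type} [Encodable A] [Encodable B] (k : ℕ) (X : List A → Prop)
    (G : List A → (Fin k → ℕ) → List B) : Prop :=
  IsPoly (fun p : List A × (Fin k → ℕ) => X p.1 ∧ ∀ m, p.2 m < p.1.length)
    (fun p => marks p.1 p.2) (fun p => G p.1 p.2)

section Loop

variable {A B : Type} [Encodable A] [Encodable B] {k : ℕ} {X : List A → Prop}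
  {G H : List A → (Fin k → ℕ) → List B}

theorem LoopPoly.congr (h : LoopPoly k X G)
    (hGH : ∀ x idx, X x → (∀ m, idx m < x.length) → G x idx = H x idx) : LoopPoly k X H :=
  IsPoly.congr h (fun p hp => hGH p.1 p.2 hp.1 hp.2)

theorem LoopPoly.const (l : List B) : LoopPoly k X (fun _ _ => l) :=
  IsPoly.const _ _ l

theorem LoopPoly.append (hG : LoopPoly k X G) (hH : LoopPoly k X H) :
    LoopPoly k X (fun x idx => G x idx ++ H x idx) :=
  IsPoly.append hG hH

theorem LoopPoly.listFlatMap {ι : Type} (l : List ι) {G : ι → List A → (Fin k → ℕ) → List B}
    (hG : ∀ i, LoopPoly k X (G i)) :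
    LoopPoly k X (fun x idx => l.flatMap (fun i => G i x idx)) :=
  IsPoly.listFlatMap l hG

/-- A loop. -/
theorem LoopPoly.loop [Fintype A] {G : List A → (Fin (k + 1) → ℕ) → List B}
    (hG : LoopPoly (k + 1) X G) :
    LoopPoly k X (fun x idx => (List.range x.length).flatMap
      (fun i => G x (Fin.snoc (α := fun _ => ℕ) idx i))) := by
  have h := IsPoly.forMark
    (X := fun p : List A × (Fin k → ℕ) => X p.1 ∧ ∀ m, p.2 m < p.1.length)
    (ea := fun p => marks p.1 p.2)
    (fun (s : A × (Fin k → Bool)) (b : Bool) =>
      ((s.1, Fin.snoc (α := fun _ => Bool) s.2 b) : A × (Fin (k + 1) → Bool)))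
    (G := fun p i => G p.1 (Fin.snoc (α := fun _ => ℕ) p.2 i)) (by
      have h2 := IsPoly.precomp hG
        (Z := fun q : (List A × (Fin k → ℕ)) × ℕ =>
          (X q.1.1 ∧ ∀ m, q.1.2 m < q.1.1.length) ∧ q.2 < (marks q.1.1 q.1.2).length)
        (fun q => (q.1.1, Fin.snoc (α := fun _ => ℕ) q.1.2 q.2)) (by
          rintro ⟨⟨x, idx⟩, i⟩ ⟨⟨hx, hidx⟩, hi⟩
          refine ⟨hx, ?_⟩
          intro m
          refine Fin.lastCases ?_ (fun m => ?_) m
          · simpa using hi
          · simpa using hidx m)
      refine h2.congr_in ?_
      rintro ⟨⟨x, idx⟩, i⟩ -
      simp only [mark, marks, List.mapIdx_mapIdx]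
      congr 1
      funext j a
      simp only [Function.comp]
      congr 1
      funext m
      refine Fin.lastCases ?_ (fun m => ?_) m <;> simp)
  refine IsPoly.congr h ?_
  rintro ⟨x, idx⟩ -
  simp

/-- The finite information about `k` positions of a list that a finite automaton can find. -/
structure Prof (A : Type) (k : ℕ) where
  /-- the symbols at the positions -/
  sym : Fin k → Option A
  /-- equality of positions -/
  eq : Fin k → Fin k → Bool
  /-- immediate succession of positions -/
  succ : Fin k → Fin k → Bool
  /-- being the first position -/
  first : Fin k → Bool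
  /-- being the last position -/
  last : Fin k → Bool

/-- The profile of `k` positions of a list. -/
def prof {A : Type} {k : ℕ} (x : List A) (idx : Fin k → ℕ) : Prof A k where
  sym m := x[idx m]?
  eq m m' := decide (idx m = idx m' ∧ idx m < x.length)
  succ m m' := decide (idx m' = idx m + 1 ∧ idx m' < x.length)
  first m := decide (idx m = 0 ∧ 0 < x.length)
  last m := decide (idx m + 1 = x.length)

/-- The automaton computing profiles; its states are profiles, in which `last` records the
positions marked in the last symbol read, and a flag. -/
def profStep {A : Type} {k : ℕ} (q : Bool × Prof A k) (s : A × (Fin k → Bool)) :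
    Bool × Prof A k :=
  (true,
    { sym := fun m => if s.2 m then some s.1 else q.2.sym m
      eq := fun m m' => q.2.eq m m' || (s.2 m && s.2 m')
      succ := fun m m' => q.2.succ m m' || (q.2.last m && s.2 m')
      first := fun m => q.2.first m || (!q.1 && s.2 m)
      last := fun m => s.2 m })

/-- The initial state. -/
def profInit {A : Type} {k : ℕ} : Bool × Prof A k :=
  (false,
    { sym := fun _ => none
      eq := fun _ _ => false
      succ := fun _ _ => false
      first := fun _ => false
      last := fun _ => false })

theorem foldl_prof {A : Type} {k : ℕ} (x : List A) (idx : Fin k → ℕ) :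
    (marks x idx).foldl profStep profInit = (decide (x ≠ []), prof x idx) := by
  induction x using List.reverseRecOn with
  | nil =>
    simp only [marks, List.mapIdx_nil, List.foldl_nil, profInit, prof]
    simp
  | append_singleton x a ih =>
    rw [marks_snoc_list, List.foldl_append, ih]
    simp only [List.foldl_cons, List.foldl_nil, profStep]
    refine Prod.ext (by simp) ?_
    simp only [prof, Prof.mk.injEq]
    refine ⟨?_, ?_, ?_, ?_, ?_⟩
    · funext m
      by_cases h1 : x.length = idx m
      · rw [← h1]
        simp
      · by_cases hlt : idx m < x.length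
        · simp [h1, List.getElem?_append_left hlt]
        · have h3 : (x ++ [a])[idx m]? = none := by
            rw [List.getElem?_eq_none_iff]
            simp
            omega
          have h4 : x[idx m]? = none := by
            rw [List.getElem?_eq_none_iff]
            omega
          rw [h3, h4]
          simp [h1]
    · funext m m'
      rw [Bool.eq_iff_iff]
      simp only [Bool.or_eq_true, Bool.and_eq_true, decide_eq_true_eq, List.length_append,
        List.length_singleton]
      omega
    · funext m m'
      rw [Bool.eq_iff_iff]
      simp only [Bool.or_eq_true, Bool.and_eq_true, decide_eq_true_eq, List.length_append,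
        List.length_singleton]
      omega
    · funext m
      rw [Bool.eq_iff_iff]
      simp only [Bool.or_eq_true, Bool.and_eq_true, decide_eq_true_eq, List.length_append,
        List.length_singleton, Bool.not_eq_true', decide_eq_false_iff_not, not_not,
        ← List.length_eq_zero_iff]
      omega
    · funext m
      rw [Bool.eq_iff_iff]
      simp only [decide_eq_true_eq, List.length_append, List.length_singleton]
      omega

/-- Profiles are determined by finitely many data. -/
def profEquiv (A : Type) (k : ℕ) : Prof A k ≃
    (Fin k → Option A) × (Fin k → Fin k → Bool) × (Fin k → Fin k → Bool) × (Fin k → Bool) ×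
      (Fin k → Bool) where
  toFun q := (q.sym, q.eq, q.succ, q.first, q.last)
  invFun q := ⟨q.1, q.2.1, q.2.2.1, q.2.2.2.1, q.2.2.2.2⟩
  left_inv _ := rfl
  right_inv _ := rfl

noncomputable instance {A : Type} {k : ℕ} [Fintype A] : Fintype (Prof A k) := by
  classical
  exact Fintype.ofEquiv _ (profEquiv A k).symm

/-- Case distinction on the profile. -/
theorem LoopPoly.cases [Fintype A] {G : Prof A k → List A → (Fin k → ℕ) → List B}
    (hG : ∀ q, LoopPoly k X (G q)) : LoopPoly k X (fun x idx => G (prof x idx) x idx) := by
  have h := IsPoly.cases (X := fun p : List A × (Fin k → ℕ) => X p.1 ∧ ∀ m, p.2 m < p.1.length)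
    (ea := fun p => marks p.1 p.2) (profStep (A := A) (k := k)) profInit
    (fun p => (decide (p.1 ≠ []), prof p.1 p.2)) (fun p _ => foldl_prof _ _)
    (F := fun q p => G q.2 p.1 p.2) (fun q => IsPoly.mono (hG q.2) (fun a ha => ha.1))
  exact h

/-- Output depending on the profile. -/
theorem LoopPoly.out [Fintype A] (g : Prof A k → List B) :
    LoopPoly k X (fun x idx => g (prof x idx)) :=
  LoopPoly.cases (G := fun q _ _ => g q) (fun q => LoopPoly.const (g q))

/-- A loop program without free positions is a polynomial-time function of the list. -/
theorem LoopPoly.toIsPoly [Fintype A] {G : List A → (Fin 0 → ℕ) → List B}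
    (hG : LoopPoly 0 X G) (e : Fin 0 → ℕ) : IsPoly X (fun x : List A => x) (fun x => G x e) := by
  have h := IsPoly.precomp hG (Z := X) (fun x => (x, e)) (fun x hx => ⟨hx, fun m => m.elim0⟩)
  refine IsPoly.mapIn (A' := A × (Fin 0 → Bool)) (fun a => (a, fun m => m.elim0)) ?_
  refine h.congr_in ?_
  intro x _
  simp only [marks]
  apply List.ext_getElem
  · simp
  · intro i h1 h2
    simp only [List.getElem_mapIdx, List.getElem_map]
    congr 1
    funext m
    exact m.elim0

end Loop

end Pool.Agent.Lib.PolyTime
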