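import Mathlib

/-!
# Flat multi-stack machines, and their simulation of Mathlib's TM2 machines
-/

namespace Pool.Agent.Lib.PolyTime

open Function Turing

/-- Operations on a stack. -/
inductive Op (A : Type) : Type
  | keep : Op A
  | pop : Op A
  | push (a : A) : Op A

/-- The effect of an operation. -/
def Op.apply {A : Type} : Op A → List A → List A
  | .keep, l => l
  | .pop, l => l.tail
  | .push a, l => a :: l

theorem Op.length_apply_le {A : Type} (o : Op A) (l : List A) :
    (o.apply l).length ≤ l.length + 1 := by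
  cases o <;> simp [Op.apply]
  omega

/-- A machine with finitely many states and finitely many stacks with a common finite alphabet.
In each step it looks at the tops of all stacks, changes its state and applies one operation to
each stack. -/
structure Flat where
  /-- stacks -/
  K : Type
  /-- states -/
  Q : Type
  /-- stack alphabet -/
  A : Type
  [kFin : Fintype K]
  [kDec : DecidableEq K]
  [qFin : Fintype Q]
  [aFin : Fintype A]
  /-- next state -/
  next : Q → (K → Option A) → Q
  /-- stack operations -/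
  op : Q → (K → Option A) → K → Op A

attribute [instance] Flat.kFin Flat.kDec Flat.qFin Flat.aFin

/-- Configurations of a flat machine. -/
abbrev Flat.Conf (M : Flat) : Type := M.Q × (M.K → List M.A)

/-- The step function of a flat machine. -/
def Flat.step (M : Flat) (c : M.Conf) : M.Conf :=
  (M.next c.1 (fun k => (c.2 k).head?),
    fun k => (M.op c.1 (fun k => (c.2 k).head?) k).apply (c.2 k))

theorem Flat.length_iterate (M : Flat) (c : M.Conf) (n : ℕ) (k : M.K) :
    ((M.step^[n] c).2 k).length ≤ (c.2 k).length + n := by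
  induction n with
  | zero => simp
  | succ n ih =>
    rw [Function.iterate_succ_apply']
    have := Op.length_apply_le (M.op (M.step^[n] c).1 (fun k => ((M.step^[n] c).2 k).head?) k)
      ((M.step^[n] c).2 k)
    simp only [Flat.step] at this ⊢
    omega

section TM2

variable (tm : FinTM2)

/-- Configurations between the elementary steps of a TM2 machine. -/
abbrev Micro : Type :=
  Option (TM2.Stmt tm.Γ tm.Λ tm.σ) × tm.σ × (∀ k, List (tm.Γ k))

/-- The elementary steps of a TM2 machine. -/
def micro : Micro tm → Micro tm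
  | (none, v, S) => (none, v, S)
  | (some (TM2.Stmt.push k f q), v, S) => (some q, v, update S k (f v :: S k))
  | (some (TM2.Stmt.peek k f q), v, S) => (some q, f v (S k).head?, S)
  | (some (TM2.Stmt.pop k f q), v, S) => (some q, f v (S k).head?, update S k (S k).tail)
  | (some (TM2.Stmt.load a q), v, S) => (some q, a v, S)
  | (some (TM2.Stmt.branch f q₁ q₂), v, S) => (some (cond (f v) q₁ q₂), v, S)
  | (some (TM2.Stmt.goto f), v, S) => (some (tm.m (f v)), v, S)
  | (some TM2.Stmt.halt, v, S) => (none, v, S)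

/-- TM2 configurations as elementary configurations. -/
def toMicro (c : TM2.Cfg tm.Γ tm.Λ tm.σ) : Micro tm := (c.l.map tm.m, c.var, c.stk)

/-- Length of a statement. -/
def stmtSize {K : Type} {Γ : K → Type} {Λ σ : Type} : TM2.Stmt Γ Λ σ → ℕ
  | TM2.Stmt.push _ _ q => stmtSize q + 1
  | TM2.Stmt.peek _ _ q => stmtSize q + 1
  | TM2.Stmt.pop _ _ q => stmtSize q + 1
  | TM2.Stmt.load _ q => stmtSize q + 1
  | TM2.Stmt.branch _ q₁ q₂ => stmtSize q₁ + stmtSize q₂ + 1
  | TM2.Stmt.goto _ => 1
  | TM2.Stmt.halt => 1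

theorem micro_stepAux (q : TM2.Stmt tm.Γ tm.Λ tm.σ) (v : tm.σ) (S : ∀ k, List (tm.Γ k)) :
    ∃ s, s ≤ stmtSize q ∧ (micro tm)^[s] (some q, v, S) = toMicro tm (TM2.stepAux q v S) := by
  induction q generalizing v S with
  | push k f q ih =>
    obtain ⟨s, hs, h⟩ := ih v (update S k (f v :: S k))
    exact ⟨s + 1, by simp only [stmtSize]; omega, by rw [Function.iterate_succ_apply]; exact h⟩
  | peek k f q ih =>
    obtain ⟨s, hs, h⟩ := ih (f v (S k).head?) S
    exact ⟨s + 1, by simp only [stmtSize]; omega, by rw [Function.iterate_succ_apply]; exact h⟩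
  | pop k f q ih =>
    obtain ⟨s, hs, h⟩ := ih (f v (S k).head?) (update S k (S k).tail)
    exact ⟨s + 1, by simp only [stmtSize]; omega, by rw [Function.iterate_succ_apply]; exact h⟩
  | load a q ih =>
    obtain ⟨s, hs, h⟩ := ih (a v) S
    exact ⟨s + 1, by simp only [stmtSize]; omega, by rw [Function.iterate_succ_apply]; exact h⟩
  | branch f q₁ q₂ ih₁ ih₂ =>
    cases hf : f v with
    | true =>
      obtain ⟨s, hs, h⟩ := ih₁ v S
      refine ⟨s + 1, by simp only [stmtSize]; omega, ?_⟩
      rw [Function.iterate_succ_apply]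
      simp only [micro, hf, cond_true, TM2.stepAux]
      exact h
    | false =>
      obtain ⟨s, hs, h⟩ := ih₂ v S
      refine ⟨s + 1, by simp only [stmtSize]; omega, ?_⟩
      rw [Function.iterate_succ_apply]
      simp only [micro, hf, cond_false, TM2.stepAux]
      exact h
  | goto f => exact ⟨1, le_rfl, rfl⟩
  | halt => exact ⟨1, le_rfl, rfl⟩

/-- A bound for the number of elementary steps per step. -/
noncomputable def stepBound : ℕ :=
  letI := tm.ΛFin
  Finset.univ.sup (fun l => stmtSize (tm.m l))

theorem iterate_bind_none {σ : Type} (f : σ → Option σ) (n : ℕ) :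
    (flip bind f)^[n] none = none := by
  induction n with
  | zero => rfl
  | succ n ih => rw [Function.iterate_succ_apply]; exact ih

theorem micro_iterate (n : ℕ) (c c' : TM2.Cfg tm.Γ tm.Λ tm.σ)
    (h : (flip bind (TM2.step tm.m))^[n] (some c) = some c') :
    ∃ s, s ≤ stepBound tm * n ∧ (micro tm)^[s] (toMicro tm c) = toMicro tm c' := by
  induction n generalizing c with
  | zero =>
    obtain rfl : c = c' := Option.some_injective _ h
    exact ⟨0, by simp, rfl⟩
  | succ n ih =>
    rw [Function.iterate_succ_apply] at h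
    have e : flip bind (TM2.step tm.m) (some c) = TM2.step tm.m c := rfl
    rw [e] at h
    rcases c with ⟨l, v, S⟩
    rcases l with _ | l
    · rw [TM2.step, iterate_bind_none] at h
      exact absurd h (by simp)
    · rw [TM2.step] at h
      obtain ⟨s, hs, h1⟩ := ih _ h
      obtain ⟨s', hs', h2⟩ := micro_stepAux tm (tm.m l) v S
      refine ⟨s + s', ?_, ?_⟩
      · let := tm.ΛFin
        have : stmtSize (tm.m l) ≤ stepBound tm :=
          Finset.le_sup (f := fun l => stmtSize (tm.m l)) (Finset.mem_univ l)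
        rw [Nat.mul_succ]
        omega
      · rw [Function.iterate_add_apply]
        have : toMicro tm ⟨some l, v, S⟩ = (some (tm.m l), v, S) := rfl
        rw [this, h2, h1]

/-- The finite set of statements that can occur. -/
noncomputable def stm : Finset (Option (TM2.Stmt tm.Γ tm.Λ tm.σ)) :=
  letI := tm.ΛFin
  TM2.stmts tm.m Finset.univ

theorem stm_none : none ∈ stm tm := by
  simp [stm, TM2.stmts]

theorem stm_some_m (l : tm.Λ) : some (tm.m l) ∈ stm tm := by
  let := tm.ΛFin
  simp only [stm, TM2.stmts, Finset.some_mem_insertNone, Finset.mem_biUnion, Finset.mem_univ,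
    true_and]
  exact ⟨l, TM2.stmts₁_self⟩

theorem stm_trans {q q' : TM2.Stmt tm.Γ tm.Λ tm.σ} (h : some q' ∈ stm tm)
    (h' : q ∈ TM2.stmts₁ q') : some q ∈ stm tm :=
  TM2.stmts_trans h' h

/-- The alphabet of the flat machine: a symbol is a statement pushing something together with an
internal state, or an input symbol. -/
abbrev FA : Type := ({o // o ∈ stm tm} × tm.σ) ⊕ tm.Γ tm.k₀

/-- The symbol pushed by a statement on the stack `k`. -/
def pushed (k : tm.K) : Option (TM2.Stmt tm.Γ tm.Λ tm.σ) → tm.σ → Option (tm.Γ k)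
  | some (TM2.Stmt.push k' f _), v => if h : k' = k then some (h ▸ f v) else none
  | _, _ => none

/-- The symbol on the stack `k` represented by a symbol of the flat machine. -/
def val (k : tm.K) : FA tm → Option (tm.Γ k)
  | Sum.inl (o, v) => pushed tm k o.1 v
  | Sum.inr s => if h : tm.k₀ = k then some (h ▸ s) else none

/-- The next state of the flat machine. -/
noncomputable def fnext (c : {o // o ∈ stm tm} × tm.σ) (h : tm.K → Option (FA tm)) :
    {o // o ∈ stm tm} × tm.σ :=
  match c with
  | (⟨none, ho⟩, v) => (⟨none, ho⟩, v)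
  | (⟨some (TM2.Stmt.push _ _ q), ho⟩, v) =>
      (⟨some q, stm_trans tm ho (by simp [TM2.stmts₁, TM2.stmts₁_self])⟩, v)
  | (⟨some (TM2.Stmt.peek k f q), ho⟩, v) =>
      (⟨some q, stm_trans tm ho (by simp [TM2.stmts₁, TM2.stmts₁_self])⟩,
        f v ((h k).bind (val tm k)))
  | (⟨some (TM2.Stmt.pop k f q), ho⟩, v) =>
      (⟨some q, stm_trans tm ho (by simp [TM2.stmts₁, TM2.stmts₁_self])⟩,
        f v ((h k).bind (val tm k)))
  | (⟨some (TM2.Stmt.load a q), ho⟩, v) =>
      (⟨some q, stm_trans tm ho (by simp [TM2.stmts₁, TM2.stmts₁_self])⟩, a v)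
  | (⟨some (TM2.Stmt.branch f q₁ q₂), ho⟩, v) =>
      (cond (f v) ⟨some q₁, stm_trans tm ho (by simp [TM2.stmts₁, TM2.stmts₁_self])⟩
        ⟨some q₂, stm_trans tm ho (by simp [TM2.stmts₁, TM2.stmts₁_self])⟩, v)
  | (⟨some (TM2.Stmt.goto f), _⟩, v) => (⟨some (tm.m (f v)), stm_some_m tm _⟩, v)
  | (⟨some TM2.Stmt.halt, _⟩, v) => (⟨none, stm_none tm⟩, v)

/-- The stack operations of the flat machine. -/
def fop (c : {o // o ∈ stm tm} × tm.σ) (k' : tm.K) : Op (FA tm) :=
  match c.1.1 with
  | some (TM2.Stmt.push k _ _) => if k' = k then .push (Sum.inl c) else .keep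
  | some (TM2.Stmt.pop k _ _) => if k' = k then .pop else .keep
  | _ => .keep

/-- The flat machine simulating a TM2 machine. -/
noncomputable def flat : Flat :=
  letI := tm.kFin
  letI := tm.σFin
  letI := tm.Γk₀Fin
  { K := tm.K
    Q := {o // o ∈ stm tm} × tm.σ
    A := FA tm
    next := fnext tm
    op := fun c _ => fop tm c }

/-- Simulation relation. -/
def Sim (c : (flat tm).Conf) (d : Micro tm) : Prop :=
  c.1.1.1 = d.1 ∧ c.1.2 = d.2.1 ∧ ∀ k, (c.2 k).map (val tm k) = (d.2.2 k).map some

theorem sim_head {l : List (FA tm)} {k : tm.K} {l' : List (tm.Γ k)}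
    (h : l.map (val tm k) = l'.map some) : l.head?.bind (val tm k) = l'.head? := by
  rcases l with _ | ⟨a, l⟩ <;> rcases l' with _ | ⟨b, l'⟩
  · rfl
  · simp at h
  · simp at h
  · simp only [List.map_cons, List.cons.injEq] at h
    simp [h.1]

theorem sim_step_aux (o : Option (TM2.Stmt tm.Γ tm.Λ tm.σ)) (ho : o ∈ stm tm) (v : tm.σ)
    (T : tm.K → List (FA tm)) (S : ∀ k, List (tm.Γ k))
    (h3 : ∀ k : tm.K, (T k).map (val tm k) = (S k).map some) :
    Sim tm ((flat tm).step ((⟨o, ho⟩, v), T)) (micro tm (o, v, S)) := by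
  rcases o with _ | q
  · exact ⟨rfl, rfl, h3⟩
  cases q with
  | push k f q =>
    refine ⟨rfl, rfl, ?_⟩
    intro (k' : tm.K)
    change ((if k' = k then Op.push (Sum.inl (⟨some (TM2.Stmt.push k f q), ho⟩, v)) else
      Op.keep : Op (FA tm)).apply (T k')).map (val tm k') =
      ((update S k (f v :: S k)) k').map some
    by_cases hk : k' = k
    · subst hk
      rw [if_pos rfl, update_self]
      simp only [Op.apply, List.map_cons]
      rw [h3 k']
      congr 1
      simp [val, pushed]
    · rw [if_neg hk, update_of_ne hk]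
      exact h3 k'
  | peek k f q =>
    refine ⟨rfl, ?_, h3⟩
    change f v ((T k).head?.bind (val tm k)) = f v (S k).head?
    rw [sim_head tm (h3 k)]
  | pop k f q =>
    refine ⟨rfl, ?_, ?_⟩
    · change f v ((T k).head?.bind (val tm k)) = f v (S k).head?
      rw [sim_head tm (h3 k)]
    · intro (k' : tm.K)
      change ((if k' = k then Op.pop else Op.keep : Op (FA tm)).apply (T k')).map (val tm k') =
        ((update S k (S k).tail) k').map some
      by_cases hk : k' = k
      · subst hk
        rw [if_pos rfl, update_self]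
        simp only [Op.apply]
        rw [List.map_tail, h3 k', List.map_tail]
      · rw [if_neg hk, update_of_ne hk]
        exact h3 k'
  | load a q => exact ⟨rfl, rfl, h3⟩
  | branch f q₁ q₂ =>
    refine ⟨?_, rfl, h3⟩
    change (cond (f v) (⟨some q₁, _⟩ : {o // o ∈ stm tm}) ⟨some q₂, _⟩).1 =
      some (cond (f v) q₁ q₂)
    cases f v <;> rfl
  | goto f => exact ⟨rfl, rfl, h3⟩
  | halt => exact ⟨rfl, rfl, h3⟩

theorem sim_step (c : (flat tm).Conf) (d : Micro tm) (h : Sim tm c d) :
    Sim tm ((flat tm).step c) (micro tm d) := by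
  obtain ⟨⟨⟨o, ho⟩, v⟩, T⟩ := c
  obtain ⟨o', v', S⟩ := d
  obtain ⟨h1, h2, h3⟩ := h
  dsimp only at h1 h2
  subst h1 h2
  exact sim_step_aux tm o ho v T S h3

theorem sim_iterate (n : ℕ) (c : (flat tm).Conf) (d : Micro tm) (h : Sim tm c d) :
    Sim tm ((flat tm).step^[n] c) ((micro tm)^[n] d) := by
  induction n generalizing c d with
  | zero => exact h
  | succ n ih =>
    rw [Function.iterate_succ_apply, Function.iterate_succ_apply]
    exact ih _ _ (sim_step tm c d h)

end TM2

end Pool.Agent.Lib.PolyTime
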