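import Mathlib
import Pool.Agent.Lib.PolyTime.Flat

/-!
# Tableaux of flat machines
-/

namespace Pool.Agent.Lib.PolyTime

open Function

/-- Symbols of the template of the initial row: `none` is blank, `some (inl b)` is a fixed bit,
`some (inr r)` is the `r`-th symbol of a block `true, b, false` describing a guessed bit `b`. -/
abbrev ZSym : Type := Option (Bool ⊕ Fin 3)

section Row

variable {A : Type} (sy : Bool → A)

/-- The symbols allowed at a position of the template. -/
def okSym : ZSym → Option A → Prop
  | none, a => a = none
  | some (Sum.inl b), a => a = some (sy b)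
  | some (Sum.inr r), a =>
      a = none ∨ (r = 0 ∧ a = some (sy true)) ∨ (r = 1 ∧ ∃ b, a = some (sy b)) ∨
        (r = 2 ∧ a = some (sy false))

/-- The condition on adjacent positions of the template. -/
def okAdj : ZSym → Option A → Option A → Prop
  | some (Sum.inr r), a, a' => (a = none → a' = none) ∧ (r ≠ 2 → a' = none → a = none)
  | _, _, _ => True

/-- A row fits a template. -/
def RowOK (Z : List ZSym) (a : ℕ → Option A) : Prop :=
  ∀ p < Z.length, okSym sy (Z[p]?).join (a p) ∧
    (p + 1 < Z.length → okAdj (Z[p]?).join (a p) (a (p + 1)))

theorem rowOK_nil (a : ℕ → Option A) : RowOK sy [] a := by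
  intro p hp
  simp at hp

theorem rowOK_cons (z : ZSym) (Z : List ZSym) (a : ℕ → Option A) :
    RowOK sy (z :: Z) a ↔ okSym sy z (a 0) ∧ (Z ≠ [] → okAdj z (a 0) (a 1)) ∧
      RowOK sy Z (fun p => a (p + 1)) := by
  constructor
  · intro h
    refine ⟨?_, ?_, ?_⟩
    · simpa using (h 0 (by simp)).1
    · intro hZ
      have := (h 0 (by simp)).2 (by
        simp only [List.length_cons]
        have := List.length_pos_iff.2 hZ
        omega)
      simpa using this
    · intro p hp
      have := h (p + 1) (by simpa using hp)
      simpa using this
  · rintro ⟨h1, h2, h3⟩ p hp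
    rcases p with _ | p
    · refine ⟨by simpa using h1, ?_⟩
      intro hp'
      have hZ : Z ≠ [] := by
        rintro rfl
        simp at hp'
      simpa using h2 hZ
    · have := h3 p (by simpa using hp)
      simpa using this

/-- Three bits per symbol. -/
def enc3 (w : List Bool) : List Bool := w.flatMap (fun b => [true, b, false])

@[simp] theorem enc3_nil : enc3 [] = [] := rfl

@[simp] theorem enc3_cons (b : Bool) (w : List Bool) :
    enc3 (b :: w) = true :: b :: false :: enc3 w := rfl

theorem length_enc3 (w : List Bool) : (enc3 w).length = 3 * w.length := by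
  induction w with
  | nil => rfl
  | cons b w ih => simp [ih]; omega

/-- The template of the guessed part. -/
def guessT (m : ℕ) : List ZSym :=
  (List.replicate m [some (Sum.inr 0), some (Sum.inr 1), some (Sum.inr 2)]).flatten

theorem guessT_succ (m : ℕ) : guessT (m + 1) =
    some (Sum.inr 0) :: some (Sum.inr 1) :: some (Sum.inr 2) :: guessT m := by
  simp [guessT, List.replicate_succ]

theorem length_guessT (m : ℕ) : (guessT m).length = 3 * m := by
  induction m with
  | zero => rfl
  | succ m ih => rw [guessT_succ]; simp [ih]; omega

theorem rowOK_blank (n : ℕ) (a : ℕ → Option A) :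
    RowOK sy (List.replicate n (none : ZSym)) a ↔ ∀ p < n, a p = none := by
  constructor
  · intro h p hp
    have := (h p (by simpa using hp)).1
    rw [List.getElem?_replicate, if_pos hp] at this
    exact this
  · intro h p hp
    have hp' : p < n := by simpa using hp
    rw [List.getElem?_replicate, if_pos hp']
    exact ⟨h p hp', fun _ => trivial⟩

theorem rowOK_guess (m n : ℕ) (hn : 0 < n) (a : ℕ → Option A) :
    RowOK sy (guessT m ++ List.replicate n (none : ZSym)) a ↔
      ∃ w : List Bool, w.length ≤ m ∧ ∀ p < 3 * m + n, a p = ((enc3 w).map sy)[p]? := by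
  induction m generalizing a with
  | zero =>
    have : guessT 0 = [] := rfl
    rw [this, List.nil_append, rowOK_blank]
    constructor
    · intro h
      exact ⟨[], le_rfl, fun p hp => by simpa using h p (by omega)⟩
    · rintro ⟨w, hw, h⟩ p hp
      obtain rfl : w = [] := List.length_eq_zero_iff.1 (by omega)
      simpa using h p (by omega)
  | succ m ih =>
    rw [guessT_succ, List.cons_append, List.cons_append, List.cons_append, rowOK_cons,
      rowOK_cons, rowOK_cons, ih]
    have hne : guessT m ++ List.replicate n (none : ZSym) ≠ [] := by
      intro h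
      have := congrArg List.length h
      simp at this
      omega
    constructor
    · rintro ⟨h0, h01, h1, h12, h2, h23, w, hw, h⟩
      have a01 := h01 (by simp)
      have a12 := h12 (by simp)
      have a23 := h23 hne
      simp only [okAdj, okSym, Nat.reduceAdd, zero_add] at h0 h1 h2 a01 a12 a23
      have h0' : a 0 = none ∨ a 0 = some (sy true) := by
        rcases h0 with h0 | h0 | h0 | h0
        · exact Or.inl h0
        · exact Or.inr h0.2
        · exact absurd h0.1 (by decide)
        · exact absurd h0.1 (by decide)
      have h1' : a 1 = none ∨ ∃ b, a 1 = some (sy b) := by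
        rcases h1 with h1 | h1 | h1 | h1
        · exact Or.inl h1
        · exact absurd h1.1 (by decide)
        · exact Or.inr h1.2
        · exact absurd h1.1 (by decide)
      have h2' : a 2 = none ∨ a 2 = some (sy false) := by
        rcases h2 with h2 | h2 | h2 | h2
        · exact Or.inl h2
        · exact absurd h2.1 (by decide)
        · exact absurd h2.1 (by decide)
        · exact Or.inr h2.2
      have e01 := a01.2 (by decide)
      have e12 := a12.2 (by decide)
      rcases h0' with h0' | h0'
      · have g1 := a01.1 h0'
        have g2 := a12.1 g1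
        have g3 := a23.1 g2
        have hw0 : w = [] := by
          rcases w with _ | ⟨b, w⟩
          · rfl
          · have := h 0 (by omega)
            simp [g3] at this
        subst hw0
        refine ⟨[], by simp, ?_⟩
        intro p hp
        rcases p with _ | _ | _ | p
        · simpa using h0'
        · simpa using g1
        · simpa using g2
        · have := h p (by omega)
          simpa using this
      · have n1 : a 1 ≠ none := fun h => by
          have := e01 h
          rw [h0'] at this
          exact absurd this (by simp)
        obtain ⟨b, hb⟩ := h1'.resolve_left n1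
        have n2 : a 2 ≠ none := fun h => n1 (e12 h)
        have hb2 := h2'.resolve_left n2
        refine ⟨b :: w, by simp; omega, ?_⟩
        intro p hp
        rcases p with _ | _ | _ | p
        · simpa using h0'
        · simpa using hb
        · simpa using hb2
        · have := h p (by omega)
          simpa using this
    · rintro ⟨w, hw, h⟩
      have g0 := h 0 (by omega)
      have g1 := h 1 (by omega)
      have g2 := h 2 (by omega)
      have g3 := h 3 (by omega)
      rcases w with _ | ⟨b, w⟩
      · simp only [enc3_nil, List.map_nil, List.getElem?_nil] at g0 g1 g2 g3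
        refine ⟨?_, ?_, ?_, ?_, ?_, ?_, [], by simp, ?_⟩
        · exact Or.inl g0
        · exact fun _ => ⟨fun _ => g1, fun _ _ => g0⟩
        · exact Or.inl g1
        · exact fun _ => ⟨fun _ => g2, fun _ _ => g1⟩
        · exact Or.inl g2
        · exact fun _ => ⟨fun _ => g3, fun h _ => absurd rfl h⟩
        · intro p hp
          have := h (p + 3) (by omega)
          simpa using this
      · simp only [enc3_cons, List.map_cons, List.getElem?_cons_zero, List.getElem?_cons_succ]
          at g0 g1 g2 g3
        refine ⟨?_, ?_, ?_, ?_, ?_, ?_, w, by simpa using hw, ?_⟩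
        · exact Or.inr (Or.inl ⟨rfl, g0⟩)
        · refine fun _ => ⟨fun h => ?_, fun _ h => ?_⟩
          · rw [g0] at h
            exact absurd h (by simp)
          · have : a 1 = none := h
            rw [g1] at this
            exact absurd this (by simp)
        · exact Or.inr (Or.inr (Or.inl ⟨rfl, b, g1⟩))
        · refine fun _ => ⟨fun h => ?_, fun _ h => ?_⟩
          · have : a 1 = none := h
            rw [g1] at this
            exact absurd this (by simp)
          · have : a 2 = none := h
            rw [g2] at this
            exact absurd this (by simp)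
        · exact Or.inr (Or.inr (Or.inr ⟨rfl, g2⟩))
        · refine fun _ => ⟨fun h => ?_, fun h _ => absurd rfl h⟩
          have : a 2 = none := h
          rw [g2] at this
          exact absurd this (by simp)
        · intro p hp
          have := h (p + 3) (by omega)
          simpa using this

/-- The template: a fixed part, a guessed part, and blanks. -/
def template (F : List Bool) (m n : ℕ) : List ZSym :=
  F.map (fun b => some (Sum.inl b)) ++ (guessT m ++ List.replicate n none)

theorem length_template (F : List Bool) (m n : ℕ) :
    (template F m n).length = F.length + (3 * m + n) := by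
  simp [template, length_guessT]

theorem rowOK_template (F : List Bool) (m n : ℕ) (hn : 0 < n) (a : ℕ → Option A) :
    RowOK sy (template F m n) a ↔
      ∃ w : List Bool, w.length ≤ m ∧
        ∀ p < F.length + (3 * m + n), a p = ((F ++ enc3 w).map sy)[p]? := by
  induction F generalizing a with
  | nil =>
    have : template [] m n = guessT m ++ List.replicate n none := rfl
    rw [this, rowOK_guess sy m n hn]
    simp
  | cons b F ih =>
    have : template (b :: F) m n = some (Sum.inl b) :: template F m n := rfl
    rw [this, rowOK_cons, ih]
    constructor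
    · rintro ⟨h1, -, w, hw, h⟩
      refine ⟨w, hw, ?_⟩
      intro p hp
      rcases p with _ | p
      · simpa [okSym] using h1
      · have := h p (by simp at hp; omega)
        simpa using this
    · rintro ⟨w, hw, h⟩
      refine ⟨?_, fun _ => trivial, w, hw, ?_⟩
      · have := h 0 (by simp)
        simpa [okSym] using this
      · intro p hp
        have := h (p + 1) (by simp; omega)
        simpa using this

end Row

section Tab

variable (M : Flat) (kin : M.K) (q₀ : M.Q) (sy : Bool → M.A)
  (acc : M.Q → (M.K → Option M.A) → Prop)

/-- Cells of a tableau. -/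
abbrev Flat.Cell (M : Flat) : Type := M.Q × (M.K → Option M.A)

/-- The transition condition. -/
def trans (p0 pL : Bool) (d0 d1 d2 d3 d4 : M.Cell) : Prop :=
  (p0 = true → d3.1 = M.next d0.1 d0.2 ∧
    ∀ k a, M.op d0.1 d0.2 k = Op.push a → d3.2 k = some a) ∧
  ∀ k, (M.op d0.1 d0.2 k = Op.keep → d3.2 k = d1.2 k) ∧
    (M.op d0.1 d0.2 k = Op.pop → pL = false → d3.2 k = d2.2 k) ∧
    (∀ a, M.op d0.1 d0.2 k = Op.push a → pL = false → d4.2 k = d1.2 k)

/-- The local condition at a position of a tableau; `d0` is the first cell of the same row, `d1`
is the cell, `d2` is its right neighbour and `d3`, `d4` are the cells below `d1` and `d2`; the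
flags say whether the cell is in the first or last row and column. -/
def Good (t0 tL p0 pL : Bool) (z : ZSym) (d0 d1 d2 d3 d4 : M.Cell) : Prop :=
  (t0 = true → okSym sy z (d1.2 kin) ∧ (∀ k, k ≠ kin → d1.2 k = none) ∧
    (p0 = true → d1.1 = q₀)) ∧
  (t0 = true → pL = false → okAdj z (d1.2 kin) (d2.2 kin)) ∧
  (pL = true → ∀ k, d1.2 k = none) ∧
  (tL = true → p0 = true → acc d1.1 d1.2) ∧
  (tL = false → trans M p0 pL d0 d1 d2 d3 d4)

/-- Accepting tableaux. -/
def Tab (Z : List ZSym) (A : ℕ → ℕ → M.Cell) : Prop :=
  ∀ t < Z.length, ∀ p < Z.length,
    Good M kin q₀ sy acc (decide (t = 0)) (decide (t + 1 = Z.length)) (decide (p = 0))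
      (decide (p + 1 = Z.length)) (Z[p]?).join (A t 0) (A t p) (A t (p + 1)) (A (t + 1) p)
      (A (t + 1) (p + 1))

theorem Op.apply_getElem? {A : Type} (o : Op A) (l : List A) (p : ℕ) :
    (o.apply l)[p]? = match o with
      | .keep => l[p]?
      | .pop => l[p + 1]?
      | .push a => if p = 0 then some a else l[p - 1]? := by
  cases o with
  | keep => rfl
  | pop => simp [Op.apply, List.tail]; cases l <;> simp
  | push a =>
    rcases p with _ | p
    · simp [Op.apply]
    · simp [Op.apply]

/-- The row of a configuration. -/
def row (c : M.Conf) (p : ℕ) : M.Cell := (c.1, fun k => (c.2 k)[p]?)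

/-- The initial configuration with a given content of the input stack. -/
def startConf (l : List M.A) : M.Conf := (q₀, fun k => if k = kin then l else [])

/-- An accepting run gives a tableau. -/
theorem tab_of_run (Z : List ZSym) (l : List M.A)
    (hrow : RowOK sy Z (fun p => l[p]?))
    (hlen : ∀ t < Z.length, ∀ k, ((M.step^[t] (startConf M kin q₀ l)).2 k).length < Z.length)
    (hacc : acc (M.step^[Z.length - 1] (startConf M kin q₀ l)).1
      (fun k => ((M.step^[Z.length - 1] (startConf M kin q₀ l)).2 k)[0]?)) :
    Tab M kin q₀ sy acc Z (fun t p => row M (M.step^[t] (startConf M kin q₀ l)) p) := by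
  intro t ht p hp
  refine ⟨?_, ?_, ?_, ?_, ?_⟩
  · intro h
    have ht0 : t = 0 := by simpa using h
    subst ht0
    refine ⟨?_, ?_, ?_⟩
    · have := (hrow p hp).1
      simpa [row, startConf] using this
    · intro k hk
      simp [row, startConf, hk]
    · intro _
      rfl
  · intro h h'
    have ht0 : t = 0 := by simpa using h
    subst ht0
    have h'' : ¬ p + 1 = Z.length := by simpa using h'
    have := (hrow p hp).2 (by omega)
    simpa [row, startConf] using this
  · intro h k
    have hp' : p + 1 = Z.length := by simpa using h
    have := hlen t ht k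
    simp only [row]
    rw [List.getElem?_eq_none_iff]
    omega
  · intro h h'
    have ht' : t + 1 = Z.length := by simpa using h
    have hp' : p = 0 := by simpa using h'
    subst hp'
    have e : t = Z.length - 1 := by omega
    rw [e]
    exact hacc
  · intro h
    set c := M.step^[t] (startConf M kin q₀ l) with hc
    have hstep : M.step^[t + 1] (startConf M kin q₀ l) = M.step c := by
      rw [Function.iterate_succ_apply', hc]
    have hd0 : ∀ k, (row M c 0).2 k = (c.2 k).head? := by
      intro k
      simp [row, List.head?_eq_getElem?]
    have hd0' : (row M c 0).2 = fun k => (c.2 k).head? := funext hd0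
    simp only [trans, hstep]
    rw [hd0']
    have hd3 : ∀ p k, (row M (M.step c) p).2 k =
        ((M.op c.1 (fun k => (c.2 k).head?) k).apply (c.2 k))[p]? := by
      intro p k
      rfl
    refine ⟨?_, ?_⟩
    · intro hp0
      have hp0' : p = 0 := by simpa using hp0
      subst hp0'
      refine ⟨rfl, ?_⟩
      intro k a hop
      change M.op c.1 (fun k => (c.2 k).head?) k = Op.push a at hop
      rw [hd3, hop]
      rfl
    · intro k
      refine ⟨?_, ?_, ?_⟩
      · intro hop
        change M.op c.1 (fun k => (c.2 k).head?) k = Op.keep at hop
        rw [hd3, hop]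
        rfl
      · intro hop _
        change M.op c.1 (fun k => (c.2 k).head?) k = Op.pop at hop
        rw [hd3, hop, Op.apply_getElem?]
        rfl
      · intro a hop _
        change M.op c.1 (fun k => (c.2 k).head?) k = Op.push a at hop
        rw [hd3, hop, Op.apply_getElem?]
        simp [row, hc]

/-- A tableau gives an accepting run. -/
theorem run_of_tab (Z : List ZSym) (hZ : 0 < Z.length) (A : ℕ → ℕ → M.Cell)
    (hA : Tab M kin q₀ sy acc Z A) (l : List M.A) (hl : l.length < Z.length)
    (h0 : ∀ p < Z.length, (A 0 p).2 kin = l[p]?) :
    acc (M.step^[Z.length - 1] (startConf M kin q₀ l)).1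
      (fun k => ((M.step^[Z.length - 1] (startConf M kin q₀ l)).2 k)[0]?) := by
  have key : ∀ t < Z.length, (A t 0).1 = (M.step^[t] (startConf M kin q₀ l)).1 ∧
      (∀ k, ((M.step^[t] (startConf M kin q₀ l)).2 k).length < Z.length) ∧
      ∀ k, ∀ p < Z.length, (A t p).2 k = ((M.step^[t] (startConf M kin q₀ l)).2 k)[p]? := by
    intro t
    induction t with
    | zero =>
      intro _
      have hg := fun p hp => hA 0 hZ p hp
      refine ⟨?_, ?_, ?_⟩
      · exact ((hg 0 hZ).1 (by simp)).2.2 (by simp)
      · intro k
        simp only [Function.iterate_zero, id_eq, startConf]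
        split_ifs
        · exact hl
        · simpa using hZ
      · intro k p hp
        simp only [Function.iterate_zero, id_eq, startConf]
        split_ifs with hk
        · subst hk
          exact h0 p hp
        · simpa using ((hg p hp).1 (by simp)).2.1 k hk
    | succ t ih =>
      intro ht
      obtain ⟨ih1, ih2, ih3⟩ := ih (by omega)
      set c := M.step^[t] (startConf M kin q₀ l) with hc
      have hstep : M.step^[t + 1] (startConf M kin q₀ l) = M.step c := by
        rw [Function.iterate_succ_apply', hc]
      rw [hstep]
      have htops : (A t 0).2 = fun k => (c.2 k).head? := by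
        funext k
        rw [ih3 k 0 hZ, List.head?_eq_getElem?]
      have htr : ∀ p < Z.length, trans M (decide (p = 0)) (decide (p + 1 = Z.length)) (A t 0)
          (A t p) (A t (p + 1)) (A (t + 1) p) (A (t + 1) (p + 1)) := by
        intro p hp
        exact (hA t (by omega) p hp).2.2.2.2 (by simp; omega)
      have hblank : ∀ k, (A (t + 1) (Z.length - 1)).2 k = none := by
        intro k
        exact (hA (t + 1) ht (Z.length - 1) (by omega)).2.2.1 (by simp; omega) k
      have hblank0 : ∀ k, (A t (Z.length - 1)).2 k = none := by
        intro k
        exact (hA t (by omega) (Z.length - 1) (by omega)).2.2.1 (by simp; omega) k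
      have hop : ∀ k, M.op (A t 0).1 (A t 0).2 k = M.op c.1 (fun k => (c.2 k).head?) k := by
        intro k
        rw [ih1, htops]
      have hcells : ∀ k, ∀ p < Z.length, (A (t + 1) p).2 k = ((M.step c).2 k)[p]? := by
        intro k p hp
        have hs : (M.step c).2 k = (M.op c.1 (fun k => (c.2 k).head?) k).apply (c.2 k) := rfl
        rw [hs, Op.apply_getElem?, ← hop k]
        rcases hcase : M.op (A t 0).1 (A t 0).2 k with _ | _ | a
        · rw [((htr p hp).2 k).1 hcase]
          exact ih3 k p hp
        · by_cases hpL : p + 1 = Z.length
          · have e : p = Z.length - 1 := by omega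
            have hnone : (c.2 k)[p + 1]? = none := by
              rw [List.getElem?_eq_none_iff]
              have := ih2 k
              omega
            rw [e, hblank k, ← e]
            exact hnone.symm
          · rw [((htr p hp).2 k).2.1 hcase (by simp [hpL])]
            exact ih3 k (p + 1) (by omega)
        · rcases p with _ | p
          · rw [((htr 0 hp).1 (by simp)).2 k a hcase]
            rfl
          · rw [((htr p (by omega)).2 k).2.2 a hcase (by simp; omega)]
            simpa using ih3 k p (by omega)
      refine ⟨?_, ?_, hcells⟩
      · rw [((htr 0 hZ).1 (by simp)).1, ih1, htops]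
        rfl
      · intro k
        have hnone := hcells k (Z.length - 1) (by omega)
        rw [hblank k] at hnone
        have := List.getElem?_eq_none_iff.1 hnone.symm
        omega
  obtain ⟨h1, h2, h3⟩ := key (Z.length - 1) (by omega)
  have hfin := (hA (Z.length - 1) (by omega) 0 hZ).2.2.2.1 (by simp; omega) (by simp)
  rw [h1] at hfin
  have : (A (Z.length - 1) 0).2 =
      fun k => ((M.step^[Z.length - 1] (startConf M kin q₀ l)).2 k)[0]? := by
    funext k
    exact h3 k 0 hZ
  rw [this] at hfin
  exact hfin

end Tab

end Pool.Agent.Lib.PolyTime
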