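import Mathlib
import Pool.Agent.Lib.PolyTime.Closure
import Pool.Agent.Lib.PolyTime.Tableau

/-!
# Structured stack programs simulate flat machines

`IsPoly.of_flat`: a function computed by a flat machine in polynomial time is `IsPoly`.
-/

namespace Pool.Agent.Lib.PolyTime

open Function Encodable

section

variable {K σ : Type} [DecidableEq K]

/-- Sequential composition of a list of programs. -/
def seqList : List (Cmd K σ) → Cmd K σ
  | [] => .load id
  | c :: l => .seq c (seqList l)

theorem runs_seqList {I : Type} (b : I → Cmd K σ) (T : ℕ)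
    (P : List I → σ → (K → List ℕ) → Prop)
    (hstep : ∀ i l v S, P (i :: l) v S → ∃ v' S', Runs (b i) v S v' S' T ∧ P l v' S')
    (l : List I) (v : σ) (S : K → List ℕ) (h : P l v S) :
    ∃ v' S', Runs (seqList (l.map b)) v S v' S' (T * l.length + 1) ∧ P [] v' S' := by
  induction l generalizing v S with
  | nil => exact ⟨v, S, (Runs.load id v S).mono (by omega), h⟩
  | cons i l ih =>
    obtain ⟨v1, S1, h1, h2⟩ := hstep i l v S h
    obtain ⟨v2, S2, h3, h4⟩ := ih v1 S1 h2
    refine ⟨v2, S2, (h1.seq h3).mono ?_, h4⟩
    simp only [List.length_cons]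
    ring_nf
    omega

omit [DecidableEq K] in
theorem only_seqList (P : K → Prop) (l : List (Cmd K σ)) (h : ∀ c ∈ l, c.Only P) :
    (seqList l).Only P := by
  induction l with
  | nil => trivial
  | cons c l ih => exact ⟨h c (by simp), ih (fun d hd => h d (by simp [hd]))⟩

/-- Move all symbols from `k₁` to `k₂`, reversing their order and applying `g`. -/
def mvMap {A B : Type} [Encodable A] [Encodable B] (R : Lens σ (Option A)) (g : A → B)
    (k₁ k₂ : K) : Cmd K σ :=
  each R k₁ (.push k₂ (fun v => regCode ((R.get v).map g)))

theorem runs_mvMap {A B : Type} [Encodable A] [Encodable B] (R : Lens σ (Option A)) (g : A → B)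
    {k₁ k₂ : K} (hk : k₁ ≠ k₂)
    {v : σ} {S : K → List ℕ} {l : List A} (hv : R.get v = none) (h : S k₁ = l.map encode) :
    Runs (mvMap R g k₁ k₂) v S v
      (update (update S k₁ []) k₂ ((l.reverse.map g).map encode ++ S k₂))
      (3 * l.length + 2) := by
  obtain ⟨v', S', h1, h2⟩ := runs_each R k₁ (.push k₂ (fun v => regCode ((R.get v).map g))) 1
    (fun r w T => ∃ d, l = d ++ r ∧ R.put none w = v ∧
      T = update (update S k₁ (r.map encode)) k₂ ((d.reverse.map g).map encode ++ S k₂))
    (by
      rintro r w T ⟨d, -, -, rfl⟩
      rw [update_of_ne hk, update_self])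
    (by
      rintro a r w T ⟨d, hd, hw, rfl⟩
      refine ⟨_, _, Runs.push _ _ _ _, d ++ [a], by simp [hd], by simp [hw], ?_⟩
      funext k
      by_cases e2 : k = k₂
      · subst e2
        simp [regCode, update_of_ne hk.symm]
      · by_cases e1 : k = k₁
        · subst e1
          simp [update_of_ne hk]
        · simp [update_of_ne e1, update_of_ne e2])
    l v S ⟨[], by simp, R.put_eq hv, by
      simp only [List.reverse_nil, List.map_nil, List.nil_append]
      rw [← h, update_eq_self, update_eq_self]⟩
  obtain ⟨d, hd, hw, rfl⟩ := h2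
  rw [hw] at h1
  rw [List.append_nil] at hd
  subst hd
  exact h1

end

/-! ### The simulation -/

section Sim

variable {K σ : Type} [DecidableEq K] (M : Flat) [Encodable M.A]
  (L : Lens σ (M.Q × (M.K → Option M.A))) (stk : M.K → K)

/-- Look at the top of one stack. -/
def peekOne (k : M.K) : Cmd K σ :=
  .seq (.pop (stk k) (fun o v => L.snd.put (update (L.snd.get v) k (o.bind decode)) v))
    (.ite (fun v => (L.snd.get v k).isSome) (.push (stk k) (fun v => regCode (L.snd.get v k)))
      (.load id))

theorem runs_peekOne (k : M.K) (v : σ) (S : K → List ℕ) (l : List M.A)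
    (hS : S (stk k) = l.map encode) :
    Runs (peekOne M L stk k) v S (L.snd.put (update (L.snd.get v) k l.head?) v) S 3 := by
  have h1 := Runs.pop (stk k) (fun o v => L.snd.put (update (L.snd.get v) k (o.bind decode)) v)
    v S
  rcases l with _ | ⟨a, l⟩
  · rw [hS] at h1
    simp only [List.map_nil, List.head?_nil, Option.bind_none, List.tail_nil] at h1
    have e : update S (stk k) [] = S := by
      have : S (stk k) = [] := by simpa using hS
      rw [← this, update_eq_self]
    rw [e] at h1
    refine (h1.seq (Runs.iteFalse ?_ (Runs.load id _ _))).of_eq rfl rfl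
    simp
  · rw [hS] at h1
    simp only [List.map_cons, List.head?_cons, Option.bind_some, encodek, List.tail_cons] at h1
    refine (h1.seq (Runs.iteTrue ?_ (Runs.push _ _ _ _))).of_eq rfl ?_
    · simp
    · simp only [update_self, update_idem, Lens.get_put, regCode]
      have : encode a :: l.map encode = S (stk k) := by rw [hS]; rfl
      rw [this, update_eq_self]

/-- Whether an operation is a push. -/
def Op.isPush {A : Type} : Op A → Bool
  | .push _ => true
  | _ => false

/-- Whether an operation is a pop. -/
def Op.isPop {A : Type} : Op A → Bool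
  | .pop => true
  | _ => false

/-- The code of the symbol pushed. -/
def Op.code {A : Type} [Encodable A] : Op A → ℕ
  | .push a => encode a
  | _ => 0

/-- Apply the operation to one stack. -/
def opOne (k : M.K) : Cmd K σ :=
  .ite (fun v => (M.op (L.fst.get v) (L.snd.get v) k).isPush)
    (.push (stk k) (fun v => (M.op (L.fst.get v) (L.snd.get v) k).code))
    (.ite (fun v => (M.op (L.fst.get v) (L.snd.get v) k).isPop)
      (.pop (stk k) (fun _ v => v)) (.load id))

theorem runs_opOne (k : M.K) (v : σ) (S : K → List ℕ) (l : List M.A)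
    (hS : S (stk k) = l.map encode) :
    Runs (opOne M L stk k) v S v
      (update S (stk k) (((M.op (L.fst.get v) (L.snd.get v) k).apply l).map encode)) 3 := by
  cases hop : M.op (L.fst.get v) (L.snd.get v) k with
  | keep =>
    refine ((Runs.iteFalse ?_ (Runs.iteFalse ?_ (Runs.load id _ _))).mono (by omega)).of_eq rfl ?_
    · simp [hop, Op.isPush]
    · simp [hop, Op.isPop]
    · rw [Op.apply, ← hS, update_eq_self]
  | pop =>
    refine ((Runs.iteFalse ?_ (Runs.iteTrue ?_ (Runs.pop _ _ _ _))).mono (by omega)).of_eq rfl ?_
    · simp [hop, Op.isPush]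
    · simp [hop, Op.isPop]
    · rw [Op.apply, hS, List.map_tail]
  | push a =>
    refine ((Runs.iteTrue ?_ (Runs.push _ _ _ _)).mono (by omega)).of_eq rfl ?_
    · simp [hop, Op.isPush]
    · simp [hop, Op.code, Op.apply, hS]

/-- The list of stacks. -/
noncomputable def kList : List M.K := Finset.univ.toList

/-- One step of the flat machine. -/
noncomputable def stepCmd : Cmd K σ :=
  .seq (seqList ((kList M).map (peekOne M L stk)))
    (.seq (seqList ((kList M).map (opOne M L stk)))
      (.load (fun v => L.put (M.next (L.fst.get v) (L.snd.get v), fun _ => none) v)))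

/-- The number of steps of `stepCmd`. -/
noncomputable def stepCost : ℕ := 6 * (kList M).length + 3

/-- The program state represents a configuration of the flat machine. -/
def Holds (v₀ : σ) (S₀ : K → List ℕ) (c : M.Conf) (v : σ) (S : K → List ℕ) : Prop :=
  v = L.put (c.1, fun _ => none) v₀ ∧ (∀ k, S (stk k) = (c.2 k).map encode) ∧
    ∀ j, (∀ k, j ≠ stk k) → S j = S₀ j

theorem runs_stepCmd (hstk : Injective stk) (v₀ : σ) (S₀ : K → List ℕ) (c : M.Conf) (v : σ)
    (S : K → List ℕ) (h : Holds M L stk v₀ S₀ c v S) :
    ∃ v' S', Runs (stepCmd M L stk) v S v' S' (stepCost M) ∧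
      Holds M L stk v₀ S₀ (M.step c) v' S' := by
  obtain ⟨hv, hS, hS₀⟩ := h
  have hnodup : (kList M).Nodup := Finset.nodup_toList _
  have hmem : ∀ k, k ∈ kList M := fun k => by simp [kList]
  set hd : M.K → Option M.A := fun k => (c.2 k).head? with hhd
  obtain ⟨v1, S1, r1, hS1, h, hv1', h4⟩ := runs_seqList (peekOne M L stk) 3
    (fun l v' S' => S' = S ∧ ∃ h, v' = L.snd.put h v ∧ ∀ k, k ∉ l → h k = hd k)
    (by
      rintro k l v' _ ⟨rfl, h, rfl, h2⟩
      refine ⟨_, _, runs_peekOne M L stk k _ _ (c.2 k) (hS k), rfl,
        update h k (c.2 k).head?, by simp, ?_⟩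
      intro k' hk'
      by_cases e : k' = k
      · subst e
        rw [update_self]
      · rw [update_of_ne e]
        exact h2 k' (by simp [e, hk']))
    (kList M) v S ⟨rfl, L.snd.get v, by simp, fun k hk => absurd (hmem k) hk⟩
  obtain rfl : h = hd := funext fun k => h4 k (by simp)
  rw [hS1, hv1'] at r1
  set v1 := L.snd.put hd v with hv1
  have hq : L.fst.get v1 = c.1 := by
    rw [hv1, Lens.fst_get_snd_put, hv]
    simp [Lens.fst]
  have hh : L.snd.get v1 = hd := by rw [hv1, Lens.get_put]
  obtain ⟨v2, S2, r2, rfl, -, h5, -, h6⟩ := runs_seqList (opOne M L stk) 3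
    (fun l v' S' => v' = v1 ∧ l.Nodup ∧
      (∀ k, k ∉ l → S' (stk k) = ((M.step c).2 k).map encode) ∧
      (∀ k, k ∈ l → S' (stk k) = (c.2 k).map encode) ∧
      ∀ j, (∀ k, j ≠ stk k) → S' j = S₀ j)
    (by
      rintro k l v' S' ⟨rfl, hnd, h1, h2, h3⟩
      rw [List.nodup_cons] at hnd
      refine ⟨_, _, runs_opOne M L stk k v1 S' (c.2 k) (h2 k (by simp)), rfl, hnd.2, ?_, ?_, ?_⟩
      · intro k' hk'
        by_cases e : k' = k
        · subst e
          rw [update_self, hq, hh]
          rfl
        · rw [update_of_ne (fun h => e (hstk h))]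
          exact h1 k' (by simp [e, hk'])
      · intro k' hk'
        have e : k' ≠ k := by
          rintro rfl
          exact hnd.1 hk'
        rw [update_of_ne (fun h => e (hstk h))]
        exact h2 k' (by simp [hk'])
      · intro j hj
        rw [update_of_ne (hj k)]
        exact h3 j hj)
    (kList M) v1 S ⟨rfl, hnodup, fun k hk => absurd (hmem k) hk, fun k _ => hS k, hS₀⟩
  refine ⟨_, _, (r1.seq (r2.seq (Runs.load _ _ _))).mono ?_, ?_, ?_, h6⟩
  · rw [stepCost]
    omega
  · rw [hq, hh, hv1, hv]
    simp only [Lens.snd, Lens.put_put]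
    rfl
  · intro k
    exact h5 k (by simp)

/-- The simulation loop. -/
noncomputable def simCmd (halted : M.Q → Bool) : Cmd K σ :=
  .loop (fun v => !(halted (L.fst.get v))) (stepCmd M L stk)

theorem runs_simCmd (halted : M.Q → Bool) (hfix : ∀ c : M.Conf, halted c.1 = true → M.step c = c)
    (hstk : Injective stk) (v₀ : σ) (S₀ : K → List ℕ) (n : ℕ) :
    ∀ (c : M.Conf) (v : σ) (S : K → List ℕ), Holds M L stk v₀ S₀ c v S →
      halted (M.step^[n] c).1 = true →
    ∃ v' S', Runs (simCmd M L stk halted) v S v' S' ((stepCost M + 1) * n + 1) ∧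
      Holds M L stk v₀ S₀ (M.step^[n] c) v' S' := by
  have hget : ∀ (c : M.Conf) (v : σ) (S : K → List ℕ), Holds M L stk v₀ S₀ c v S →
      L.fst.get v = c.1 := by
    rintro c v S ⟨rfl, -, -⟩
    simp [Lens.fst]
  induction n with
  | zero =>
    intro c v S h hh
    refine ⟨v, S, (Runs.loopFalse ?_).mono (by omega), h⟩
    rw [hget c v S h]
    simpa using hh
  | succ n ih =>
    intro c v S h hh
    by_cases hc : halted c.1 = true
    · have hfixn : ∀ m, M.step^[m] c = c := by
        intro m
        induction m with
        | zero => rfl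
        | succ m ihm => rw [Function.iterate_succ_apply, hfix c hc, ihm]
      refine ⟨v, S, (Runs.loopFalse ?_).mono (by omega), ?_⟩
      · rw [hget c v S h, hc]
        rfl
      · rw [hfixn]
        exact h
    · obtain ⟨v1, S1, r1, h1⟩ := runs_stepCmd M L stk hstk v₀ S₀ c v S h
      rw [Function.iterate_succ_apply] at hh ⊢
      obtain ⟨v2, S2, r2, h2⟩ := ih _ v1 S1 h1 hh
      refine ⟨v2, S2, (Runs.loopTrue ?_ r1 r2).mono ?_, h2⟩
      · rw [hget c v S h]
        simpa using hc
      · ring_nf
        omega

theorem only_stepCmd (P : K → Prop) (hP : ∀ k, P (stk k)) : (stepCmd M L stk).Only P := by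
  refine ⟨only_seqList _ _ ?_, only_seqList _ _ ?_, trivial⟩
  · intro c hc
    rw [List.mem_map] at hc
    obtain ⟨k, -, rfl⟩ := hc
    exact ⟨trivial, hP k, trivial⟩
  · intro c hc
    rw [List.mem_map] at hc
    obtain ⟨k, -, rfl⟩ := hc
    exact ⟨hP k, trivial, trivial⟩

end Sim

/-- A function computed by a flat machine in polynomial time is `IsPoly`. -/
theorem IsPoly.of_flat {α A B : Type} [Encodable A] [Fintype A] [Encodable B] {X : α → Prop}
    {ea : α → List A} {F : α → List B} (M : Flat) (kin kout : M.K) (q₀ : M.Q) (g : A → M.A)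
    (dec : M.A → B) (halted : M.Q → Bool)
    (hfix : ∀ c : M.Conf, halted c.1 = true → M.step c = c) (p : Polynomial ℕ)
    (h : ∀ a, X a → ∃ n, n ≤ p.eval (ea a).length ∧
      halted (M.step^[n] (startConf M kin q₀ ((ea a).map g))).1 = true ∧
      ((M.step^[n] (startConf M kin q₀ ((ea a).map g))).2 kout).map dec = F a ∧
      ∀ k, k ≠ kout → (M.step^[n] (startConf M kin q₀ ((ea a).map g))).2 k = []) :
    IsPoly X ea F := by
  classical
  let := Fintype.toEncodable M.A
  have hlen : ∀ a, X a → (F a).length ≤ (ea a).length + p.eval (ea a).length := by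
    intro a ha
    obtain ⟨n, hn, -, h2, -⟩ := h a ha
    rw [← h2, List.length_map]
    have h3 := Flat.length_iterate M (startConf M kin q₀ ((ea a).map g)) n kout
    have h4 : ((startConf M kin q₀ ((ea a).map g)).2 kout).length ≤ (ea a).length := by
      simp only [startConf]
      split_ifs <;> simp
    omega
  refine ⟨M.K ⊕ Unit, (M.Q × (M.K → Option M.A)) × (Option A × Option M.A), inferInstance,
    inferInstance, ((q₀, fun _ => none), (none, none)),
    Polynomial.C (stepCost M + 1) * p + 6 * p + 14 * Polynomial.X + 20, ?_, ?_⟩
  · intro a ha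
    have := hlen a ha
    simp only [Polynomial.eval_add, Polynomial.eval_mul, Polynomial.eval_C, Polynomial.eval_X,
      Polynomial.eval_ofNat]
    omega
  · intro K σ _ inp out loc L h1 h2 h3 h4
    set tmp : K := loc (Sum.inr ()) with htmp
    set stk : M.K → K := fun k => loc (Sum.inl k) with hstkdef
    have hstk : Injective stk := h2.comp Sum.inl_injective
    have htmpinp : tmp ≠ inp := h3 _
    have htmpout : tmp ≠ out := h4 _
    have hstktmp : ∀ k, stk k ≠ tmp := fun k => h2.ne (by simp)
    have hstkinp : ∀ k, stk k ≠ inp := fun k => h3 _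
    have hstkout : ∀ k, stk k ≠ out := fun k => h4 _
    refine ⟨.seq (mv2 L.snd.fst inp tmp) (.seq (mv3 L.snd.fst g tmp inp (stk kin))
      (.seq (simCmd M L.fst stk halted) (.seq (mv2 L.snd.snd (stk kout) tmp)
        (.seq (mvMap L.snd.snd dec tmp out)
          (.load (fun v => L.fst.put (q₀, fun _ => none) v)))))), ?_, ?_⟩
    · refine ⟨⟨trivial, Or.inr (Or.inr ⟨_, htmp⟩), trivial⟩, ⟨trivial, ⟨Or.inl rfl,
        Or.inr (Or.inr ⟨_, rfl⟩)⟩, trivial⟩, ?_, ⟨trivial, Or.inr (Or.inr ⟨_, htmp⟩), trivial⟩,
        ⟨trivial, Or.inr (Or.inl rfl), trivial⟩, trivial⟩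
      exact only_stepCmd M L.fst stk _ (fun k => Or.inr (Or.inr ⟨_, rfl⟩))
    · intro a ha v S hv hinp hloc
      obtain ⟨n, hn, hh, hF, hempty⟩ := h a ha
      have hv1 : L.fst.get v = (q₀, fun _ => none) := L.fst_get_of hv
      have hv2 : L.snd.get v = (none, none) := L.snd_get_of hv
      have hreg1 : L.snd.fst.get v = none := L.snd.fst_get_of hv2
      have hreg2 : L.snd.snd.get v = none := L.snd.snd_get_of hv2
      have r1 := runs_mv2 L.snd.fst (k₁ := inp) (k₂ := tmp) htmpinp.symm (v := v) (S := S)
        (l := ea a) hreg1 hinp
      rw [show S tmp = [] from hloc _, List.append_nil] at r1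
      set S1 := update (update S inp []) tmp ((ea a).reverse.map encode) with hS1
      have r2 := runs_mv3 L.snd.fst g (k₁ := tmp) (k₂ := inp) (k₃ := stk kin) htmpinp
        (hstktmp kin).symm (hstkinp kin).symm (v := v) (S := S1) (l := (ea a).reverse) hreg1
        (by rw [hS1, update_self])
      have hS2 : update (update (update S1 tmp []) inp
          ((ea a).reverse.reverse.map encode ++ S1 inp)) (stk kin)
          (((ea a).reverse.reverse.map g).map encode ++ S1 (stk kin)) =
          update S (stk kin) (((ea a).map g).map encode) := by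
        funext k
        by_cases e1 : k = stk kin
        · subst e1
          rw [update_self, update_self, List.reverse_reverse, hS1, update_of_ne (hstktmp _),
            update_of_ne (hstkinp _), show S (stk kin) = [] from hloc _, List.append_nil]
        · rw [update_of_ne e1, update_of_ne e1]
          by_cases e2 : k = inp
          · subst e2
            rw [update_self, List.reverse_reverse, hS1, update_of_ne htmpinp.symm, update_self,
              List.append_nil, hinp]
          · rw [update_of_ne e2]
            by_cases e3 : k = tmp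
            · subst e3
              rw [update_self]
              exact (hloc _).symm
            · rw [update_of_ne e3, hS1, update_of_ne e3, update_of_ne e2]
      rw [hS2] at r2
      have hholds : Holds M L.fst stk v S (startConf M kin q₀ ((ea a).map g)) v
          (update S (stk kin) (((ea a).map g).map encode)) := by
        refine ⟨?_, ?_, ?_⟩
        · exact (L.fst.put_eq hv1).symm
        · intro k
          by_cases e : k = kin
          · subst e
            simp [startConf]
          · rw [update_of_ne (fun h => e (hstk h))]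
            simp only [startConf, if_neg e]
            exact hloc _
        · intro j hj
          rw [update_of_ne (hj kin)]
      obtain ⟨v3, S3, r3, hv3, hS3, hS3'⟩ := runs_simCmd M L.fst stk halted hfix hstk v S n _ v _
        hholds hh
      set c := M.step^[n] (startConf M kin q₀ ((ea a).map g)) with hc
      have hreg3 : L.snd.snd.get v3 = none := by
        rw [hv3]
        have : L.snd.get (L.fst.put (c.1, fun _ => none) v) = (none, none) := by
          rw [Lens.snd_get_fst_put]
          exact hv2
        exact L.snd.snd_get_of this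
      have r4 := runs_mv2 L.snd.snd (k₁ := stk kout) (k₂ := tmp) (hstktmp kout) (v := v3)
        (S := S3) (l := c.2 kout) hreg3 (hS3 kout)
      rw [hS3' tmp (fun k => (hstktmp k).symm), show S tmp = [] from hloc _, List.append_nil]
        at r4
      set S4 := update (update S3 (stk kout) []) tmp ((c.2 kout).reverse.map encode) with hS4
      have r5 := runs_mvMap L.snd.snd dec (k₁ := tmp) (k₂ := out) htmpout (v := v3)
        (S := S4) (l := (c.2 kout).reverse) hreg3 (by rw [hS4, update_self])
      rw [List.reverse_reverse, hF] at r5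
      refine ((r1.seq (r2.seq (r3.seq (r4.seq (r5.seq (Runs.load _ _ _)))))).of_eq ?_ ?_).mono ?_
      · rw [hv3, Lens.put_put]
        exact L.fst.put_eq hv1
      · have hout4 : S4 out = S out := by
          rw [hS4, update_of_ne htmpout.symm, update_of_ne (hstkout kout).symm,
            hS3' out (fun k => (hstkout k).symm)]
        rw [hout4]
        funext k
        by_cases e1 : k = out
        · subst e1
          rw [update_self, update_self]
        · rw [update_of_ne e1, update_of_ne e1]
          by_cases e2 : k = tmp
          · subst e2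
            rw [update_self]
            exact (hloc _).symm
          · rw [update_of_ne e2, hS4, update_of_ne e2]
            by_cases e3 : ∃ j, k = stk j
            · obtain ⟨j, rfl⟩ := e3
              by_cases e4 : j = kout
              · subst e4
                rw [update_self]
                exact (hloc _).symm
              · rw [update_of_ne (fun h => e4 (hstk h)), hS3 j, hempty j e4]
                exact (hloc _).symm
            · have e3' : ∀ j, k ≠ stk j := fun j hj => e3 ⟨j, hj⟩
              rw [update_of_ne (e3' kout), hS3' k e3']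
      · have hl1 : (c.2 kout).length ≤ (ea a).length + p.eval (ea a).length := by
          have := hlen a ha
          rw [← hF, List.length_map] at this
          exact this
        simp only [Polynomial.eval_add, Polynomial.eval_mul, Polynomial.eval_C,
          Polynomial.eval_X, Polynomial.eval_ofNat, List.length_reverse]
        have hl2 : (stepCost M + 1) * n ≤ (stepCost M + 1) * p.eval (ea a).length :=
          Nat.mul_le_mul_left _ hn
        omega

end Pool.Agent.Lib.PolyTime
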