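import Mathlib
import Pool.Agent.Lib.PolyTime.ForMark

/-!
# From structured programs to Mathlib's notion of polynomial-time computability
-/

namespace Pool.Agent.Lib.PolyTime

open Function Encodable Turing

/-- The stacks of the compiled machine: input and output stacks with alphabet `Bool`, and internal
stacks. -/
abbrev MK (ι : Type) : Type := Bool ⊕ (Fin 3 ⊕ ι)

/-- Alphabets of the compiled machine. -/
abbrev MΓ (ι : Type) : MK ι → Type
  | Sum.inl _ => Bool
  | Sum.inr _ => ℕ

/-- Codes of the symbols of the compiled machine. -/
def menc (ι : Type) : ∀ k, MΓ ι k → ℕ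
  | Sum.inl _ => fun b => encode b
  | Sum.inr _ => fun n => n

/-- Decoding the symbols of the compiled machine. -/
def mdec (ι : Type) : ∀ k, ℕ → MΓ ι k
  | Sum.inl _ => fun n => (decode n).getD false
  | Sum.inr _ => fun n => n

theorem menc_injective (ι : Type) (k : MK ι) : Injective (menc ι k) := by
  rcases k with b | k
  · exact Encodable.encode_injective
  · exact fun _ _ h => h

/-- The compiled machine of a program. -/
noncomputable def machine {ι σ : Type} [Fintype ι] [DecidableEq ι] [Fintype σ] (v₀ : σ)
    (c : Cmd (MK ι) σ) : FinTM2 :=
  letI := c.labFintype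
  { K := MK ι
    k₀ := Sum.inl true
    k₁ := Sum.inl false
    Γ := MΓ ι
    Λ := Option c.Lab
    main := some c.entry
    σ := σ
    initialState := v₀
    Γk₀Fin := (inferInstance : Fintype Bool)
    m := fun l => match l with
      | none => TM2.Stmt.halt
      | some l => c.comp (menc ι) (mdec ι) some none l }

/-- A run of the program gives a run of the machine. -/
theorem machine_outputs {ι σ : Type} [Fintype ι] [DecidableEq ι] [Fintype σ] (v₀ : σ)
    (c : Cmd (MK ι) σ) (hc : c.Pushes (fun k n => menc ι k (mdec ι k n) = n))
    {x y : List Bool} {t T : ℕ} (hT : t + 1 ≤ T)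
    (h : Exec c v₀ (update (fun _ => []) (Sum.inl true) (x.map encode)) v₀
      (update (fun _ => []) (Sum.inl false) (y.map encode)) t) :
    Nonempty (TM2OutputsInTime (machine v₀ c) (x : List Bool) (some (y : List Bool)) T) := by
  have hrepr : Repr (menc ι) (initList (machine v₀ c) x).stk
      (update (fun _ => []) (Sum.inl true) (x.map encode)) := by
    intro k
    by_cases hk : k = Sum.inl true
    · subst hk
      rw [update_self]
      have : (initList (machine v₀ c) x).stk (Sum.inl true) = x := by
        simp only [initList, machine]
        rfl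
      rw [this]
      rfl
    · rw [update_of_ne hk]
      have : (initList (machine v₀ c) x).stk k = [] := by
        simp only [initList, machine]
        exact dif_neg hk
      rw [this]
      rfl
  obtain ⟨s', hs', hst⟩ := h.steps (menc ι) (mdec ι) (machine v₀ c).m some none (fun l => rfl) hc
    (initList (machine v₀ c) x).stk hrepr
  have hhalt : (⟨none, v₀, s'⟩ : TM2.Cfg (MΓ ι) (Option c.Lab) σ) =
      haltList (machine v₀ c) y := by
    have : s' = (haltList (machine v₀ c) y).stk := by
      funext k
      have hk' := hs' k
      by_cases hk : k = Sum.inl false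
      · subst hk
        rw [update_self] at hk'
        have : (haltList (machine v₀ c) y).stk (Sum.inl false) = y := by
          simp only [haltList, machine]
          rfl
        rw [this]
        exact List.map_injective_iff.2 (menc_injective ι _) hk'
      · rw [update_of_ne hk] at hk'
        have : (haltList (machine v₀ c) y).stk k = [] := by
          simp only [haltList, machine]
          exact dif_neg hk
        rw [this]
        exact List.map_eq_nil_iff.1 hk'
    rw [this]
    rfl
  have hst2 : Steps (machine v₀ c).m ⟨some none, v₀, s'⟩ (haltList (machine v₀ c) y) 1 := by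
    refine Steps.step ?_ (Steps.refl _)
    rw [← hhalt]
    rfl
  refine ⟨⟨⟨t + 1, ?_⟩, hT⟩⟩
  exact (hst.trans hst2).iterate

/-- The identity lens. -/
def Lens.id (σ : Type) : Lens σ σ where
  get s := s
  put t _ := t
  get_put _ _ := rfl
  put_get _ := rfl
  put_put _ _ _ := rfl

theorem mdec_menc_inr (ι : Type) (k : Fin 3 ⊕ ι) (n : ℕ) :
    menc ι (Sum.inr k) (mdec ι (Sum.inr k) n) = n := rfl

theorem mdec_menc_regCode (ι : Type) (b : Bool) (o : Option Bool) :
    menc ι (Sum.inl b) (mdec ι (Sum.inl b) (regCode o)) = regCode o := by
  rcases o with _ | o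
  · rfl
  · cases o <;> rfl

theorem MK.ne_inr {ι : Type} {a b : Fin 3} (h : a ≠ b) :
    (Sum.inr (Sum.inl a) : MK ι) ≠ Sum.inr (Sum.inl b) :=
  fun e => h (Sum.inl_injective (Sum.inr_injective e))

theorem MK.ne_loc {ι : Type} (a : Fin 3) (i : ι) :
    (Sum.inr (Sum.inr i) : MK ι) ≠ Sum.inr (Sum.inl a) :=
  fun e => Sum.inr_ne_inl (Sum.inr_injective e)

/-- Structured polynomial-time computability gives polynomial-time computability in the sense of
Mathlib. -/
theorem IsPoly.toTM2 {α β : Type} {ea : α → List Bool} {eb : β → List Bool} {f : α → β}
    (h : IsPoly (fun _ => True) ea (fun a => eb (f a))) :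
    Nonempty (TM2ComputableInPolyTime ea eb f) := by
  classical
  obtain ⟨ι, τ, hι, hτ, τ₀, p, hlen, h⟩ := h
  let K := MK ι
  let σ := Option Bool × τ
  let L : Lens σ (Option Bool × τ) := Lens.id _
  let inp : K := Sum.inr (Sum.inl 0)
  let out : K := Sum.inr (Sum.inl 1)
  let tmp : K := Sum.inr (Sum.inl 2)
  let kin : K := Sum.inl true
  let kout : K := Sum.inl false
  obtain ⟨c, hc, hrun⟩ := h K σ inp out (fun i => Sum.inr (Sum.inr i)) L.snd
    (MK.ne_inr (by decide))
    (Sum.inr_injective.comp Sum.inr_injective) (MK.ne_loc _) (MK.ne_loc _)
  have n1 : kin ≠ tmp := Sum.inl_ne_inr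
  have n2 : tmp ≠ inp := MK.ne_inr (by decide)
  have n3 : out ≠ tmp := MK.ne_inr (by decide)
  have n4 : tmp ≠ kout := Sum.inr_ne_inl
  have n5 : inp ≠ out := MK.ne_inr (by decide)
  let prog : Cmd K σ := .seq (mv2 L.fst kin tmp) (.seq (mv2 L.fst tmp inp) (.seq c
    (.seq (clear L.fst inp) (.seq (mv2 L.fst out tmp) (mv2 L.fst tmp kout)))))
  have hpush : prog.Pushes (fun k n => menc ι k (mdec ι k n) = n) := by
    refine ⟨⟨trivial, ?_, trivial⟩, ⟨trivial, ?_, trivial⟩, hc.pushes ?_,
      ⟨trivial, trivial, trivial⟩, ⟨trivial, ?_, trivial⟩, ⟨trivial, ?_, trivial⟩⟩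
    · intro v
      rfl
    · intro v
      rfl
    · rintro k (rfl | rfl | ⟨i, rfl⟩) n <;> rfl
    · intro v
      rfl
    · intro v
      exact mdec_menc_regCode ι false _
  have hprog : ∀ a, ∃ t, t + 1 ≤ (p + (9 * Polynomial.X + 12) + (9 * p)).eval (ea a).length ∧
      Exec prog (none, τ₀) (update (fun _ => []) kin ((ea a).map encode)) (none, τ₀)
        (update (fun _ => []) kout ((eb (f a)).map encode)) t := by
    intro a
    have r1 := runs_mv2 L.fst n1 (v := (none, τ₀))
      (S := update (fun _ => []) kin ((ea a).map encode)) (l := ea a) rfl (update_self _ _ _)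
    have e1 : update (update (update (fun _ => []) kin ((ea a).map encode)) kin []) tmp
        ((ea a).reverse.map encode ++
          update (fun _ => []) kin ((ea a).map encode) tmp) =
        update (fun _ : K => ([] : List ℕ)) tmp ((ea a).reverse.map encode) := by
      rw [update_idem, update_of_ne n1.symm, List.append_nil]
      congr 1
      exact update_eq_self kin (fun _ : K => ([] : List ℕ))
    rw [e1] at r1
    have r2 := runs_mv2 L.fst n2 (v := (none, τ₀))
      (S := update (fun _ => []) tmp ((ea a).reverse.map encode)) (l := (ea a).reverse) rfl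
      (update_self _ _ _)
    have e2 : update (update (update (fun _ => []) tmp ((ea a).reverse.map encode)) tmp []) inp
        ((ea a).reverse.reverse.map encode ++
          update (fun _ => []) tmp ((ea a).reverse.map encode) inp) =
        update (fun _ : K => ([] : List ℕ)) inp ((ea a).map encode) := by
      rw [update_idem, update_of_ne n2.symm, List.append_nil, List.reverse_reverse]
      congr 1
      exact update_eq_self tmp (fun _ : K => ([] : List ℕ))
    rw [e2] at r2
    have r3 := hrun a trivial (none, τ₀) (update (fun _ => []) inp ((ea a).map encode)) rfl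
      (update_self _ _ _) (fun i => update_of_ne (MK.ne_loc _ _) _ _)
    rw [update_of_ne n5.symm, List.append_nil] at r3
    have r4 := runs_clear L.fst (k := inp) (v := (none, τ₀))
      (S := update (update (fun _ => []) inp ((ea a).map encode)) out ((eb (f a)).map encode))
      (l := ea a) rfl (by rw [update_of_ne n5, update_self])
    have e4 : update (update (update (fun _ => []) inp ((ea a).map encode)) out
        ((eb (f a)).map encode)) inp [] =
        update (fun _ : K => ([] : List ℕ)) out ((eb (f a)).map encode) := by
      rw [update_comm n5.symm, update_idem]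
      congr 1
      exact update_eq_self inp (fun _ : K => ([] : List ℕ))
    rw [e4] at r4
    have r5 := runs_mv2 L.fst n3 (v := (none, τ₀))
      (S := update (fun _ => []) out ((eb (f a)).map encode)) (l := eb (f a)) rfl
      (update_self _ _ _)
    have e5 : update (update (update (fun _ => []) out ((eb (f a)).map encode)) out []) tmp
        ((eb (f a)).reverse.map encode ++
          update (fun _ => []) out ((eb (f a)).map encode) tmp) =
        update (fun _ : K => ([] : List ℕ)) tmp ((eb (f a)).reverse.map encode) := by
      rw [update_idem, update_of_ne n3.symm, List.append_nil]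
      congr 1
      exact update_eq_self out (fun _ : K => ([] : List ℕ))
    rw [e5] at r5
    have r6 := runs_mv2 L.fst n4 (v := (none, τ₀))
      (S := update (fun _ => []) tmp ((eb (f a)).reverse.map encode))
      (l := (eb (f a)).reverse) rfl (update_self _ _ _)
    have e6 : update (update (update (fun _ => []) tmp ((eb (f a)).reverse.map encode)) tmp [])
        kout ((eb (f a)).reverse.reverse.map encode ++
          update (fun _ => []) tmp ((eb (f a)).reverse.map encode) kout) =
        update (fun _ : K => ([] : List ℕ)) kout ((eb (f a)).map encode) := by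
      rw [update_idem, update_of_ne n4.symm, List.append_nil, List.reverse_reverse]
      congr 1
      exact update_eq_self tmp (fun _ : K => ([] : List ℕ))
    rw [e6] at r6
    obtain ⟨t, ht, hex⟩ := r1.seq (r2.seq (r3.seq (r4.seq (r5.seq r6))))
    refine ⟨t, ?_, hex⟩
    have hl := hlen a trivial
    simp only [List.length_reverse] at ht
    simp only [Polynomial.eval_add, Polynomial.eval_mul, Polynomial.eval_X,
      Polynomial.eval_ofNat]
    dsimp only at hl
    omega
  have hout : ∀ a, Nonempty (TM2OutputsInTime (machine (none, τ₀) prog)
      ((ea a : List Bool)) (some (eb (f a) : List Bool))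
      ((p + (9 * Polynomial.X + 12) + (9 * p)).eval (ea a).length)) := by
    intro a
    obtain ⟨t, ht, hex⟩ := hprog a
    exact machine_outputs (none, τ₀) prog hpush ht hex
  refine ⟨{ tm := machine (none, τ₀) prog
            inputAlphabet := Equiv.refl Bool
            outputAlphabet := Equiv.refl Bool
            time := p + (9 * Polynomial.X + 12) + (9 * p)
            outputsFun := fun a => Classical.choice ?_ }⟩
  have e : ∀ l : List Bool, List.map (Equiv.refl Bool).invFun l = l := List.map_id
  have key : ∀ x y : List Bool, x = ea a → y = eb (f a) →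
      Nonempty (TM2OutputsInTime (machine (none, τ₀) prog) (x : List Bool)
        (some (y : List Bool))
        ((p + (9 * Polynomial.X + 12) + (9 * p)).eval (ea a).length)) := by
    rintro x y rfl rfl
    exact hout a
  exact key _ _ (e _) (e _)

end Pool.Agent.Lib.PolyTime
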