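import Mathlib
import Pool.Prelude.Def_F_458e953d
import Pool.Agent.Lib.PolyTime.Tableau
import Pool.Agent.Lib.PolyTime.Loop
import Pool.Agent.Lib.PolyTime.ToTM2

/-!
# Problems in NP as tableau problems
-/

namespace Pool.Agent.Lib.PolyTime

open Function Turing N68a2faeb

/-! ### Encodings -/

theorem bitEncode_listBool (x : List Bool) : N487b59b3.bitEncode x = enc3 x := by
  change ((x.map N487b59b3.bitEncode).map N487b59b3.delimit).flatten = _
  rw [enc3, List.flatMap_def, List.map_map]
  rfl

theorem bitEncode_pair (x w : List Bool) :
    N487b59b3.bitEncode (x, w) = N487b59b3.delimit (enc3 x) ++ enc3 w := by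
  rw [← bitEncode_listBool, ← bitEncode_listBool]
  rfl

/-- The fixed part of the encoding of a pair `(x, w)`. -/
def fixedPart (x : List Bool) : List Bool := N487b59b3.delimit (enc3 x)

theorem length_fixedPart (x : List Bool) : (fixedPart x).length = 6 * x.length + 1 := by
  rw [fixedPart, N487b59b3.length_delimit, length_enc3]
  omega

theorem fixedPart_eq (x : List Bool) : fixedPart x =
    x.flatMap (fun b => [true, true, true, b, true, false]) ++ [false] := by
  induction x with
  | nil => rfl
  | cons b x ih =>
    rw [fixedPart, enc3_cons]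
    simp only [N487b59b3.delimit]
    rw [show N487b59b3.delimit (enc3 x) = fixedPart x from rfl, ih]
    simp

/-! ### Decoding the input -/

/-- Residues modulo three. -/
def c3 (n : ℕ) : Fin 3 := ⟨n % 3, Nat.mod_lt _ (by decide)⟩

theorem c3_succ (n : ℕ) : c3 (n + 1) = c3 n + 1 := by
  apply Fin.ext
  simp only [c3, Fin.val_add]
  change (n + 1) % 3 = (n % 3 + 1) % 3
  omega

theorem c3_mul (n : ℕ) : c3 (3 * n) = 0 := by
  apply Fin.ext
  simp [c3]

/-- The automaton used for decoding. -/
def decStep (q : Fin 3 × Option (Fin 3 × Bool)) (s : Bool × Bool) :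
    Fin 3 × Option (Fin 3 × Bool) :=
  (q.1 + 1, if s.2 then some (q.1, s.1) else q.2)

theorem foldl_decStep (y : List Bool) (i : ℕ) :
    (mark (fun a b => (a, b)) y i).foldl decStep (0, none) =
      (c3 y.length, (y[i]?).map (fun b => (c3 i, b))) := by
  induction y using List.reverseRecOn with
  | nil => simp [mark, c3]
  | append_singleton y a ih =>
    have h1 : mark (fun a b => (a, b)) (y ++ [a]) i =
        mark (fun a b => (a, b)) y i ++ [(a, decide (y.length = i))] := by
      simp [mark, List.mapIdx_append]
    rw [h1, List.foldl_append, ih]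
    simp only [List.foldl_cons, List.foldl_nil, decStep, List.length_append,
      List.length_singleton, c3_succ]
    refine Prod.ext rfl ?_
    by_cases hi : y.length = i
    · subst hi
      simp
    · by_cases hlt : i < y.length
      · simp [hi, List.getElem?_append_left hlt]
      · have h3 : (y ++ [a])[i]? = none := by
          rw [List.getElem?_eq_none_iff]
          simp
          omega
        have h4 : y[i]? = none := by
          rw [List.getElem?_eq_none_iff]
          omega
        rw [h3, h4]
        simp [hi]

/-- The contribution of a position. -/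
def decOut : Fin 3 × Option (Fin 3 × Bool) → List Bool
  | (_, some (c, b)) => if c = 1 then [b] else []
  | (_, none) => []

theorem dec_enc3 (x : List Bool) :
    (List.range (enc3 x).length).flatMap
      (fun i => decOut ((mark (fun a b => (a, b)) (enc3 x) i).foldl decStep (0, none))) = x := by
  have key : ∀ x : List Bool, (List.range (enc3 x).length).flatMap
      (fun i => (((enc3 x)[i]?).map (fun b => (c3 i, b))).elim []
        (fun q => if q.1 = 1 then [q.2] else [])) = x := by
    intro x
    induction x using List.reverseRecOn with
    | nil => rfl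
    | append_singleton x a ih =>
      have e : enc3 (x ++ [a]) = enc3 x ++ [true, a, false] := by
        simp [enc3]
      have hl : (enc3 x).length = 3 * x.length := length_enc3 x
      have hl' : (enc3 (x ++ [a])).length = (enc3 x).length + 1 + 1 + 1 := by
        rw [e]
        simp
      rw [hl', List.range_succ, List.range_succ, List.range_succ, List.flatMap_append,
        List.flatMap_append, List.flatMap_append]
      have h1 : (List.range (enc3 x).length).flatMap
          (fun i => (((enc3 (x ++ [a]))[i]?).map (fun b => (c3 i, b))).elim []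
            (fun q => if q.1 = 1 then [q.2] else [])) = x := by
        conv_rhs => rw [← ih]
        rw [List.flatMap_def, List.flatMap_def]
        congr 1
        apply List.map_congr_left
        intro i hi
        rw [List.mem_range] at hi
        rw [e, List.getElem?_append_left hi]
      rw [h1]
      have hc0 : c3 (enc3 x).length = 0 := by
        rw [hl]
        exact c3_mul _
      simp only [List.flatMap_cons, List.flatMap_nil, List.append_nil, e]
      rw [List.getElem?_append_right (by omega), List.getElem?_append_right (by omega),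
        List.getElem?_append_right (by omega)]
      have e0 : (enc3 x).length - (enc3 x).length = 0 := by omega
      have e1 : (enc3 x).length + 1 - (enc3 x).length = 1 := by omega
      have e2 : (enc3 x).length + 1 + 1 - (enc3 x).length = 2 := by omega
      rw [e0, e1, e2]
      simp only [c3_succ, hc0]
      simp
  conv_rhs => rw [← key x]
  rw [List.flatMap_def, List.flatMap_def]
  congr 1
  apply List.map_congr_left
  intro i _
  rw [foldl_decStep]
  rcases (enc3 x)[i]? with _ | b <;> rfl

/-- Decoding is polynomial-time. -/
theorem isPoly_decode {B : Type} [Encodable B] {F : List Bool → List B}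
    (hF : IsPoly (fun _ => True) (fun x : List Bool => x) F) :
    IsPoly (fun _ => True) enc3 F := by
  have h : IsPoly (fun _ => True) enc3 (fun x : List Bool => x) := by
    have h1 := IsPoly.forMark (X := fun _ : List Bool => True) (ea := enc3)
      (fun (a : Bool) (b : Bool) => (a, b))
      (G := fun x i => decOut ((mark (fun a b => (a, b)) (enc3 x) i).foldl decStep (0, none)))
      (IsPoly.out decStep (0, none) decOut)
    exact h1.congr (fun x _ => dec_enc3 x)
  exact IsPoly.comp (φ := fun x => x) hF h (fun _ _ => trivial)

/-- Encoding is polynomial-time. -/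
theorem isPoly_encode {α A : Type} [Encodable A] {X : α → Prop} {ea : α → List A}
    {F : α → List Bool} (hF : IsPoly X ea F) : IsPoly X ea (fun a => enc3 (F a)) :=
  IsPoly.comp (Z := fun _ => True) (eb := fun x : List Bool => x)
    (IsPoly.flatMap (fun b => [true, b, false])) hF (fun _ _ => trivial)

/-- A criterion for polynomial-time computability in the sense of the Prelude. -/
theorem isPolyTime_of_isPoly {f : List Bool → List Bool}
    (hf : IsPoly (fun _ => True) (fun x : List Bool => x) f) : IsPolyTime f := by
  have h : IsPoly (fun _ => True) (N487b59b3.bitEncode : List Bool → List Bool)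
      (fun x => N487b59b3.bitEncode (f x)) := by
    have h1 : IsPoly (fun _ => True) enc3 (fun x => enc3 (f x)) :=
      isPoly_decode (isPoly_encode hf)
    refine (h1.congr (fun x _ => (bitEncode_listBool (f x)).symm)).congr_in ?_
    exact fun x _ => (bitEncode_listBool x).symm
  exact IsPoly.toTM2 h

/-! ### Templates -/

/-- The template of an input. -/
def templateOf (p B : Polynomial ℕ) (x : List Bool) : List ZSym :=
  template (fixedPart x) (p.eval x.length) (B.eval x.length)

theorem isPoly_templateOf (p B : Polynomial ℕ) :
    IsPoly (fun _ => True) (fun x : List Bool => x) (templateOf p B) := by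
  have h1 : IsPoly (fun _ => True) (fun x : List Bool => x) (fun x =>
      x.flatMap (fun b => ([some (Sum.inl true), some (Sum.inl true), some (Sum.inl true),
        some (Sum.inl b), some (Sum.inl true), some (Sum.inl false)] : List ZSym))) :=
    IsPoly.flatMap _
  have h2 : IsPoly (fun _ => True) (fun x : List Bool => x) (fun _ =>
      ([some (Sum.inl false)] : List ZSym)) := IsPoly.const _ _ _
  have h3 := IsPoly.rep (fun _ => True) (fun x : List Bool => x) p
    ([some (Sum.inr 0), some (Sum.inr 1), some (Sum.inr 2)] : List ZSym)
  have h4 := IsPoly.rep (fun _ => True) (fun x : List Bool => x) B ([none] : List ZSym)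
  refine ((h1.append h2).append (h3.append h4)).congr ?_
  intro x _
  rw [templateOf, template, fixedPart_eq]
  congr 1
  · rw [List.map_append, List.map_flatMap]
    rfl
  · congr 1
    generalize B.eval x.length = n
    induction n with
    | zero => rfl
    | succ n ih => simp [List.replicate_succ]

/-! ### The machine -/

section Machine

variable {R : List Bool × List Bool → Bool}
  (TC : TM2ComputableInPolyTime (N487b59b3.bitEncode : List Bool × List Bool → List Bool)
    (N487b59b3.bitEncode : Bool → List Bool) R)

/-- Symbols of the flat machine for input bits. -/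
def vsy (b : Bool) : FA TC.tm := Sum.inr (TC.inputAlphabet.symm b)

/-- Initial state. -/
noncomputable def vq₀ : (flat TC.tm).Q :=
  (⟨some (TC.tm.m TC.tm.main), stm_some_m TC.tm _⟩, TC.tm.initialState)

/-- Acceptance. -/
def vacc (_ : (flat TC.tm).Q) (h : (flat TC.tm).K → Option (flat TC.tm).A) : Prop :=
  (h TC.tm.k₁).bind (val TC.tm TC.tm.k₁) = some (TC.outputAlphabet.symm true)

/-- The time bound of the flat machine, as a function of the length of its input. -/
noncomputable def vtime : Polynomial ℕ := Polynomial.C (stepBound TC.tm) * TC.time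

theorem flat_halted (c : (flat TC.tm).Conf) (h : c.1.1.1 = none) (n : ℕ) :
    (flat TC.tm).step^[n] c = c := by
  have h1 : (flat TC.tm).step c = c := by
    obtain ⟨⟨⟨o, ho⟩, v⟩, T⟩ := c
    dsimp only at h
    subst h
    rfl
  induction n with
  | zero => rfl
  | succ n ih => rw [Function.iterate_succ_apply, h1, ih]

theorem run_spec (x w : List Bool) :
    ∃ s, s ≤ (vtime TC).eval (fixedPart x ++ enc3 w).length ∧ ∀ n, s ≤ n →
      (flat TC.tm).step^[n] (startConf (flat TC.tm) TC.tm.k₀ (vq₀ TC)
          ((fixedPart x ++ enc3 w).map (vsy TC))) =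
        (flat TC.tm).step^[s] (startConf (flat TC.tm) TC.tm.k₀ (vq₀ TC)
          ((fixedPart x ++ enc3 w).map (vsy TC))) ∧
      (vacc TC ((flat TC.tm).step^[n] (startConf (flat TC.tm) TC.tm.k₀ (vq₀ TC)
          ((fixedPart x ++ enc3 w).map (vsy TC)))).1
        (fun k => (((flat TC.tm).step^[n] (startConf (flat TC.tm) TC.tm.k₀ (vq₀ TC)
          ((fixedPart x ++ enc3 w).map (vsy TC)))).2 k)[0]?) ↔ R (x, w) = true) := by
  have hout := TC.outputsFun (x, w)
  have hn₀ := hout.evals_in_steps
  have hle := hout.steps_le_m
  generalize hout.steps = n₀ at hn₀ hle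
  rw [bitEncode_pair] at hn₀ hle
  change n₀ ≤ TC.time.eval (fixedPart x ++ enc3 w).length at hle
  obtain ⟨s, hs, hmicro⟩ := micro_iterate TC.tm n₀ _ _ hn₀
  set c₀ := startConf (flat TC.tm) TC.tm.k₀ (vq₀ TC) ((fixedPart x ++ enc3 w).map (vsy TC))
    with hc₀
  have hsim0 : Sim TC.tm c₀ (toMicro TC.tm (initList TC.tm
      (List.map TC.inputAlphabet.invFun (N487b59b3.delimit (enc3 x) ++ enc3 w)))) := by
    refine ⟨rfl, rfl, ?_⟩
    intro (k : TC.tm.K)
    by_cases hk : k = TC.tm.k₀
    · subst hk
      have e1 : c₀.2 TC.tm.k₀ = (fixedPart x ++ enc3 w).map (vsy TC) := by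
        rw [hc₀]
        exact if_pos rfl
      have e2 : (toMicro TC.tm (initList TC.tm (List.map TC.inputAlphabet.invFun
          (N487b59b3.delimit (enc3 x) ++ enc3 w)))).2.2 TC.tm.k₀ =
          List.map TC.inputAlphabet.invFun (N487b59b3.delimit (enc3 x) ++ enc3 w) := by
        simp [toMicro, initList]
      rw [e1, e2, List.map_map, List.map_map]
      apply List.map_congr_left
      intro b _
      simp [vsy, val]
    · have e1 : c₀.2 k = [] := by
        rw [hc₀]
        exact if_neg hk
      have e2 : (toMicro TC.tm (initList TC.tm (List.map TC.inputAlphabet.invFun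
          (N487b59b3.delimit (enc3 x) ++ enc3 w)))).2.2 k = [] := by
        simp only [toMicro, initList]
        exact dif_neg hk
      rw [e1, e2]
      rfl
  have hsim := sim_iterate TC.tm s c₀ _ hsim0
  rw [hmicro] at hsim
  have hhalt : ((flat TC.tm).step^[s] c₀).1.1.1 = none := hsim.1
  refine ⟨s, ?_, ?_⟩
  · rw [vtime, Polynomial.eval_mul, Polynomial.eval_C]
    exact hs.trans (Nat.mul_le_mul_left _ hle)
  · intro n hn
    have hstep : (flat TC.tm).step^[n] c₀ = (flat TC.tm).step^[s] c₀ := by
      obtain ⟨d, rfl⟩ := Nat.exists_eq_add_of_le hn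
      rw [Nat.add_comm, Function.iterate_add_apply, flat_halted TC _ hhalt]
    refine ⟨hstep, ?_⟩
    rw [hstep]
    have h3 := hsim.2.2 TC.tm.k₁
    have e2 : (toMicro TC.tm (haltList TC.tm (List.map TC.outputAlphabet.invFun
        (N487b59b3.bitEncode (R (x, w)))))).2.2 TC.tm.k₁ =
        [TC.outputAlphabet.symm (R (x, w))] := by
      show (haltList TC.tm _).stk TC.tm.k₁ = _
      simp only [haltList]
      rw [dif_pos trivial]
      rfl
    rw [e2] at h3
    have h4 : ((((flat TC.tm).step^[s] c₀).2 TC.tm.k₁)[0]?).bind (val TC.tm TC.tm.k₁) =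
        some (TC.outputAlphabet.symm (R (x, w))) := by
      have h5 := sim_head TC.tm h3
      have h6 : ∀ l : List (FA TC.tm), l[0]? = l.head? := fun l =>
        List.head?_eq_getElem?.symm
      exact (congrArg (fun o => Option.bind o (val TC.tm TC.tm.k₁)) (h6 _)).trans h5
    constructor
    · intro hacc
      have h6 : some (TC.outputAlphabet.symm (R (x, w))) =
          some (TC.outputAlphabet.symm true) := h4.symm.trans hacc
      exact TC.outputAlphabet.symm.injective (Option.some_injective _ h6)
    · intro hR
      rw [hR] at h4
      exact h4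

/-- The number of blanks. -/
noncomputable def vblank (p : Polynomial ℕ) : Polynomial ℕ :=
  (vtime TC).comp (6 * Polynomial.X + 1 + 3 * p) + 2

theorem eval_vblank (p : Polynomial ℕ) (n : ℕ) :
    (vblank TC p).eval n = (vtime TC).eval (6 * n + 1 + 3 * p.eval n) + 2 := by
  simp [vblank, Polynomial.eval_comp]

/-- The Cook-Levin theorem: an input is in the language iff its template has an accepting
tableau. -/
theorem tab_iff (p : Polynomial ℕ) (x : List Bool) :
    (∃ A, Tab (flat TC.tm) TC.tm.k₀ (vq₀ TC) (vsy TC) (vacc TC)
      (templateOf p (vblank TC p) x) A) ↔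
      ∃ w : List Bool, w.length ≤ p.eval x.length ∧ R (x, w) = true := by
  set Z := templateOf p (vblank TC p) x with hZ
  have hZlen : Z.length = (fixedPart x).length +
      (3 * p.eval x.length + (vblank TC p).eval x.length) := length_template _ _ _
  have hB := eval_vblank TC p x.length
  have hF := length_fixedPart x
  have hbound : ∀ w : List Bool, w.length ≤ p.eval x.length →
      (vtime TC).eval (fixedPart x ++ enc3 w).length ≤
        (vtime TC).eval (6 * x.length + 1 + 3 * p.eval x.length) := by
    intro w hw
    apply eval_mono
    rw [List.length_append, hF, length_enc3]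
    omega
  have hlenl : ∀ w : List Bool, w.length ≤ p.eval x.length →
      ((fixedPart x ++ enc3 w).map (vsy TC)).length ≤
        6 * x.length + 1 + 3 * p.eval x.length := by
    intro w hw
    rw [List.length_map, List.length_append, hF, length_enc3]
    omega
  constructor
  · rintro ⟨A, hA⟩
    have hpos : 0 < Z.length := by omega
    have hrow : RowOK (vsy TC) Z (fun p => (A 0 p).2 TC.tm.k₀) := by
      intro q hq
      have hg := hA 0 hpos q hq
      refine ⟨(hg.1 (by simp)).1, ?_⟩
      intro hq'
      exact hg.2.1 (by simp) (by simp; omega)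
    obtain ⟨w, hw, hrow'⟩ := (rowOK_template (vsy TC) (fixedPart x) (p.eval x.length)
      ((vblank TC p).eval x.length) (by omega) _).1 hrow
    refine ⟨w, hw, ?_⟩
    obtain ⟨s, hs, hspec⟩ := run_spec TC x w
    have hsb := hbound w hw
    have hll := hlenl w hw
    refine ((hspec (Z.length - 1) (by omega)).2).1 ?_
    have hltZ : 6 * x.length + 1 + 3 * p.eval x.length < Z.length := by omega
    refine run_of_tab (flat TC.tm) TC.tm.k₀ (vq₀ TC) (vsy TC) (vacc TC) Z hpos A hA _
      (lt_of_le_of_lt hll hltZ) ?_
    intro q hq
    exact hrow' q (by omega)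
  · rintro ⟨w, hw, hR⟩
    obtain ⟨s, hs, hspec⟩ := run_spec TC x w
    have hsb := hbound w hw
    have hll := hlenl w hw
    refine ⟨_, tab_of_run (flat TC.tm) TC.tm.k₀ (vq₀ TC) (vsy TC) (vacc TC) Z
      ((fixedPart x ++ enc3 w).map (vsy TC)) ?_ ?_ ?_⟩
    · refine (rowOK_template (vsy TC) (fixedPart x) (p.eval x.length)
        ((vblank TC p).eval x.length) (by omega) _).2 ⟨w, hw, fun q _ => rfl⟩
    · intro t ht (k : TC.tm.K)
      have hstart : ((startConf (flat TC.tm) TC.tm.k₀ (vq₀ TC)
          ((fixedPart x ++ enc3 w).map (vsy TC))).2 k).length ≤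
            6 * x.length + 1 + 3 * p.eval x.length := by
        by_cases hk : k = TC.tm.k₀
        · have : (startConf (flat TC.tm) TC.tm.k₀ (vq₀ TC)
            ((fixedPart x ++ enc3 w).map (vsy TC))).2 k =
              (fixedPart x ++ enc3 w).map (vsy TC) := if_pos hk
          rw [this]
          exact hll
        · have : (startConf (flat TC.tm) TC.tm.k₀ (vq₀ TC)
            ((fixedPart x ++ enc3 w).map (vsy TC))).2 k = [] := if_neg hk
          rw [this]
          simp
      by_cases hts : t ≤ s
      · have := (flat TC.tm).length_iterate (startConf (flat TC.tm) TC.tm.k₀ (vq₀ TC)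
          ((fixedPart x ++ enc3 w).map (vsy TC))) t k
        omega
      · rw [(hspec t (by omega)).1]
        have := (flat TC.tm).length_iterate (startConf (flat TC.tm) TC.tm.k₀ (vq₀ TC)
          ((fixedPart x ++ enc3 w).map (vsy TC))) s k
        omega
    · exact ((hspec (Z.length - 1) (by omega)).2).2 hR

theorem two_le_length_templateOf (p : Polynomial ℕ) (x : List Bool) :
    2 ≤ (templateOf p (vblank TC p) x).length := by
  rw [templateOf, length_template, eval_vblank]
  omega

end Machine

end Pool.Agent.Lib.PolyTime
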