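import Mathlib
import Pool.Prelude.Def_F_458e953d
import Pool.Agent.Lib.PolyTime.FlatSim
import Pool.Agent.Lib.PolyTime.CookLevin

section

/-!
# Polynomial-time Turing machines are structured stack programs

Consequences: polynomial-time functions are closed under composition and pairing, and NP is closed
under polynomial-time many-one reductions.
-/

namespace Pool.Agent.Lib.PolyTime

open Function Encodable Turing N68a2faeb

/-! ### Turing machines as programs -/

theorem flat_step_halted (tm : FinTM2) (c : (flat tm).Conf) (h : c.1.1.1 = none) :
    (flat tm).step c = c := by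
  obtain ⟨⟨⟨o, ho⟩, v⟩, T⟩ := c
  dsimp only at h
  subst h
  rfl

/-- A function computed by a Turing machine in polynomial time is `IsPoly`. -/
theorem IsPoly.of_tm2 {α β : Type} {ea : α → List Bool} {eb : β → List Bool} {f : α → β}
    (TC : TM2ComputableInPolyTime ea eb f) :
    IsPoly (fun _ => True) ea (fun a => eb (f a)) := by
  classical
  refine IsPoly.of_flat (flat TC.tm) TC.tm.k₀ TC.tm.k₁
    (⟨some (TC.tm.m TC.tm.main), stm_some_m TC.tm _⟩, TC.tm.initialState)
    (fun b => (Sum.inr (TC.inputAlphabet.symm b) : FA TC.tm))
    (fun s => match val TC.tm TC.tm.k₁ s with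
      | some s => TC.outputAlphabet s
      | none => false)
    (fun q => decide (q.1.1 = none)) ?_
    (Polynomial.C (stepBound TC.tm) * TC.time) ?_
  · intro c hc
    exact flat_step_halted TC.tm c (by simpa using hc)
  · intro a _
    have hout := TC.outputsFun a
    have hn₀ := hout.evals_in_steps
    have hle := hout.steps_le_m
    generalize hout.steps = n₀ at hn₀ hle
    change n₀ ≤ TC.time.eval (ea a).length at hle
    obtain ⟨s, hs, hmicro⟩ := micro_iterate TC.tm n₀ _ _ hn₀
    set q₀ : (flat TC.tm).Q :=
      (⟨some (TC.tm.m TC.tm.main), stm_some_m TC.tm _⟩, TC.tm.initialState) with hq₀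
    set sy : Bool → (flat TC.tm).A := fun b => (Sum.inr (TC.inputAlphabet.symm b) : FA TC.tm)
      with hsy
    set c₀ := startConf (flat TC.tm) TC.tm.k₀ q₀ ((ea a).map sy) with hc₀
    have hsim0 : Sim TC.tm c₀ (toMicro TC.tm (initList TC.tm
        (List.map TC.inputAlphabet.invFun (ea a)))) := by
      refine ⟨rfl, rfl, ?_⟩
      intro (k : TC.tm.K)
      by_cases hk : k = TC.tm.k₀
      · subst hk
        have e1 : c₀.2 TC.tm.k₀ = (ea a).map sy := by
          rw [hc₀]
          exact if_pos rfl
        have e2 : (toMicro TC.tm (initList TC.tm (List.map TC.inputAlphabet.invFun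
            (ea a)))).2.2 TC.tm.k₀ = List.map TC.inputAlphabet.invFun (ea a) := by
          simp [toMicro, initList]
        rw [e1, e2]
        have e3 : ∀ l : List Bool, (l.map (fun b => (Sum.inr (TC.inputAlphabet.symm b) :
            FA TC.tm))).map (val TC.tm TC.tm.k₀) =
            (l.map TC.inputAlphabet.invFun).map some := by
          intro l
          rw [List.map_map, List.map_map]
          apply List.map_congr_left
          intro b _
          simp [val]
        exact e3 _
      · have e1 : c₀.2 k = [] := by
          rw [hc₀]
          exact if_neg hk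
        have e2 : (toMicro TC.tm (initList TC.tm (List.map TC.inputAlphabet.invFun
            (ea a)))).2.2 k = [] := by
          simp only [toMicro, initList]
          exact dif_neg hk
        rw [e1, e2]
        rfl
    have hsim := sim_iterate TC.tm s c₀ _ hsim0
    rw [hmicro] at hsim
    have hhalt : ((flat TC.tm).step^[s] c₀).1.1.1 = none := hsim.1
    refine ⟨s, ?_, ?_, ?_, ?_⟩
    · rw [Polynomial.eval_mul, Polynomial.eval_C]
      exact hs.trans (Nat.mul_le_mul_left _ hle)
    · simpa using hhalt
    · have h3 := hsim.2.2 TC.tm.k₁
      have e2 : (toMicro TC.tm (haltList TC.tm (List.map TC.outputAlphabet.invFun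
          (eb (f a))))).2.2 TC.tm.k₁ = List.map TC.outputAlphabet.invFun (eb (f a)) := by
        change (haltList TC.tm _).stk TC.tm.k₁ = _
        simp only [haltList]
        rw [dif_pos trivial]
        rfl
      rw [e2] at h3
      have h4 := congrArg (List.map (fun o : Option (TC.tm.Γ TC.tm.k₁) => match o with
        | some s => TC.outputAlphabet s
        | none => false)) h3
      rw [List.map_map, List.map_map, List.map_map] at h4
      refine h4.trans ?_
      have : ∀ l : List Bool, List.map ((fun o : Option (TC.tm.Γ TC.tm.k₁) => match o with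
        | some s => TC.outputAlphabet s
        | none => false) ∘ some ∘ TC.outputAlphabet.invFun) l = l := by
        intro l
        induction l with
        | nil => rfl
        | cons b l ih =>
          rw [List.map_cons, ih]
          simp
      exact this _
    · intro (k : TC.tm.K) hk
      have h3 := hsim.2.2 k
      have e2 : (toMicro TC.tm (haltList TC.tm (List.map TC.outputAlphabet.invFun
          (eb (f a))))).2.2 k = [] := by
        change (haltList TC.tm _).stk k = _
        simp only [haltList]
        exact dif_neg hk
      rw [e2, List.map_nil] at h3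
      exact List.map_eq_nil_iff.1 h3

/-- Polynomial-time computability in the sense of the Prelude is the same as structured
polynomial-time computability. -/
theorem isPolyTime_iff {α β : Type} [N487b59b3 α] [N487b59b3 β] {f : α → β} :
    IsPolyTime f ↔ IsPoly (fun _ => True) (N487b59b3.bitEncode : α → List Bool)
      (fun a => N487b59b3.bitEncode (f a)) := by
  constructor
  · rintro ⟨TC⟩
    exact IsPoly.of_tm2 TC
  · intro h
    exact IsPoly.toTM2 h

/-- Polynomial-time functions are closed under composition. -/
theorem IsPolyTime.comp {α β γ : Type} [N487b59b3 α] [N487b59b3 β] [N487b59b3 γ] {g : β → γ}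
    {f : α → β} (hg : IsPolyTime g) (hf : IsPolyTime f) : IsPolyTime (fun a => g (f a)) := by
  rw [isPolyTime_iff] at *
  exact IsPoly.comp hg hf (fun _ _ => trivial)

/-- Composition of polynomial-time computable functions, for arbitrary encodings by bit
strings. -/
theorem TM2ComputableInPolyTime.comp' {α β γ : Type} {ea : α → List Bool} {eb : β → List Bool}
    {ec : γ → List Bool} {f : α → β} {g : β → γ}
    (hf : Nonempty (TM2ComputableInPolyTime ea eb f))
    (hg : Nonempty (TM2ComputableInPolyTime eb ec g)) :
    Nonempty (TM2ComputableInPolyTime ea ec (fun a => g (f a))) := by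
  obtain ⟨hf⟩ := hf
  obtain ⟨hg⟩ := hg
  exact IsPoly.toTM2 (IsPoly.comp (IsPoly.of_tm2 hg) (IsPoly.of_tm2 hf) (fun _ _ => trivial))

/-! ### Sequential transducers -/

/-- The output of a sequential transducer. -/
def transduce {Q A B : Type} (δ : Q → A → Q) (g : Q → A → List B) : Q → List A → List B
  | _, [] => []
  | q, a :: l => g q a ++ transduce δ g (δ q a) l

theorem transduce_append {Q A B : Type} (δ : Q → A → Q) (g : Q → A → List B) (q : Q)
    (l l' : List A) : transduce δ g q (l ++ l') =
      transduce δ g q l ++ transduce δ g (l.foldl δ q) l' := by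
  induction l generalizing q with
  | nil => rfl
  | cons a l ih => simp [transduce, ih]

theorem transduce_eq {Q A B : Type} (δ : Q → A → Q) (g : Q → A → List B) (q : Q)
    (l : List A) : (List.range l.length).flatMap
      (fun i => (l[i]?).elim [] (g ((l.take i).foldl δ q))) = transduce δ g q l := by
  induction l using List.reverseRecOn with
  | nil => rfl
  | append_singleton l a ih =>
    rw [List.length_append, List.length_singleton, List.range_succ, List.flatMap_append,
      transduce_append]
    congr 1
    · rw [← ih]
      rw [List.flatMap_def, List.flatMap_def]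
      congr 1
      apply List.map_congr_left
      intro i hi
      rw [List.mem_range] at hi
      rw [List.getElem?_append_left hi, List.take_append_of_le_length (by omega)]
    · simp [transduce]

theorem foldl_mark_state {Q A : Type} (δ : Q → A → Q) (q₀ : Q) (x : List A) (i : ℕ) :
    (mark (fun a b => (a, b)) x i).foldl
      (fun (q : Q × Option (Q × A)) (s : A × Bool) =>
        (δ q.1 s.1, if s.2 then some (q.1, s.1) else q.2)) (q₀, none) =
      (x.foldl δ q₀, (x[i]?).map (fun a => ((x.take i).foldl δ q₀, a))) := by
  induction x using List.reverseRecOn with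
  | nil => simp [mark]
  | append_singleton x a ih =>
    have h1 : mark (fun a b => (a, b)) (x ++ [a]) i =
        mark (fun a b => (a, b)) x i ++ [(a, decide (x.length = i))] := by
      simp [mark, List.mapIdx_append]
    rw [h1, List.foldl_append, ih]
    by_cases hi : x.length = i
    · subst hi
      simp
    · by_cases hlt : i < x.length
      · simp [hi, List.getElem?_append_left hlt, List.take_append_of_le_length hlt.le]
      · have h2 : x.length < i := by omega
        have h3 : (x ++ [a])[i]? = none := by
          rw [List.getElem?_eq_none_iff]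
          simp
          omega
        have h4 : x[i]? = none := by
          rw [List.getElem?_eq_none_iff]
          omega
        rw [h3, h4]
        simp [hi]

/-- Sequential transducers are polynomial-time. -/
theorem IsPoly.transduce {α A B Q : Type} [Encodable A] [Encodable B] [Fintype A] [Fintype Q]
    {X : α → Prop} {ea : α → List A} (δ : Q → A → Q) (g : Q → A → List B) (q₀ : Q) :
    IsPoly X ea (fun a => transduce δ g q₀ (ea a)) := by
  have h := IsPoly.forMark (X := X) (ea := ea) (fun (a : A) (b : Bool) => (a, b))
    (G := fun a i => ((ea a)[i]?).elim [] (g (((ea a).take i).foldl δ q₀))) (by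
      refine (IsPoly.out (fun (q : Q × Option (Q × A)) (s : A × Bool) =>
        (δ q.1 s.1, if s.2 then some (q.1, s.1) else q.2)) (q₀, none)
        (fun q => q.2.elim [] (fun s => g s.1 s.2))).congr ?_
      rintro ⟨a, i⟩ -
      dsimp only
      rw [foldl_mark_state]
      cases (ea a)[i]? <;> rfl)
  exact h.congr (fun a _ => transduce_eq δ g q₀ (ea a))

/-! ### Pairs -/

/-- The reading mode of a pair: at an even position of the first component, at an odd one, or in
the second component. -/
abbrev PMode : Type := Fin 3

/-- The next mode. -/
def pStep (q : PMode) (b : Bool) : PMode :=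
  if q = 0 then (if b then 1 else 2) else if q = 1 then 0 else 2

theorem foldl_pStep (l : List Bool) (r : List Bool) :
    (N487b59b3.delimit l ++ r).foldl pStep 0 = r.foldl pStep 2 := by
  induction l with
  | nil => rfl
  | cons b l ih =>
    have : (N487b59b3.delimit (b :: l) ++ r).foldl pStep 0 =
        (N487b59b3.delimit l ++ r).foldl pStep 0 := rfl
    rw [this, ih]

theorem transduce_fst (l : List Bool) (r : List Bool) :
    transduce pStep (fun q b => if q = 1 then [b] else []) 0 (N487b59b3.delimit l ++ r) = l := by
  have h2 : ∀ r : List Bool,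
      transduce pStep (fun q b => if q = 1 then [b] else []) 2 r = [] := by
    intro r
    induction r with
    | nil => rfl
    | cons b r ih => exact ih
  induction l with
  | nil => exact h2 r
  | cons b l ih =>
    have : transduce pStep (fun q b => if q = 1 then [b] else []) 0
        (N487b59b3.delimit (b :: l) ++ r) = b :: transduce pStep
          (fun q b => if q = 1 then [b] else []) 0 (N487b59b3.delimit l ++ r) := rfl
    rw [this, ih]

theorem transduce_snd (l : List Bool) (r : List Bool) :
    transduce pStep (fun q b => if q = 2 then [b] else []) 0 (N487b59b3.delimit l ++ r) = r := by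
  have h2 : ∀ r : List Bool,
      transduce pStep (fun q b => if q = 2 then [b] else []) 2 r = r := by
    intro r
    induction r with
    | nil => rfl
    | cons b r ih =>
      have : transduce pStep (fun q b => if q = 2 then [b] else []) 2 (b :: r) =
        b :: transduce pStep (fun q b => if q = 2 then [b] else []) 2 r := rfl
      rw [this, ih]
  induction l with
  | nil => exact h2 r
  | cons b l ih => exact ih

section Pairs

variable {α : Type} {X : α → Prop} {F G : α → List Bool}

/-- Reading the first component of a pair. -/
theorem isPoly_fst {B : Type} [Encodable B] {α β : Type} {ea : α → List Bool}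
    {eb : β → List Bool} {F : α → List B}
    (hF : IsPoly (fun _ => True) ea F) :
    IsPoly (fun _ => True) (fun p : α × β => N487b59b3.delimit (ea p.1) ++ eb p.2)
      (fun p => F p.1) := by
  have h : IsPoly (fun _ => True) (fun p : α × β => N487b59b3.delimit (ea p.1) ++ eb p.2)
      (fun p => ea p.1) :=
    (IsPoly.transduce pStep (fun q b => if q = 1 then [b] else []) 0).congr
      (fun p _ => transduce_fst _ _)
  exact IsPoly.comp (φ := fun p : α × β => p.1) hF h (fun _ _ => trivial)

/-- Reading the second component of a pair. -/
theorem isPoly_snd {B : Type} [Encodable B] {α β : Type} {ea : α → List Bool}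
    {eb : β → List Bool} {F : β → List B}
    (hF : IsPoly (fun _ => True) eb F) :
    IsPoly (fun _ => True) (fun p : α × β => N487b59b3.delimit (ea p.1) ++ eb p.2)
      (fun p => F p.2) := by
  have h : IsPoly (fun _ => True) (fun p : α × β => N487b59b3.delimit (ea p.1) ++ eb p.2)
      (fun p => eb p.2) :=
    (IsPoly.transduce pStep (fun q b => if q = 2 then [b] else []) 0).congr
      (fun p _ => transduce_snd _ _)
  exact IsPoly.comp (φ := fun p : α × β => p.2) hF h (fun _ _ => trivial)

theorem delimit_eq_flatMap (l : List Bool) :
    N487b59b3.delimit l = l.flatMap (fun b => [true, b]) ++ [false] := by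
  induction l with
  | nil => rfl
  | cons b l ih =>
    rw [List.flatMap_cons]
    simp only [N487b59b3.delimit]
    rw [ih]
    rfl

/-- Delimiting the output. -/
theorem isPoly_delimit {A : Type} [Encodable A] {ea : α → List A} (hF : IsPoly X ea F) :
    IsPoly X ea (fun a => N487b59b3.delimit (F a)) := by
  have h : IsPoly (fun _ => True) (fun l : List Bool => l) (fun l => N487b59b3.delimit l) :=
    ((IsPoly.flatMap (fun b => [true, b])).append (IsPoly.const _ _ [false])).congr
      (fun l _ => (delimit_eq_flatMap l).symm)
  exact IsPoly.comp (φ := F) h hF (fun _ _ => trivial)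

end Pairs

/-- Pairing of polynomial-time functions. -/
theorem IsPolyTime.pair {α β γ : Type} [N487b59b3 α] [N487b59b3 β] [N487b59b3 γ] {f : α → β}
    {g : α → γ} (hf : IsPolyTime f) (hg : IsPolyTime g) : IsPolyTime (fun a => (f a, g a)) := by
  rw [isPolyTime_iff] at *
  exact (isPoly_delimit hf).append hg

theorem isPolyTime_fst {α β : Type} [N487b59b3 α] [N487b59b3 β] :
    IsPolyTime (fun p : α × β => p.1) := by
  rw [isPolyTime_iff]
  exact isPoly_fst (ea := (N487b59b3.bitEncode : α → List Bool))
    (eb := (N487b59b3.bitEncode : β → List Bool)) (isPolyTime_iff.1 isPolyTime_id)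

theorem isPolyTime_snd {α β : Type} [N487b59b3 α] [N487b59b3 β] :
    IsPolyTime (fun p : α × β => p.2) := by
  rw [isPolyTime_iff]
  exact isPoly_snd (ea := (N487b59b3.bitEncode : α → List Bool))
    (eb := (N487b59b3.bitEncode : β → List Bool)) (isPolyTime_iff.1 isPolyTime_id)

end Pool.Agent.Lib.PolyTime
end

section

/-!
# Comparison of lengths, and closure of NP under many-one reductions
-/

namespace Pool.Agent.Lib.PolyTime

open Function Encodable Turing N68a2faeb

section LenLe

variable {α A B C : Type} [Encodable A] [Encodable B] [Encodable C] {X : α → Prop}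
  {ea : α → List A} {F : α → List B} {G : α → List C}

/-- Comparison of the lengths of two outputs. -/
theorem IsPoly.lenLe [Fintype B] [Fintype C] (hF : IsPoly X ea F) (hG : IsPoly X ea G) :
    IsPoly X ea (fun a => [decide ((F a).length ≤ (G a).length)]) := by
  obtain ⟨ι, τ, hι, hτ, τ₀, p, hlen, h⟩ := hF
  obtain ⟨ι', τ', hι', hτ', τ₀', p', hlen', h'⟩ := hG
  refine ⟨(ι ⊕ ι') ⊕ Bool, (Option B × Option C) × (Bool × (τ × τ')), inferInstance,
    inferInstance, ((none, none), (true, (τ₀, τ₀'))), 5 * p + 4 * p' + 10, ?_, ?_⟩
  · intro a ha
    simp
  · intro K σ _ inp out loc L h1 h2 h3 h4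
    set s1 : K := loc (Sum.inr true) with hs1
    set s2 : K := loc (Sum.inr false) with hs2
    have h12 : s1 ≠ s2 := h2.ne (by simp)
    have h1i : s1 ≠ inp := h3 _
    have h2i : s2 ≠ inp := h3 _
    have h1o : s1 ≠ out := h4 _
    have h2o : s2 ≠ out := h4 _
    obtain ⟨c, hc, hrun⟩ := h K σ inp s1 (fun i => loc (Sum.inl (Sum.inl i))) L.snd.snd.fst
      h1i.symm (h2.comp (Sum.inl_injective.comp Sum.inl_injective)) (fun i => h3 _)
      (fun i => h2.ne (by simp))
    obtain ⟨d, hd, hrun'⟩ := h' K σ inp s2 (fun i => loc (Sum.inl (Sum.inr i))) L.snd.snd.snd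
      h2i.symm (h2.comp (Sum.inl_injective.comp Sum.inr_injective)) (fun i => h3 _)
      (fun i => h2.ne (by simp))
    refine ⟨.seq c (.seq d (.seq (each L.fst.fst s1 (.seq (popTo L.fst.snd s2)
      (.load (fun v => L.put (((L.get v).1.1, none),
        ((L.get v).2.1 && (L.get v).1.2.isSome, (L.get v).2.2)) v))))
      (.seq (clear L.fst.snd s2) (.seq (.push out (fun v => encode (L.get v).2.1))
        (.load (fun v => L.snd.fst.put true v)))))), ?_, ?_⟩
    · refine ⟨hc.mono ?_, hd.mono ?_, ⟨trivial, ⟨trivial, trivial⟩, trivial⟩,
        ⟨trivial, trivial, trivial⟩, Or.inr (Or.inl rfl), trivial⟩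
      · rintro k (h | h | ⟨i, h⟩)
        · exact Or.inl h
        · exact Or.inr (Or.inr ⟨_, h.trans hs1⟩)
        · exact Or.inr (Or.inr ⟨_, h⟩)
      · rintro k (h | h | ⟨i, h⟩)
        · exact Or.inl h
        · exact Or.inr (Or.inr ⟨_, h.trans hs2⟩)
        · exact Or.inr (Or.inr ⟨_, h⟩)
    · intro a ha v S hv hinp hloc
      have hv2 : L.snd.get v = (true, (τ₀, τ₀')) := L.snd_get_of hv
      have hv22 : L.snd.snd.get v = (τ₀, τ₀') := L.snd.snd_get_of hv2
      have r1 := hrun a ha v S (L.snd.snd.fst_get_of hv22) hinp (fun i => hloc _)
      rw [show S s1 = [] from hloc _, List.append_nil] at r1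
      set S1 := update S s1 ((F a).map encode) with hS1
      have r2 := hrun' a ha v S1 (L.snd.snd.snd_get_of hv22)
        (by rw [hS1, update_of_ne h1i.symm]; exact hinp)
        (fun i => by rw [hS1, update_of_ne (h2.ne (by simp))]; exact hloc _)
      rw [show S1 s2 = [] by rw [hS1, update_of_ne h12.symm]; exact hloc _, List.append_nil]
        at r2
      set S2 := update S1 s2 ((G a).map encode) with hS2
      obtain ⟨v3, S3, r3, k, hk, hnil, ⟨x, rfl⟩, rfl⟩ := runs_each L.fst.fst s1
        (.seq (popTo L.fst.snd s2) (.load (fun v => L.put (((L.get v).1.1, none),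
          ((L.get v).2.1 && (L.get v).1.2.isSome, (L.get v).2.2)) v))) 2
        (fun l w T => ∃ k, k ≤ (F a).length ∧ l = (F a).drop k ∧
          (∃ x, w = L.put ((x, none), (decide (k ≤ (G a).length), (τ₀, τ₀'))) v) ∧
          T = update (update S2 s1 (l.map encode)) s2 (((G a).drop k).map encode))
        (by
          rintro r w T ⟨k, -, -, -, rfl⟩
          rw [update_of_ne h12, update_self])
        (by
          rintro b l w T ⟨k, hk, hl, ⟨x, rfl⟩, rfl⟩
          have hklt : k < (F a).length := by
            by_contra hcon
            rw [List.drop_eq_nil_of_le (by omega)] at hl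
            exact absurd hl (by simp)
          have hl' : l = (F a).drop (k + 1) := by
            have := congrArg List.tail hl
            rw [List.tail_cons, List.tail_drop] at this
            exact this
          have hput : L.fst.fst.put (some b)
              (L.put ((x, none), (decide (k ≤ (G a).length), (τ₀, τ₀'))) v) =
              L.put ((some b, none), (decide (k ≤ (G a).length), (τ₀, τ₀'))) v := by
            simp [Lens.fst]
          rw [hput]
          have hSk : update (update (update S2 s1 ((b :: l).map encode)) s2
              (((G a).drop k).map encode)) s1 (l.map encode) =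
              update (update S2 s1 (l.map encode)) s2 (((G a).drop k).map encode) := by
            rw [update_comm h12, update_idem, update_comm h12.symm]
          rw [hSk]
          by_cases hG : k < (G a).length
          · obtain ⟨e, r, her⟩ : ∃ e r, (G a).drop k = e :: r := by
              rcases hr : (G a).drop k with _ | ⟨e, r⟩
              · rw [List.drop_eq_nil_iff] at hr
                omega
              · exact ⟨e, r, rfl⟩
            have her' : r = (G a).drop (k + 1) := by
              have := congrArg List.tail her
              rw [List.tail_cons, List.tail_drop] at this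
              exact this.symm
            have p1 := runs_popTo_cons L.fst.snd (k := s2)
              (v := L.put ((some b, none), (decide (k ≤ (G a).length), (τ₀, τ₀'))) v)
              (S := update (update S2 s1 (l.map encode)) s2 (((G a).drop k).map encode))
              (a := e) (l := r.map encode) (by rw [update_self, her]; rfl)
            refine ⟨_, _, p1.seq (Runs.load _ _ _), k + 1, hklt, hl', ⟨some b, ?_⟩, ?_⟩
            · simp [Lens.fst, Lens.snd, hG.le, Nat.succ_le_of_lt hG]
            · rw [update_idem, her']
          · have hnil : (G a).drop k = [] := List.drop_eq_nil_of_le (by omega)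
            have hnil' : (G a).drop (k + 1) = [] := List.drop_eq_nil_of_le (by omega)
            have p1 := runs_popTo_nil L.fst.snd (k := s2)
              (v := L.put ((some b, none), (decide (k ≤ (G a).length), (τ₀, τ₀'))) v)
              (S := update (update S2 s1 (l.map encode)) s2 (((G a).drop k).map encode))
              (by rw [update_self, hnil]; rfl)
            refine ⟨_, _, p1.seq (Runs.load _ _ _), k + 1, hklt, hl', ⟨some b, ?_⟩, ?_⟩
            · have : decide (k < (G a).length) = false := by
                rw [decide_eq_false_iff_not]
                omega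
              simp [Lens.fst, Lens.snd, this]
            · rw [hnil, hnil'])
        (F a) v S2 ⟨0, Nat.zero_le _, rfl, ⟨none, by
          rw [show decide (0 ≤ (G a).length) = true by simp]
          exact (L.put_eq hv).symm⟩, by
          rw [List.drop_zero]
          rw [show (F a).map encode = S2 s1 by rw [hS2, update_of_ne h12, hS1, update_self],
            update_eq_self, show (G a).map encode = S2 s2 by rw [hS2, update_self],
            update_eq_self]⟩
      have hk' : k = (F a).length := by
        have := List.drop_eq_nil_iff.1 hnil.symm
        omega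
      subst hk'
      have hput : L.fst.fst.put none
          (L.put ((x, none), (decide ((F a).length ≤ (G a).length), (τ₀, τ₀'))) v) =
          L.put ((none, none), (decide ((F a).length ≤ (G a).length), (τ₀, τ₀'))) v := by
        simp [Lens.fst]
      rw [hput, List.map_nil] at r3
      set v4 := L.put ((none, none), (decide ((F a).length ≤ (G a).length), (τ₀, τ₀'))) v with hv4
      set S4 := update (update S2 s1 []) s2 (((G a).drop (F a).length).map encode) with hS4
      have r4 := runs_clear L.fst.snd (k := s2) (v := v4) (S := S4)
        (l := (G a).drop (F a).length) (by simp [hv4, Lens.fst, Lens.snd])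
        (by rw [hS4, update_self])
      refine ((r1.seq (r2.seq (r3.seq (r4.seq ((Runs.push _ _ _ _).seq
        (Runs.load _ _ _)))))).of_eq ?_ ?_).mono ?_
      · simp only [hv4, Lens.fst, Lens.snd, Lens.get_put, Lens.put_put]
        exact L.put_eq hv
      · funext k
        by_cases e1 : k = out
        · subst e1
          rw [update_self, update_self, update_of_ne h2o.symm, hS4, update_of_ne h2o.symm,
            update_of_ne h1o.symm, hS2, update_of_ne h2o.symm, hS1, update_of_ne h1o.symm,
            hv4, Lens.get_put]
          rfl
        · rw [update_of_ne e1, update_of_ne e1]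
          by_cases e2 : k = s2
          · subst e2
            rw [update_self]
            exact (hloc _).symm
          · rw [update_of_ne e2, hS4, update_of_ne e2]
            by_cases e3 : k = s1
            · subst e3
              rw [update_self]
              exact (hloc _).symm
            · rw [update_of_ne e3, hS2, update_of_ne e2, hS1, update_of_ne e3]
      · have hl1 := hlen a ha
        have hl2 := hlen' a ha
        simp only [Polynomial.eval_add, Polynomial.eval_mul, Polynomial.eval_ofNat,
          List.length_drop]
        omega

end LenLe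

/-- Conjunctions. -/
theorem IsPoly.and {α A : Type} [Encodable A] {X : α → Prop} {ea : α → List A}
    {b c : α → Bool} (hb : IsPoly X ea (fun a => [b a])) (hc : IsPoly X ea (fun a => [c a])) :
    IsPoly X ea (fun a => [b a && c a]) := by
  have h : IsPoly (fun _ => True) (fun l : List Bool => l)
      (fun l => [l.foldl (fun x y => x && y) true]) :=
    IsPoly.out (fun (x y : Bool) => x && y) true (fun q => [q])
  refine (IsPoly.comp (φ := fun a => [b a, c a]) h (hb.append hc) (fun _ _ => trivial)).congr ?_
  intro a _
  simp

/-- NP is closed under polynomial-time many-one reductions. -/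
theorem mem_NP_of_reducible {L L' : DecisionProblem} (h : N793a5b8e.ManyOneReducible L L')
    (hL' : L' ∈ N68a2faeb.NP) : L ∈ N68a2faeb.NP := by
  obtain ⟨f, hf, hLL⟩ := h
  obtain ⟨p, R, hR, hLR⟩ := hL'
  have hf' := isPolyTime_iff.1 hf
  have hR' := isPolyTime_iff.1 hR
  obtain ⟨ι, τ, hι, hτ, τ₀, q, hlen, -⟩ := id hf'
  -- the new verifier
  let R' : List Bool × List Bool → Bool := fun s =>
    R (f s.1, s.2) && decide (s.2.length ≤ p.eval (f s.1).length)
  have h1 : IsPolyTime (fun s : List Bool × List Bool => (f s.1, s.2)) :=
    IsPolyTime.pair (IsPolyTime.comp hf isPolyTime_fst) isPolyTime_snd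
  have h2 : IsPolyTime (fun s : List Bool × List Bool => R (f s.1, s.2)) :=
    IsPolyTime.comp hR h1
  have h3 : IsPoly (fun _ => True) (N487b59b3.bitEncode : List Bool × List Bool → List Bool)
      (fun s => s.2) := by
    have := isPolyTime_iff.1 (isPolyTime_snd (α := List Bool) (β := List Bool))
    have hdec : IsPoly (fun _ => True) enc3 (fun x : List Bool => x) :=
      isPoly_decode (IsPoly.flatMap (fun b => [b]) |>.congr (fun x _ => by simp))
    refine IsPoly.comp (φ := fun s : List Bool × List Bool => s.2) hdec ?_ (fun _ _ => trivial)
    exact this.congr (fun s _ => bitEncode_listBool s.2)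
  have h4 : IsPoly (fun _ => True) (N487b59b3.bitEncode : List Bool × List Bool → List Bool)
      (fun s => f s.1) := by
    have := isPolyTime_iff.1 (IsPolyTime.comp hf (isPolyTime_fst (α := List Bool)
      (β := List Bool)))
    have hdec : IsPoly (fun _ => True) enc3 (fun x : List Bool => x) :=
      isPoly_decode (IsPoly.flatMap (fun b => [b]) |>.congr (fun x _ => by simp))
    refine IsPoly.comp (φ := fun s : List Bool × List Bool => f s.1) hdec ?_ (fun _ _ => trivial)
    exact this.congr (fun s _ => bitEncode_listBool (f s.1))
  have h5 : IsPoly (fun _ => True) (N487b59b3.bitEncode : List Bool × List Bool → List Bool)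
      (fun s => (List.replicate (p.eval (f s.1).length) [true]).flatten) :=
    IsPoly.comp (φ := fun s : List Bool × List Bool => f s.1)
      (IsPoly.rep (fun _ => True) (fun x : List Bool => x) p [true]) h4 (fun _ _ => trivial)
  have hR'' : IsPolyTime R' := by
    rw [isPolyTime_iff]
    refine ((isPolyTime_iff.1 h2).and ((h3.lenLe h5).congr (G := fun s =>
      [decide (s.2.length ≤ p.eval (f s.1).length)]) ?_)).congr ?_
    · intro s _
      simp
    · intro s _
      rfl
  have hlenf : ∀ x : List Bool, (f x).length ≤ q.eval (3 * x.length) := by
    intro x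
    have := hlen x trivial
    dsimp only at this
    rw [bitEncode_listBool, bitEncode_listBool, length_enc3, length_enc3] at this
    omega
  refine ⟨p.comp (q.comp (3 * Polynomial.X)), R', hR'', ?_⟩
  intro x
  have hx : (L x = true) ↔ ∃ w : List Bool, w.length ≤ p.eval (f x).length ∧
      R (f x, w) = true := by
    rw [hLL x]
    exact hLR (f x)
  refine hx.trans ?_
  constructor
  · rintro ⟨w, hw, hRw⟩
    refine ⟨w, ?_, ?_⟩
    · refine hw.trans ?_
      simp only [Polynomial.eval_comp, Polynomial.eval_mul, Polynomial.eval_X,
        Polynomial.eval_ofNat]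
      exact eval_mono p (hlenf x)
    · change (R (f x, w) && decide (w.length ≤ p.eval (f x).length)) = true
      rw [hRw, decide_eq_true hw]
      rfl
  · rintro ⟨w, -, hRw⟩
    change (R (f x, w) && decide (w.length ≤ p.eval (f x).length)) = true at hRw
    rw [Bool.and_eq_true, decide_eq_true_eq] at hRw
    exact ⟨w, hRw.2, hRw.1⟩

/-- Many-one reductions pass to complements. -/
theorem ManyOneReducible.compl {L L' : DecisionProblem}
    (h : N793a5b8e.ManyOneReducible L L') : N793a5b8e.ManyOneReducible Lᶜ L'ᶜ := by
  obtain ⟨f, hf, hLL⟩ := h
  refine ⟨f, hf, fun x => ?_⟩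
  change (!(L x)) = !(L' (f x))
  rw [hLL x]

/-- A coNP-hard problem is in NP only if NP = coNP. -/
theorem NP_eq_coNP_of_mem {L' : DecisionProblem}
    (h : ∀ L ∈ N68a2faeb.coNP, N793a5b8e.ManyOneReducible L L') (hL' : L' ∈ N68a2faeb.NP) :
    N68a2faeb.NP = N68a2faeb.coNP := by
  have h1 : ∀ L, L ∈ N68a2faeb.coNP → L ∈ N68a2faeb.NP :=
    fun L hL => mem_NP_of_reducible (h L hL) hL'
  refine Set.Subset.antisymm ?_ h1
  intro L hL
  have h2 : Lᶜ ∈ N68a2faeb.coNP := by
    change Lᶜᶜ ∈ N68a2faeb.NP
    rwa [compl_compl]
  exact h1 _ h2

/-- Many-one reductions compose. -/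
theorem ManyOneReducible.trans {L L' L'' : DecisionProblem}
    (h : N793a5b8e.ManyOneReducible L L') (h' : N793a5b8e.ManyOneReducible L' L'') :
    N793a5b8e.ManyOneReducible L L'' := by
  obtain ⟨f, hf, hLL⟩ := h
  obtain ⟨g, hg, hLL'⟩ := h'
  exact ⟨fun x => g (f x), IsPolyTime.comp hg hf, fun x => (hLL x).trans (hLL' (f x))⟩

end Pool.Agent.Lib.PolyTime
end
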